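import Pool.Agent.Lib.P89d91e.Compat

open Set Filter Topology
open scoped ContDiff Manifold

namespace Pool.Agent.Lib.P89d91e

variable {E : Type*} [NormedAddCommGroup E] [NormedSpace ℝ E] {X : Type*}

/-- A family of injective local parametrisations of a set `X` by open subsets of `E`, whose
changes of coordinates are smooth and preserve the bilinear form `B`. -/
structure SympAtlas (B : E →L[ℝ] E →L[ℝ] ℝ) (X : Type*) where
  ι : Type
  U : ι → Set E
  κ : ι → E → X
  isOpen_U : ∀ i, IsOpen (U i)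
  inj : ∀ i, InjOn (κ i) (U i)
  cover : ∀ x, ∃ i, ∃ u ∈ U i, κ i u = x
  compat : ∀ i j u v, u ∈ U i → v ∈ U j → κ i u = κ j v → Compat B (κ i) u (κ j) v

namespace SympAtlas

variable {B : E →L[ℝ] E →L[ℝ] ℝ} (A : SympAtlas B X)

/-- The chart (as a partial equivalence) associated with a local parametrisation. -/
noncomputable def pe (i : A.ι) : PartialEquiv X E :=
  ((A.inj i).toPartialEquiv (A.κ i) (A.U i)).symm

@[simp] theorem pe_source (i : A.ι) : (A.pe i).source = A.κ i '' A.U i := rfl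
@[simp] theorem pe_target (i : A.ι) : (A.pe i).target = A.U i := rfl
@[simp] theorem pe_symm_apply (i : A.ι) (u : E) : (A.pe i).symm u = A.κ i u := rfl

theorem pe_apply (i : A.ι) {u : E} (hu : u ∈ A.U i) : A.pe i (A.κ i u) = u := by
  have := (A.pe i).right_inv (x := u) (by simpa using hu)
  simpa using this

theorem trans_local (i j : A.ι) {u v : E} (hu : u ∈ A.U i) (hv : v ∈ A.U j)
    (h : A.κ i u = A.κ j v) :
    ∃ (g : E → E) (W : Set E), IsOpen W ∧ u ∈ W ∧ W ⊆ A.U i ∧ g u = v ∧ ContDiffOn ℝ ∞ g W ∧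
      (∀ x ∈ W, g x ∈ A.U j ∧ A.κ j (g x) = A.κ i x ∧ A.pe j (A.κ i x) = g x) ∧
      ∀ x ∈ W, ∀ a b, B (fderiv ℝ g x a) (fderiv ℝ g x b) = B a b := by
  obtain ⟨g, W, hW, huW, hg, hgs, hgc, hgB⟩ := A.compat i j u v hu hv h
  refine ⟨g, A.U i ∩ (W ∩ g ⁻¹' A.U j), ?_, ⟨hu, huW, by simpa [hg] using hv⟩,
    inter_subset_left, hg, ?_, ?_, ?_⟩
  · exact (A.isOpen_U i).inter (hgs.continuousOn.isOpen_inter_preimage hW (A.isOpen_U j))
  · exact hgs.mono (fun x hx => hx.2.1)
  · intro x hx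
    refine ⟨hx.2.2, hgc x hx.2.1, ?_⟩
    rw [← hgc x hx.2.1]
    exact A.pe_apply j hx.2.2
  · intro x hx
    exact hgB x hx.2.1

/-- The charted space core defined by the atlas. -/
noncomputable def core : ChartedSpaceCore E X where
  atlas := range A.pe
  chartAt x := A.pe (A.cover x).choose
  mem_chart_source x := by
    obtain ⟨u, hu, hx⟩ := (A.cover x).choose_spec
    exact ⟨u, hu, hx⟩
  chart_mem_atlas x := mem_range_self _
  open_source := by
    rintro _ _ ⟨i, rfl⟩ ⟨j, rfl⟩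
    rw [isOpen_iff_mem_nhds]
    intro u hu
    have hu1 : u ∈ A.U i := by simpa [PartialEquiv.trans_source] using hu.1
    obtain ⟨v, hv, hvu⟩ : ∃ v ∈ A.U j, A.κ j v = A.κ i u := by
      simpa [PartialEquiv.trans_source] using hu.2
    obtain ⟨g, W, hW, huW, hWU, -, -, h2, -⟩ := A.trans_local i j hu1 hv hvu.symm
    refine mem_of_superset (hW.mem_nhds huW) ?_
    intro x hx
    refine ⟨by simpa using hWU hx, ?_⟩
    simp only [mem_preimage, PartialEquiv.symm_symm, pe_symm_apply, pe_source]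
    exact ⟨g x, (h2 x hx).1, (h2 x hx).2.1⟩
  continuousOn_toFun := by
    rintro _ _ ⟨i, rfl⟩ ⟨j, rfl⟩
    intro u hu
    have hu1 : u ∈ A.U i := by simpa [PartialEquiv.trans_source] using hu.1
    obtain ⟨v, hv, hvu⟩ : ∃ v ∈ A.U j, A.κ j v = A.κ i u := by
      simpa [PartialEquiv.trans_source] using hu.2
    obtain ⟨g, W, hW, huW, hWU, -, hgs, h2, -⟩ := A.trans_local i j hu1 hv hvu.symm
    have hc : ContinuousAt g u := (hgs.continuousOn).continuousAt (hW.mem_nhds huW)
    refine ContinuousAt.continuousWithinAt ?_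
    refine hc.congr ?_
    filter_upwards [hW.mem_nhds huW] with x hx
    exact ((h2 x hx).2.2).symm

end SympAtlas

end Pool.Agent.Lib.P89d91e
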