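import Pool.Agent.Lib.P89d91e.Manifold

open Set Filter Topology
open scoped ContDiff Manifold

namespace Pool.Agent.Lib.P89d91e.SympAtlas

variable {E : Type*} [NormedAddCommGroup E] [NormedSpace ℝ E] {X : Type*}
variable {B : E →L[ℝ] E →L[ℝ] ℝ} (A : SympAtlas B X)

theorem continuousAt_of_compat {κ : E → X} {u v : E} {i : A.ι} (hv : v ∈ A.U i)
    (h : Compat B κ u (A.κ i) v) : @ContinuousAt _ _ _ A.top κ u := by
  let _ := A.top
  obtain ⟨g, W, hW, hu, hg, hgs, hc, -⟩ := h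
  have h1 : ContinuousAt g u := hgs.continuousOn.continuousAt (hW.mem_nhds hu)
  have h2 : ContinuousAt (A.κ i) (g u) := by
    rw [hg]
    exact (A.continuousOn_κ i).continuousAt ((A.isOpen_U i).mem_nhds hv)
  refine (ContinuousAt.comp h2 h1).congr ?_
  filter_upwards [hW.mem_nhds hu] with x hx
  exact hc x hx

theorem image_mem_nhds_of_compat {κ : E → X} {u v : E} {i : A.ι} (hv : v ∈ A.U i)
    (h : Compat B (A.κ i) v κ u) {W : Set E} (hW : W ∈ 𝓝 u) :
    κ '' W ∈ @nhds X A.top (κ u) := by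
  let _ := A.top
  have he := h.apply_eq
  obtain ⟨g, W', hW', hu, hg, hgs, hc, -⟩ := h
  have h1 : ContinuousAt g v := hgs.continuousOn.continuousAt (hW'.mem_nhds hu)
  have h2 : A.U i ∩ W' ∩ g ⁻¹' W ∈ 𝓝 v :=
    inter_mem (inter_mem ((A.isOpen_U i).mem_nhds hv) (hW'.mem_nhds hu))
      (h1 (by rw [hg]; exact hW))
  obtain ⟨V, hV, hVo, hvV⟩ := mem_nhds_iff.1 h2
  have h3 := A.isOpen_image i hVo (fun x hx => (hV hx).1.1)
  refine mem_of_superset (h3.mem_nhds (x := κ u) ?_) ?_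
  · rw [← he]; exact mem_image_of_mem _ hvV
  · rintro _ ⟨x, hx, rfl⟩
    exact ⟨g x, (hV hx).2, hc x (hV hx).1.2⟩

theorem disjoint_nhds_chart {i : A.ι} {u v : E} (hu : u ∈ A.U i) (hv : v ∈ A.U i) (h : u ≠ v) :
    Disjoint (@nhds X A.top (A.κ i u)) (@nhds X A.top (A.κ i v)) := by
  let _ := A.top
  obtain ⟨V, V', hV, hV', huV, hvV, hd⟩ := t2_separation h
  rw [Filter.disjoint_iff]
  refine ⟨A.κ i '' (V ∩ A.U i), ?_, A.κ i '' (V' ∩ A.U i), ?_, ?_⟩
  · exact (A.isOpen_image i (hV.inter (A.isOpen_U i)) inter_subset_right).mem_nhds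
      (mem_image_of_mem _ ⟨huV, hu⟩)
  · exact (A.isOpen_image i (hV'.inter (A.isOpen_U i)) inter_subset_right).mem_nhds
      (mem_image_of_mem _ ⟨hvV, hv⟩)
  · rw [Set.disjoint_left]
    rintro _ ⟨x, hx, rfl⟩ ⟨y, hy, hxy⟩
    have : y = x := A.inj i hy.2 hx.2 hxy
    subst this
    exact Set.disjoint_left.1 hd hx.1 hy.1

end Pool.Agent.Lib.P89d91e.SympAtlas
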