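import Pool.Agent.Lib.P89d91e.Param

open Set Filter Topology
open scoped ContDiff

namespace Pool.Agent.Lib.P89d91e

/-- The set of exceptional points. -/
def Fs : Set Pt := {P | F P}

/-- Indices of the charts of the atlas. -/
inductive Ix : Type
  | R (P : Pt) : Ix
  | A (g : Frame) (c₀ : ℝ) : Ix
  | Bc (g : Frame) (c₀ : ℝ) : Ix

/-- Domains of the parametrisations. -/
def Ix.U : Ix → Set Pt
  | .R P => Metric.ball P (min (1 / 2) (Metric.infDist P Fs))
  | .A _ c₀ => {u | u ∈ Da ∧ |u.2.2.1 - c₀| < 1 / 2 ∧ |u.2.2.2| < 1 / 2}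
  | .Bc _ c₀ => {u | u ∈ Db ∧ |u.2.2.1 - c₀| < 1 / 2 ∧ |u.2.2.2| < 1 / 2}

/-- The parametrisations. -/
noncomputable def Ix.κ : Ix → Pt → X
  | .R _ => fl
  | .A g _ => fr g ∘ κa
  | .Bc g _ => fr g ∘ κb

theorem isOpen_Da : IsOpen Da := by
  refine IsOpen.and ?_ ?_
  · exact isOpen_lt (by fun_prop) (by fun_prop)
  · exact isOpen_lt (by fun_prop) (by fun_prop)

theorem isOpen_Db : IsOpen Db := by
  refine IsOpen.and ?_ ?_
  · exact isOpen_lt (by fun_prop) (by fun_prop)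
  · exact isOpen_lt (by fun_prop) (by fun_prop)

theorem not_F_of_mem_ball {P u : Pt} (hu : u ∈ Metric.ball P (min (1 / 2) (Metric.infDist P Fs))) :
    ¬ F u := by
  intro h
  have h1 : dist u P < Metric.infDist P Fs := lt_of_lt_of_le (Metric.mem_ball.1 hu) (min_le_right _ _)
  have h2 : Metric.infDist P Fs ≤ dist P u := Metric.infDist_le_dist_of_mem h
  rw [dist_comm] at h1
  linarith

theorem Ix.isOpen_U (i : Ix) : IsOpen i.U := by
  cases i with
  | R P => exact Metric.isOpen_ball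
  | A g c₀ =>
    refine IsOpen.and isOpen_Da (IsOpen.and ?_ ?_)
    · exact isOpen_lt (by fun_prop) (by fun_prop)
    · exact isOpen_lt (by fun_prop) (by fun_prop)
  | Bc g c₀ =>
    refine IsOpen.and isOpen_Db (IsOpen.and ?_ ?_)
    · exact isOpen_lt (by fun_prop) (by fun_prop)
    · exact isOpen_lt (by fun_prop) (by fun_prop)

theorem Ix.par (i : Ix) {u : Pt} (hu : u ∈ i.U) : Par i.κ u := by
  cases i with
  | R P => exact par_fl (not_F_of_mem_ball hu)
  | A g c₀ => exact par_fr g (par_κa hu.1)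
  | Bc g c₀ => exact par_fr g (par_κb hu.1)

theorem abs_comp_le_dist {u v : Pt} {r : ℝ} (h : dist u v < r) :
    |u.1.re - v.1.re| < r ∧ |u.1.im - v.1.im| < r ∧ |u.2.1.re - v.2.1.re| < r ∧
    |u.2.1.im - v.2.1.im| < r ∧ |u.2.2.1 - v.2.2.1| < r ∧ |u.2.2.2 - v.2.2.2| < r := by
  rw [dist_eq_norm] at h
  have h1 : ‖(u - v).1‖ < r := (norm_fst_le (u - v)).trans_lt h
  have h2 : ‖(u - v).2‖ < r := (norm_snd_le (u - v)).trans_lt h
  have h3 : ‖(u - v).2.1‖ < r := (norm_fst_le (u - v).2).trans_lt h2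
  have h4 : ‖(u - v).2.2‖ < r := (norm_snd_le (u - v).2).trans_lt h2
  have h5 : ‖(u - v).2.2.1‖ < r := (norm_fst_le (u - v).2.2).trans_lt h4
  have h6 : ‖(u - v).2.2.2‖ < r := (norm_snd_le (u - v).2.2).trans_lt h4
  refine ⟨?_, ?_, ?_, ?_, ?_, ?_⟩
  · simpa using (Complex.abs_re_le_norm _).trans_lt h1
  · simpa using (Complex.abs_im_le_norm _).trans_lt h1
  · simpa using (Complex.abs_re_le_norm _).trans_lt h3
  · simpa using (Complex.abs_im_le_norm _).trans_lt h3
  · simpa using h5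
  · simpa using h6

theorem inj_R (P : Pt) : InjOn fl (Metric.ball P (min (1 / 2) (Metric.infDist P Fs))) := by
  intro u hu v hv h
  obtain ⟨ε, n, j, x, y, k, l, hε, h1, h2, h3, h4, h5, h6⟩ := (mk_eq.1 h).1
  have hu' : dist u P < 1 / 2 := lt_of_lt_of_le (Metric.mem_ball.1 hu) (min_le_left _ _)
  have hv' : dist v P < 1 / 2 := lt_of_lt_of_le (Metric.mem_ball.1 hv) (min_le_left _ _)
  have huv : dist u v < 1 := by
    have := dist_triangle_right u v P
    linarith
  obtain ⟨b1, b2, b3, b4, b5, b6⟩ := abs_comp_le_dist huv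
  rw [abs_lt] at b1 b2 b3 b4 b5 b6
  have hk : k = 0 := int_zero_of_abs_lt (by rw [abs_lt]; constructor <;> linarith)
  subst hk
  rcases hε with rfl | rfl
  · push_cast at h1 h2 h3 h4 h5 h6
    have hn : n = 0 := int_zero_of_abs_lt (by rw [abs_lt]; constructor <;> linarith)
    have hj : j = 0 := int_zero_of_abs_lt (by rw [abs_lt]; constructor <;> linarith)
    have hy : y = 0 := int_zero_of_abs_lt (by rw [abs_lt]; constructor <;> linarith)
    subst hn hj hy
    push_cast at h1 h2 h3 h4 h5 h6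
    have hx : x = 0 := int_zero_of_abs_lt (by rw [abs_lt]; constructor <;> linarith)
    have hl : l = 0 := int_zero_of_abs_lt (by rw [abs_lt]; constructor <;> linarith)
    subst hx hl
    push_cast at h1 h2 h3 h4 h5 h6
    apply pt_ext <;> linarith
  · exfalso
    have hm : (1 / 2 : ℝ) • u + (1 / 2 : ℝ) • v ∈
        Metric.ball P (min (1 / 2) (Metric.infDist P Fs)) :=
      convex_ball P _ hu hv (by norm_num) (by norm_num) (by norm_num)
    apply not_F_of_mem_ball hm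
    rw [F_iff]
    refine ⟨n, j, x, y, ?_, ?_, ?_, ?_⟩
    · simp [h1]; ring
    · simp [h2]; ring
    · simp [h4]; ring
    · simp [h3, h5]; ring

theorem int_of_close {c c' c₀ : ℝ} {k : ℤ} (h : |c - c₀| < 1 / 2) (h' : |c' - c₀| < 1 / 2)
    (hk : c' = c + 2 * k) : c' = c := by
  rw [abs_lt] at h h'
  have : k = 0 := int_zero_of_abs_lt (by rw [abs_lt]; constructor <;> linarith)
  subst this
  simpa using hk

theorem inj_κa (c₀ : ℝ) : InjOn κa {u | u ∈ Da ∧ |u.2.2.1 - c₀| < 1 / 2 ∧ |u.2.2.2| < 1 / 2} := by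
  rintro ⟨b, a, c, s⟩ ⟨⟨h1, h2⟩, h3, h4⟩ ⟨b', a', c', s'⟩ ⟨⟨h1', h2'⟩, h3', h4'⟩ h
  simp only at h1 h2 h3 h4 h1' h2' h3' h4'
  have h0 := mk_eq.1 h
  obtain ⟨ε, hε, e1, e2, ⟨k, e3⟩, ⟨l, e4⟩⟩ := rel_small (norm_sq_lt h1) (norm_mul_sq_lt h2)
    (norm_sq_lt h1') (norm_mul_sq_lt h2') h0.1
  simp only at e1 e2 e3 e4
  have hc : c' = c := int_of_close h3 h3' e3
  have hs : s' = s := int_of_close (c₀ := 0) (by simpa using h4) (by simpa using h4') e4
  have hb : b' = b := by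
    have h5 : sq b' ^ 2 = sq b ^ 2 := by
      rw [e1, mul_pow]
      rcases hε with rfl | rfl <;> ring
    rw [sq_sq, sq_sq] at h5
    linear_combination (1 / 2 : ℂ) * h5
  have ha : a' = a := by
    by_cases hz : sq b = 0
    · have hF : F (sq b, a * sq b, c, s) := by
        rw [hz, mul_zero]; exact F_origin c s
      have := h0.2 hF
      exact (Option.some_injective _ this).symm
    · have h5 : (a' - a) * (ε * sq b) = 0 := by
        rw [e1] at e2
        linear_combination e2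
      have hε0 : ε ≠ 0 := by rcases hε with rfl | rfl <;> simp
      rcases mul_eq_zero.1 h5 with h6 | h6
      · linear_combination h6
      · exact absurd h6 (mul_ne_zero hε0 hz)
  rw [hb, ha, hc, hs]

theorem inj_κb (c₀ : ℝ) : InjOn κb {u | u ∈ Db ∧ |u.2.2.1 - c₀| < 1 / 2 ∧ |u.2.2.2| < 1 / 2} := by
  rintro ⟨a, b, c, s⟩ ⟨⟨h1, h2⟩, h3, h4⟩ ⟨a', b', c', s'⟩ ⟨⟨h1', h2'⟩, h3', h4'⟩ h
  simp only at h1 h2 h3 h4 h1' h2' h3' h4'
  have h0 := mk_eq.1 h
  obtain ⟨ε, hε, e1, e2, ⟨k, e3⟩, ⟨l, e4⟩⟩ := rel_small (norm_mul_sq_lt h2) (norm_sq_lt h1)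
    (norm_mul_sq_lt h2') (norm_sq_lt h1') h0.1
  simp only at e1 e2 e3 e4
  have hc : c' = c := int_of_close h3 h3' e3
  have hs : s' = s := int_of_close (c₀ := 0) (by simpa using h4) (by simpa using h4') e4
  have hb : b' = b := by
    have h5 : sq b' ^ 2 = sq b ^ 2 := by
      rw [e2, mul_pow]
      rcases hε with rfl | rfl <;> ring
    rw [sq_sq, sq_sq] at h5
    linear_combination (1 / 2 : ℂ) * h5
  have ha : a' = a := by
    by_cases hz : sq b = 0
    · have hF : F (a * sq b, sq b, c, s) := by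
        rw [hz, mul_zero]; exact F_origin c s
      have := h0.2 hF
      simp only at this
      split_ifs at this with g1 g2 g2
      · rw [g1, g2]
      · exact (inv_injective (Option.some_injective _ this)).symm
    · have h5 : (a' - a) * (ε * sq b) = 0 := by
        rw [e2] at e1
        linear_combination e1
      have hε0 : ε ≠ 0 := by rcases hε with rfl | rfl <;> simp
      rcases mul_eq_zero.1 h5 with h6 | h6
      · linear_combination h6
      · exact absurd h6 (mul_ne_zero hε0 hz)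
  rw [hb, ha, hc, hs]

theorem Ix.inj (i : Ix) : InjOn i.κ i.U := by
  cases i with
  | R P => exact inj_R P
  | A g c₀ => exact fun u hu v hv h => inj_κa c₀ hu hv (fr_inj g h)
  | Bc g c₀ => exact fun u hu v hv h => inj_κb c₀ hu hv (fr_inj g h)

theorem exists_frame {P : Pt} (h : F P) : ∃ (g : Frame) (c : ℝ), P = g.act (0, 0, c, 0) := by
  rw [F_iff] at h
  obtain ⟨n, j, x, y, h1, h2, h3, h4⟩ := h
  refine ⟨⟨n, j, x, y, P.2.2.2⟩, P.2.2.1, ?_⟩
  apply pt_ext <;> simp [h1, h2, h3, h4]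

theorem mem_U_A (a : ℂ) (g : Frame) (c : ℝ) : ((0, a, c, 0) : Pt) ∈ (Ix.A g c).U := by
  simp [Ix.U, Da]

theorem mem_U_B (a : ℂ) (g : Frame) (c : ℝ) : ((a, 0, c, 0) : Pt) ∈ (Ix.Bc g c).U := by
  simp [Ix.U, Db]

theorem mem_U_R {P : Pt} (h : ¬ F P) : P ∈ (Ix.R P).U := by
  have hne : Fs.Nonempty := ⟨_, F_origin 0 0⟩
  have : 0 < Metric.infDist P Fs :=
    ((IsClosed.notMem_iff_infDist_pos (s := Fs) isClosed_F hne).1 h)
  apply Metric.mem_ball_self
  exact lt_min (by norm_num) this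

theorem Ix.cover (x : X) : ∃ i : Ix, ∃ u ∈ i.U, i.κ u = x := by
  obtain ⟨P, d, rfl⟩ := mk_surj x
  by_cases h : F P
  · obtain ⟨g, c, rfl⟩ := exists_frame h
    cases d with
    | none => exact ⟨.Bc g c, (0, 0, c, 0), mem_U_B 0 g c, by simp [Ix.κ, κb_zero]⟩
    | some a => exact ⟨.A g c, (0, a, c, 0), mem_U_A a g c, by simp [Ix.κ, κa_zero]⟩
  · exact ⟨.R P, P, mem_U_R h, mk_of_not_F h _ _⟩

/-- The atlas. -/
noncomputable def atl : SympAtlas B X where
  ι := Ix
  U := Ix.U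
  κ := Ix.κ
  isOpen_U := Ix.isOpen_U
  inj := Ix.inj
  cover := Ix.cover
  compat := fun i j _ _ hu hv h => (i.par hu).compat (j.par hv) h

end Pool.Agent.Lib.P89d91e
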