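import Pool.Agent.Lib.P89d91e.CosInv

open Set Filter Topology
open scoped ContDiff

namespace Pool.Agent.Lib.P89d91e

/-- A solution of `cos (π p) = ζ`. -/
noncomputable def pc (ζ : ℂ) : ℂ := (Complex.cos_surjective ζ).choose / Real.pi

theorem pi_ne : (Real.pi : ℂ) ≠ 0 := by exact_mod_cast Real.pi_ne_zero

theorem cos_pc (ζ : ℂ) : Complex.cos (Real.pi * pc ζ) = ζ := by
  have := (Complex.cos_surjective ζ).choose_spec
  rw [pc, mul_div_cancel₀ _ pi_ne]
  exact this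

/-- The points `(p, 0, c, s)` with slope zero, in terms of `ζ = cos (π p)`. -/
noncomputable def cap (ζ : ℂ) (c s : ℝ) : X := mk (pc ζ, 0, c, s) (some 0)

theorem rel_of_cos {p p' : ℂ} (h : Complex.cos (Real.pi * p) = Complex.cos (Real.pi * p'))
    (c s : ℝ) : rel (p, 0, c, s) (p', 0, c, s) := by
  obtain ⟨k, hk | hk⟩ := Complex.cos_eq_cos_iff.1 h
  · have h1 : p' = p + 2 * k := by
      apply mul_left_cancel₀ pi_ne
      rw [hk]; ring
    refine ⟨1, k, 0, 0, 0, 0, 0, Or.inl rfl, ?_⟩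
    simp [h1]
  · have h1 : p' = -p + 2 * k := by
      apply mul_left_cancel₀ pi_ne
      rw [hk]; ring
    refine ⟨-1, k, 0, 0, 0, 0, 0, Or.inr rfl, ?_⟩
    simp [h1]

theorem cap_eq {p ζ : ℂ} (h : Complex.cos (Real.pi * p) = ζ) (c s : ℝ) :
    cap ζ c s = mk (p, 0, c, s) (some 0) :=
  mk_eq.2 ⟨rel_of_cos (by rw [cos_pc, h]) c s, fun _ => rfl⟩

theorem cap_add (ζ : ℂ) (c s : ℝ) (l : ℤ) : cap ζ c (s + 2 * l) = cap ζ c s := by
  refine mk_eq.2 ⟨⟨1, 0, 0, 0, 0, 0, -l, Or.inl rfl, ?_⟩, fun _ => rfl⟩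
  simp

theorem sin_int (n : ℤ) : Complex.sin (Real.pi * n) = 0 := by
  rw [Complex.sin_eq_zero_iff]
  exact ⟨n, by ring⟩

theorem not_F_of_sin {p : ℂ} (h : Complex.sin (Real.pi * p) ≠ 0) (him : |p.im| < 1) (c s : ℝ) :
    ¬ F (p, 0, c, s) := by
  intro hF
  rw [F_iff] at hF
  obtain ⟨n, j, x, y, h1, h2, -, -⟩ := hF
  simp only at h1 h2
  have hj : j = 0 := int_zero_of_abs_lt (by rw [← h2]; exact him)
  subst hj
  have : p = n := by apply Complex.ext <;> simp [h1, h2]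
  rw [this] at h
  exact h (sin_int n)

theorem cap_lift {p0 : ℂ} (him : |p0.im| < 1) : ∃ (κ : Pt → X) (φ : ℂ → ℂ),
    ContDiffAt ℝ ∞ φ (Complex.cos (Real.pi * p0)) ∧
    (∃ φ', φ' ≠ 0 ∧ HasDerivAt φ φ' (Complex.cos (Real.pi * p0))) ∧
    (∀ c s, Par κ (φ (Complex.cos (Real.pi * p0)), 0, c, s)) ∧
    ∀ᶠ ζ in 𝓝 (Complex.cos (Real.pi * p0)), ∀ c s, κ (φ ζ, 0, c, s) = cap ζ c s := by
  by_cases h0 : Complex.sin (Real.pi * p0) = 0
  · obtain ⟨n, hn⟩ := Complex.sin_eq_zero_iff.1 h0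
    have hp : p0 = n := by
      apply mul_left_cancel₀ pi_ne
      rw [hn]; ring
    subst hp
    set e : ℂ := Complex.cos (Real.pi * n) with he
    have he2 : e ^ 2 = 1 := by
      have := Complex.sin_sq_add_cos_sq (Real.pi * n)
      rw [sin_int] at this
      simpa using this
    have he0 : e ≠ 0 := by
      intro h; rw [h] at he2; simp at he2
    have ha : AnalyticAt ℂ (fun b => e * Cf b) 0 := analyticAt_const.mul analyticAt_Cf
    have hd : HasDerivAt (fun b => e * Cf b) (e * (-(Real.pi : ℂ) ^ 2)) 0 :=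
      hasDerivAt_Cf.const_mul e
    have hne : e * (-(Real.pi : ℂ) ^ 2) ≠ 0 := mul_ne_zero he0 (neg_ne_zero.2 (pow_ne_zero 2 pi_ne))
    obtain ⟨φ, h1, h2, h3, h4⟩ := exists_local_inverse ha hd hne
    have hv : e * Cf 0 = e := by rw [Cf_zero, mul_one]
    rw [hv] at h1 h2 h3 h4
    refine ⟨fr ⟨n, 0, 0, 0, 0⟩ ∘ κa, φ, h1, h4, ?_, ?_⟩
    · intro c s
      rw [h2]
      exact (Can.A _ _ _ _).par
    · filter_upwards [h3] with ζ hζ
      intro c s
      have h5 : Complex.cos (Real.pi * (sq (φ ζ) + n)) = ζ := by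
        rw [mul_add, Complex.cos_add, sin_int, mul_zero, sub_zero, ← he, mul_comm]
        exact hζ
      rw [cap_eq h5, Function.comp_apply, κa, fr_mk]
      congr 1
      apply pt_ext <;> simp
  · have ha : AnalyticAt ℂ (fun p : ℂ => Complex.cos (Real.pi * p)) p0 := by fun_prop
    have hd : HasDerivAt (fun p : ℂ => Complex.cos (Real.pi * p))
        (-Complex.sin (Real.pi * p0) * Real.pi) p0 := by
      have h1 : HasDerivAt (fun p : ℂ => (Real.pi : ℂ) * p) Real.pi p0 := by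
        simpa using (hasDerivAt_id p0).const_mul (Real.pi : ℂ)
      exact h1.ccos
    have hne : -Complex.sin (Real.pi * p0) * Real.pi ≠ 0 := mul_ne_zero (neg_ne_zero.2 h0) pi_ne
    obtain ⟨φ, h1, h2, h3, h4⟩ := exists_local_inverse ha hd hne
    refine ⟨fl, φ, h1, h4, ?_, ?_⟩
    · intro c s
      rw [h2]
      exact par_fl (not_F_of_sin h0 him c s)
    · have hc : ContinuousAt φ (Complex.cos (Real.pi * p0)) := h1.continuousAt
      have e1 : ∀ᶠ ζ in 𝓝 (Complex.cos (Real.pi * p0)), Complex.sin (Real.pi * φ ζ) ≠ 0 := by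
        have h5 : ContinuousAt (fun ζ => Complex.sin (Real.pi * φ ζ))
            (Complex.cos (Real.pi * p0)) := by fun_prop
        exact h5.eventually_ne (by rw [h2]; exact h0)
      have e2 : ∀ᶠ ζ in 𝓝 (Complex.cos (Real.pi * p0)), |(φ ζ).im| < 1 := by
        have h5 : ContinuousAt (fun ζ => |(φ ζ).im|) (Complex.cos (Real.pi * p0)) := by fun_prop
        exact h5.eventually_lt continuousAt_const (by rw [h2]; exact him)
      filter_upwards [e1, e2, h3] with ζ g1 g2 g3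
      intro c s
      rw [cap_eq g3]
      exact mk_of_not_F (not_F_of_sin g1 g2 c s) _ _

/-! ### A local branch of the argument -/

/-- A branch of the argument near `y0`. -/
noncomputable def Ab (y0 y : ℂ) : ℝ := Complex.arg y0 + (Complex.log (y / y0)).im

theorem Ab_self {y0 : ℂ} (h : y0 ≠ 0) : Ab y0 y0 = Complex.arg y0 := by
  simp [Ab, h]

theorem contDiffAt_Ab {y0 : ℂ} (h : y0 ≠ 0) : ContDiffAt ℝ ∞ (Ab y0) y0 := by
  have h1 : ContDiffAt ℂ ∞ (fun y => Complex.log (y / y0)) y0 := by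
    refine ContDiffAt.comp (g := Complex.log) (f := fun y => y / y0) y0 ?_ (by fun_prop)
    refine Complex.contDiffAt_log ?_
    rw [div_self h]
    exact Complex.one_mem_slitPlane
  have h2 : ContDiffAt ℝ ∞ (fun y => Complex.log (y / y0)) y0 := h1.restrict_scalars ℝ
  have h3 : ContDiffAt ℝ ∞ (fun y => (Complex.log (y / y0)).im) y0 :=
    Complex.imCLM.contDiff.contDiffAt.comp y0 h2
  exact contDiffAt_const.add h3

theorem hasFDerivAt_Ab {y0 : ℂ} (h : y0 ≠ 0) : ∃ L : ℂ →L[ℝ] ℝ, HasFDerivAt (Ab y0) L y0 ∧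
    ∀ v, L v = (v / y0).im := by
  have h1 : HasDerivAt (fun y => Complex.log (y / y0)) (1 / y0) y0 := by
    have h2 : HasDerivAt (fun y => y / y0) (1 / y0) y0 := (hasDerivAt_id y0).div_const y0
    have h3 := h2.clog (by
      rw [div_self h]
      exact Complex.one_mem_slitPlane)
    rwa [div_self h, div_one] at h3
  have h2 := (h1.hasFDerivAt.restrictScalars ℝ)
  have h3 := Complex.imCLM.hasFDerivAt.comp y0 h2
  have h4 := h3.const_add (Complex.arg y0)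
  refine ⟨_, h4, ?_⟩
  intro v
  simp [div_eq_mul_inv]

theorem exp_arg {y : ℂ} (h : y ≠ 0) : Complex.exp (Complex.arg y * Complex.I) = y / ‖y‖ := by
  have h1 := Complex.norm_mul_exp_arg_mul_I y
  have h2 : (‖y‖ : ℂ) ≠ 0 := by exact_mod_cast norm_ne_zero_iff.2 h
  rw [eq_div_iff h2, mul_comm]
  exact h1

theorem exp_Ab {y0 y : ℂ} (h0 : y0 ≠ 0) (h : y ≠ 0) :
    Complex.exp (Ab y0 y * Complex.I) = Complex.exp (Complex.arg y * Complex.I) := by
  have h1 : (y / y0) ≠ 0 := div_ne_zero h h0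
  rw [Ab, Complex.log_im]
  push_cast
  rw [add_mul, Complex.exp_add, exp_arg h0, exp_arg h, exp_arg h1, norm_div]
  have h2 : (‖y‖ : ℂ) ≠ 0 := by exact_mod_cast norm_ne_zero_iff.2 h
  have h3 : (‖y0‖ : ℂ) ≠ 0 := by exact_mod_cast norm_ne_zero_iff.2 h0
  push_cast
  field_simp

theorem Ab_eq {y0 y : ℂ} (h0 : y0 ≠ 0) (h : y ≠ 0) :
    ∃ l : ℤ, Ab y0 y = Complex.arg y + 2 * Real.pi * l := by
  obtain ⟨n, hn⟩ := Complex.exp_eq_exp_iff_exists_int.1 (exp_Ab h0 h)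
  refine ⟨n, ?_⟩
  have h1 : (Ab y0 y : ℂ) = Complex.arg y + 2 * Real.pi * n := by
    apply mul_right_cancel₀ Complex.I_ne_zero
    rw [hn]; ring
  exact_mod_cast h1

/-! ### The profile -/

/-- Cut-off. -/
noncomputable def T0 (ρ : ℝ) : ℝ := Real.smoothTransition (16 * ρ - 1)

/-- `T0 ρ / ρ`. -/
noncomputable def hh (ρ : ℝ) : ℝ := T0 ρ / ρ

/-- `√(1 + hh ρ)`. -/
noncomputable def Hf (ρ : ℝ) : ℝ := Real.sqrt (1 + hh ρ)

theorem T0_mono : Monotone T0 := by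
  intro a b h
  exact Real.smoothTransition.monotone (by linarith)

theorem T0_nonneg (ρ : ℝ) : 0 ≤ T0 ρ := Real.smoothTransition.nonneg _
theorem T0_le_one (ρ : ℝ) : T0 ρ ≤ 1 := Real.smoothTransition.le_one _

theorem T0_zero {ρ : ℝ} (h : ρ ≤ 1 / 16) : T0 ρ = 0 :=
  Real.smoothTransition.zero_of_nonpos (by linarith)

theorem T0_one {ρ : ℝ} (h : 1 / 8 ≤ ρ) : T0 ρ = 1 :=
  Real.smoothTransition.one_of_one_le (by linarith)

theorem contDiff_T0 : ContDiff ℝ ∞ T0 := by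
  have : ContDiff ℝ ∞ Real.smoothTransition := Real.smoothTransition.contDiff
  unfold T0
  fun_prop

theorem hh_nonneg (ρ : ℝ) : 0 ≤ hh ρ := by
  rcases le_or_gt ρ 0 with h | h
  · rw [hh, T0_zero (by linarith), zero_div]
  · exact div_nonneg (T0_nonneg ρ) h.le

theorem contDiff_hh : ContDiff ℝ ∞ hh := by
  rw [contDiff_iff_contDiffAt]
  intro ρ
  rcases lt_or_ge ρ (1 / 16) with h | h
  · have : hh =ᶠ[𝓝 ρ] fun _ => 0 := by
      filter_upwards [isOpen_Iio.mem_nhds h] with t ht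
      rw [hh, T0_zero (le_of_lt ht), zero_div]
    exact contDiffAt_const.congr_of_eventuallyEq this
  · exact contDiff_T0.contDiffAt.div contDiffAt_id (by simp; linarith)

theorem one_add_hh_pos (ρ : ℝ) : 0 < 1 + hh ρ := by
  have := hh_nonneg ρ
  linarith

theorem contDiff_Hf : ContDiff ℝ ∞ Hf :=
  (contDiff_const.add contDiff_hh).sqrt fun ρ => (one_add_hh_pos ρ).ne'

theorem Hf_pos (ρ : ℝ) : 0 < Hf ρ := Real.sqrt_pos.2 (one_add_hh_pos ρ)

theorem Hf_sq (ρ : ℝ) : Hf ρ ^ 2 = 1 + hh ρ := Real.sq_sqrt (one_add_hh_pos ρ).le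

theorem Hf_deriv {ρ x : ℝ} (hx : x ^ 2 ≤ ρ) {H' : ℝ} (hH : HasDerivAt Hf H' ρ) :
    0 < Hf ρ + 2 * H' * x ^ 2 := by
  rcases lt_or_ge ρ (1 / 16) with h | h
  · have h1 : Hf =ᶠ[𝓝 ρ] fun _ => 1 := by
      filter_upwards [isOpen_Iio.mem_nhds h] with t ht
      rw [Hf, hh, T0_zero (le_of_lt ht), zero_div, add_zero, Real.sqrt_one]
    have h2 : HasDerivAt Hf 0 ρ := (hasDerivAt_const ρ (1 : ℝ)).congr_of_eventuallyEq h1
    rw [hH.unique h2]
    have := Hf_pos ρ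
    linarith
  · have hρ : 0 < ρ := by linarith
    have hT : HasDerivAt T0 (deriv T0 ρ) ρ :=
      ((contDiff_T0.differentiable (by simp)) ρ).hasDerivAt
    have hT' : 0 ≤ deriv T0 ρ := T0_mono.deriv_nonneg
    have hhd : HasDerivAt hh ((deriv T0 ρ * ρ - T0 ρ * 1) / ρ ^ 2) ρ :=
      hT.div (hasDerivAt_id ρ) hρ.ne'
    have h3 : HasDerivAt (fun ρ => Hf ρ ^ 2) (2 * Hf ρ * H') ρ := by
      simpa using hH.fun_pow 2
    have h4 : HasDerivAt (fun ρ => Hf ρ ^ 2) ((deriv T0 ρ * ρ - T0 ρ * 1) / ρ ^ 2) ρ := by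
      have h5 : (fun ρ => Hf ρ ^ 2) = fun ρ => 1 + hh ρ := by
        funext t; exact Hf_sq t
      rw [h5]
      exact hhd.const_add 1
    have h6 := h3.unique h4
    have h7 : 0 < Hf ρ * (Hf ρ + 2 * H' * x ^ 2) := by
      have h8 : Hf ρ * (Hf ρ + 2 * H' * x ^ 2) = Hf ρ ^ 2 + x ^ 2 * (2 * Hf ρ * H') := by ring
      rw [h8, h6, Hf_sq, hh]
      have h9 : 1 + T0 ρ / ρ + x ^ 2 * ((deriv T0 ρ * ρ - T0 ρ * 1) / ρ ^ 2) =
          1 + T0 ρ * (ρ - x ^ 2) / ρ ^ 2 + x ^ 2 * deriv T0 ρ / ρ := by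
        field_simp
        ring
      rw [h9]
      have g1 : 0 ≤ T0 ρ * (ρ - x ^ 2) / ρ ^ 2 :=
        div_nonneg (mul_nonneg (T0_nonneg ρ) (by linarith)) (by positivity)
      have g2 : 0 ≤ x ^ 2 * deriv T0 ρ / ρ := by positivity
      linarith
    exact (pos_iff_pos_of_mul_pos h7).1 (Hf_pos ρ)

/-- The map from the disc to the plane used for the ends of the spheres. -/
noncomputable def Zs (σ : ℝ) (U : ℂ) : ℂ :=
  ((Hf (U.re ^ 2 + U.im ^ 2) * U.re : ℝ) : ℂ) + ((-σ * U.im : ℝ) : ℂ) * Complex.I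

theorem Zs_re (σ : ℝ) (U : ℂ) : (Zs σ U).re = Hf (U.re ^ 2 + U.im ^ 2) * U.re := by
  simp [Zs]

theorem Zs_im (σ : ℝ) (U : ℂ) : (Zs σ U).im = -σ * U.im := by
  simp [Zs]

theorem contDiff_Zs (σ : ℝ) : ContDiff ℝ ∞ (Zs σ) := by
  have h1 : ContDiff ℝ ∞ (fun U : ℂ => U.re) := Complex.reCLM.contDiff
  have h2 : ContDiff ℝ ∞ (fun U : ℂ => U.im) := Complex.imCLM.contDiff
  have h3 : ContDiff ℝ ∞ (fun x : ℝ => (x : ℂ)) := Complex.ofRealCLM.contDiff
  have h4 := contDiff_Hf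
  unfold Zs
  fun_prop

theorem Zs_fderiv_inj {σ : ℝ} (hσ : σ ≠ 0) {U : ℂ} {M : ℂ →L[ℝ] ℂ} (hM : HasFDerivAt (Zs σ) M U)
    {V : ℂ} (hV : M V = 0) : V = 0 := by
  have hH : HasDerivAt Hf (deriv Hf (U.re ^ 2 + U.im ^ 2)) (U.re ^ 2 + U.im ^ 2) :=
    ((contDiff_Hf.differentiable (by simp)) _).hasDerivAt
  have h1 := Complex.reCLM.hasFDerivAt (x := U)
  have h2 := Complex.imCLM.hasFDerivAt (x := U)
  have h3 : HasFDerivAt (fun U : ℂ => U.re ^ 2 + U.im ^ 2) _ U := (h1.pow 2).add (h2.pow 2)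
  have h4 := HasDerivAt.comp_hasFDerivAt U hH h3
  have h5 := h4.mul h1
  have him : HasFDerivAt (fun U : ℂ => (Zs σ U).im) (Complex.imCLM.comp M) U :=
    Complex.imCLM.hasFDerivAt.comp U hM
  have hre : HasFDerivAt (fun U : ℂ => (Zs σ U).re) (Complex.reCLM.comp M) U :=
    Complex.reCLM.hasFDerivAt.comp U hM
  have him' : HasFDerivAt (fun U : ℂ => (Zs σ U).im) ((-σ) • Complex.imCLM) U := by
    have : (fun U : ℂ => (Zs σ U).im) = fun U => -σ * U.im := by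
      funext U; exact Zs_im σ U
    rw [this]
    exact h2.const_mul (-σ)
  have e1 := congrArg (fun L => L V) (him.unique him')
  simp only [ContinuousLinearMap.comp_apply, hV, map_zero, smul_apply,
    Complex.imCLM_apply, smul_eq_mul] at e1
  have hVim : V.im = 0 := by
    rcases mul_eq_zero.1 e1.symm with h | h
    · exact absurd (neg_eq_zero.1 h) hσ
    · exact h
  have hre' : HasFDerivAt (fun U : ℂ => (Zs σ U).re) _ U :=
    h5.congr_of_eventuallyEq (Eventually.of_forall fun U => Zs_re σ U)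
  have e2 := congrArg (fun L => L V) (hre.unique hre')
  simp [hV, hVim] at e2
  have hpos := Hf_deriv (ρ := U.re ^ 2 + U.im ^ 2) (x := U.re) (by nlinarith [sq_nonneg U.im]) hH
  have hVre : V.re = 0 := by
    have e3 : V.re * (Hf (U.re ^ 2 + U.im ^ 2) +
        2 * deriv Hf (U.re ^ 2 + U.im ^ 2) * U.re ^ 2) = 0 := by
      linarith [e2]
    rcases mul_eq_zero.1 e3 with h | h
    · exact h
    · exact absurd h hpos.ne'
  exact Complex.ext hVre hVim

end Pool.Agent.Lib.P89d91e
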