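import Pool.Agent.Lib.P89d91e.Cap

open Set Filter Topology
open scoped ContDiff

namespace Pool.Agent.Lib.P89d91e

theorem mul_hh_mono {t t' Y : ℝ} (ht : 0 ≤ t) (htt : t ≤ t') (hY : 0 ≤ Y) :
    t * hh (t + Y) ≤ t' * hh (t' + Y) := by
  rcases le_or_gt (t + Y) 0 with h | h
  · have : t = 0 := by linarith
    subst this
    rw [zero_mul]
    exact mul_nonneg htt (hh_nonneg _)
  · have h' : 0 < t' + Y := by linarith
    have e1 : t * hh (t + Y) = t / (t + Y) * T0 (t + Y) := by rw [hh]; ring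
    have e2 : t' * hh (t' + Y) = t' / (t' + Y) * T0 (t' + Y) := by rw [hh]; ring
    rw [e1, e2]
    refine mul_le_mul ?_ (T0_mono (by linarith)) (T0_nonneg _) (div_nonneg (by linarith) h'.le)
    rw [div_le_div_iff₀ h h']
    nlinarith

theorem Zs_inj {σ : ℝ} (hσ : σ ≠ 0) : Function.Injective (Zs σ) := by
  intro U V h
  have hre := congrArg Complex.re h
  have him := congrArg Complex.im h
  rw [Zs_re, Zs_re] at hre
  rw [Zs_im, Zs_im] at him
  have e1 : U.im = V.im := mul_left_cancel₀ (neg_ne_zero.2 hσ) him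
  have hsq : U.re ^ 2 * (1 + hh (U.re ^ 2 + U.im ^ 2)) = V.re ^ 2 * (1 + hh (V.re ^ 2 + U.im ^ 2)) := by
    have := congrArg (fun x => x ^ 2) hre
    simp only [mul_pow, Hf_sq, ← e1] at this
    linarith
  have e2 : U.re ^ 2 = V.re ^ 2 := by
    rcases lt_trichotomy (U.re ^ 2) (V.re ^ 2) with h1 | h1 | h1
    · have := mul_hh_mono (sq_nonneg U.re) h1.le (sq_nonneg U.im)
      linarith
    · exact h1
    · have := mul_hh_mono (sq_nonneg V.re) h1.le (sq_nonneg U.im)
      linarith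
  have e3 : U.re = V.re := by
    rw [e2, ← e1] at hre
    exact mul_left_cancel₀ (Hf_pos _).ne' hre
  exact Complex.ext e3 e1

theorem cos_re (p : ℂ) : (Complex.cos (Real.pi * p)).re =
    Real.cos (Real.pi * p.re) * Real.cosh (Real.pi * p.im) := by
  rw [Complex.cos_eq]
  simp [← Complex.ofReal_mul, Complex.cos_ofReal_re, Complex.cosh_ofReal_re]

theorem cos_im (p : ℂ) : (Complex.cos (Real.pi * p)).im =
    -(Real.sin (Real.pi * p.re) * Real.sinh (Real.pi * p.im)) := by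
  rw [Complex.cos_eq]
  simp [← Complex.ofReal_mul, Complex.sin_ofReal_re, Complex.sinh_ofReal_re]

theorem hh_le {ρ : ℝ} (h : 0 < ρ) : hh ρ ≤ 1 / ρ := by
  rw [hh]
  exact div_le_div_of_nonneg_right (T0_le_one ρ) h.le

theorem sinh_bound {σ : ℝ} (hσ : σ = 1 ∨ σ = -1) {p U : ℂ}
    (h : Complex.cos (Real.pi * p) = Zs σ U) :
    Real.sinh (Real.pi * p.im) ^ 2 ≤ U.re ^ 2 + U.im ^ 2 := by
  have hre := congrArg Complex.re h
  have him := congrArg Complex.im h
  rw [cos_re, Zs_re] at hre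
  rw [cos_im, Zs_im] at him
  set S := Real.sinh (Real.pi * p.im) ^ 2 with hS
  set C := Real.cos (Real.pi * p.re) ^ 2 with hC
  set ρ := U.re ^ 2 + U.im ^ 2 with hρ
  have hC0 : 0 ≤ C := sq_nonneg _
  have hC1 : C ≤ 1 := by
    have := Real.sin_sq_add_cos_sq (Real.pi * p.re)
    nlinarith [sq_nonneg (Real.sin (Real.pi * p.re))]
  have hS0 : 0 ≤ S := sq_nonneg _
  have e1 : C * (1 + S) = (1 + hh ρ) * U.re ^ 2 := by
    have := congrArg (fun x => x ^ 2) hre
    simp only [mul_pow, Hf_sq, Real.cosh_sq] at this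
    rw [← this]; ring
  have e2 : (1 - C) * S = U.im ^ 2 := by
    have h1 := congrArg (fun x => x ^ 2) him
    have h2 := Real.sin_sq_add_cos_sq (Real.pi * p.re)
    have h3 : σ ^ 2 = 1 := by rcases hσ with rfl | rfl <;> norm_num
    have h4 : (1 - C) = Real.sin (Real.pi * p.re) ^ 2 := by linarith
    rw [h4, hS]
    simp only [neg_sq, mul_pow, neg_mul, h3] at h1
    linarith
  have hρ0 : 0 ≤ ρ := by positivity
  rcases hρ0.eq_or_lt with h0 | h0
  · have g1 : U.re ^ 2 = 0 := by nlinarith [sq_nonneg U.re, sq_nonneg U.im]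
    have g2 : U.im ^ 2 = 0 := by nlinarith [sq_nonneg U.re, sq_nonneg U.im]
    rw [g1, mul_zero] at e1
    rw [g2] at e2
    have g3 : C = 0 := by
      rcases mul_eq_zero.1 e1 with h | h
      · exact h
      · linarith
    rw [g3] at e2
    linarith
  · have e3 : C * (1 + S) * ρ ≤ (1 + ρ) * U.re ^ 2 := by
      rw [e1]
      have h1 := hh_le h0
      have h2 : hh ρ * ρ ≤ 1 := by
        calc hh ρ * ρ ≤ 1 / ρ * ρ := mul_le_mul_of_nonneg_right h1 h0.le
          _ = 1 := by field_simp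
      nlinarith [sq_nonneg U.re]
    have e4 : (S - ρ) * (ρ + 1 - C) ≤ 0 := by
      have : U.re ^ 2 = ρ - (1 - C) * S := by rw [e2]; linarith
      rw [this] at e3
      nlinarith
    by_contra hlt
    push Not at hlt
    have : 0 < (S - ρ) * (ρ + 1 - C) := mul_pos (by linarith) (by linarith)
    linarith

theorem im_small {y : ℝ} (h : Real.sinh (Real.pi * y) ^ 2 ≤ 1 / 4) : |y| < 1 / 2 := by
  by_contra hy
  push Not at hy
  have hpi := Real.pi_gt_three
  have h1 : Real.pi * |y| ≤ Real.sinh (Real.pi * |y|) :=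
    Real.self_le_sinh_iff.2 (by positivity)
  have h2 : Real.sinh (Real.pi * |y|) ^ 2 = Real.sinh (Real.pi * y) ^ 2 := by
    rcases abs_cases y with ⟨h, -⟩ | ⟨h, -⟩
    · rw [h]
    · rw [h, mul_neg, Real.sinh_neg, neg_sq]
  have h3 : 1 ≤ Real.pi * |y| := by nlinarith
  nlinarith

/-! ### The ends of the spheres -/

/-- The unit complex number with the same argument. -/
noncomputable def ex (y : ℂ) : ℂ := Complex.exp (Complex.arg y * Complex.I)

theorem norm_ex (y : ℂ) : ‖ex y‖ = 1 := by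
  rw [ex, Complex.norm_exp_ofReal_mul_I]

theorem ex_ne (y : ℂ) : ex y ≠ 0 := Complex.exp_ne_zero _

theorem norm_mul_ex (y : ℂ) : (‖y‖ : ℂ) * ex y = y := Complex.norm_mul_exp_arg_mul_I y

/-- The end of a sphere. -/
noncomputable def capS (σ c : ℝ) (x y : ℂ) : X :=
  cap (Zs σ (x * ex y)) c (-σ * Complex.arg y / Real.pi)

theorem sq_re_im (U : ℂ) : U.re ^ 2 + U.im ^ 2 = ‖U‖ ^ 2 := by
  rw [← Complex.normSq_eq_norm_sq, Complex.normSq_apply]; ring

theorem norm_mul_ex' (x y : ℂ) : ‖x * ex y‖ = ‖x‖ := by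
  rw [norm_mul, norm_ex, mul_one]

theorem cap_im {σ : ℝ} (hσ : σ = 1 ∨ σ = -1) {p x y : ℂ}
    (h : Complex.cos (Real.pi * p) = Zs σ (x * ex y)) :
    Real.sinh (Real.pi * p.im) ^ 2 ≤ ‖x‖ ^ 2 := by
  have := sinh_bound hσ h
  rwa [sq_re_im, norm_mul_ex'] at this

theorem capS_inj {σ c : ℝ} (hσ : σ = 1 ∨ σ = -1) {x y x' y' : ℂ}
    (hx : ‖x‖ ^ 2 ≤ 1 / 4) (hx' : ‖x'‖ ^ 2 ≤ 1 / 4) (hu : ‖x‖ ^ 2 + ‖y‖ ^ 2 = 1)
    (hu' : ‖x'‖ ^ 2 + ‖y'‖ ^ 2 = 1) (h : capS σ c x y = capS σ c x' y') : x = x' ∧ y = y' := by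
  have hσ0 : σ ≠ 0 := by rcases hσ with rfl | rfl <;> norm_num
  obtain ⟨hr, -⟩ := mk_eq.1 h
  have i1 := im_small ((cap_im hσ (cos_pc (Zs σ (x * ex y)))).trans hx)
  have i2 := im_small ((cap_im hσ (cos_pc (Zs σ (x' * ex y')))).trans hx')
  have c1 := cos_pc (Zs σ (x * ex y))
  have c2 := cos_pc (Zs σ (x' * ex y'))
  set p := pc (Zs σ (x * ex y))
  set p' := pc (Zs σ (x' * ex y'))
  obtain ⟨ε, n, j, a, b, k, l, hε, h1, h2, h3, h4, h5, h6⟩ := hr
  simp only at h1 h2 h3 h4 h5 h6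
  rw [abs_lt] at i1 i2
  have hj : j = 0 := by
    apply int_zero_of_abs_lt
    rw [abs_lt]
    rcases hε with rfl | rfl
    · push_cast at h2
      constructor <;> linarith
    · push_cast at h2
      constructor <;> linarith
  subst hj
  have hp : p' = ε * p + 2 * n := by
    apply Complex.ext <;> simp [h1, h2]
  have hcos : Complex.cos (Real.pi * p) = Complex.cos (Real.pi * p') := by
    rw [Complex.cos_eq_cos_iff]
    refine ⟨n, ?_⟩
    rcases hε with rfl | rfl
    · left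
      rw [hp]; push_cast; ring
    · right
      rw [hp]; push_cast; ring
  have hU : x * ex y = x' * ex y' := by
    apply Zs_inj hσ0
    rw [← c1, ← c2, hcos]
  have harg : Complex.arg y' = Complex.arg y + 2 * Real.pi * (-(l : ℝ) / σ) := by
    push_cast at h6
    have hpi := Real.pi_ne_zero
    field_simp at h6 ⊢
    linarith
  have hex : ex y = ex y' := by
    rw [ex, ex, harg]
    rcases hσ with rfl | rfl
    · rw [Complex.exp_eq_exp_iff_exists_int]
      refine ⟨l, ?_⟩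
      push_cast; ring
    · rw [Complex.exp_eq_exp_iff_exists_int]
      refine ⟨-l, ?_⟩
      push_cast; ring
  have hxx : x = x' := by
    rw [hex] at hU
    exact mul_right_cancel₀ (ex_ne y') hU
  refine ⟨hxx, ?_⟩
  subst hxx
  have hn : ‖y‖ = ‖y'‖ := by
    have : ‖y‖ ^ 2 = ‖y'‖ ^ 2 := by linarith
    exact (pow_left_inj₀ (norm_nonneg _) (norm_nonneg _) two_ne_zero).1 this
  rw [← norm_mul_ex y, ← norm_mul_ex y', hn, hex]

theorem hh_eq {ρ : ℝ} (h : 1 / 8 ≤ ρ) : hh ρ = 1 / ρ := by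
  rw [hh, T0_one h]

theorem Zs_polar {σ : ℝ} (hσ : σ = 1 ∨ σ = -1) {r ψ : ℝ} (hr0 : 0 < r) (hr : 1 / 8 ≤ r ^ 2) :
    Zs σ (r * Complex.exp (ψ * Complex.I)) =
      Complex.cos (ψ + σ * Real.arsinh r * Complex.I) := by
  have hre : (r * Complex.exp (ψ * Complex.I)).re = r * Real.cos ψ := by
    rw [Complex.exp_mul_I]
    simp [Complex.cos_ofReal_re, Complex.sin_ofReal_re]
  have him : (r * Complex.exp (ψ * Complex.I)).im = r * Real.sin ψ := by
    rw [Complex.exp_mul_I]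
    simp [Complex.cos_ofReal_re, Complex.sin_ofReal_re]
  have hn : (r * Real.cos ψ) ^ 2 + (r * Real.sin ψ) ^ 2 = r ^ 2 := by
    have := Real.sin_sq_add_cos_sq ψ
    nlinarith
  have hH : Hf (r ^ 2) * r = Real.sqrt (1 + r ^ 2) := by
    rw [Hf, hh_eq hr]
    have h1 : (1 + r ^ 2) = (1 + 1 / r ^ 2) * r ^ 2 := by
      field_simp
      ring
    rw [h1, Real.sqrt_mul (by positivity), Real.sqrt_sq hr0.le]
  have hcosh : Real.cosh (σ * Real.arsinh r) = Real.sqrt (1 + r ^ 2) := by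
    rcases hσ with rfl | rfl
    · rw [one_mul, Real.cosh_arsinh]
    · rw [neg_one_mul, Real.cosh_neg, Real.cosh_arsinh]
  have hsinh : Real.sinh (σ * Real.arsinh r) = σ * r := by
    rcases hσ with rfl | rfl
    · rw [one_mul, Real.sinh_arsinh, one_mul]
    · rw [neg_one_mul, Real.sinh_neg, Real.sinh_arsinh, neg_one_mul]
  have harg : (ψ + σ * Real.arsinh r * Complex.I : ℂ) =
      ((ψ : ℝ) : ℂ) + ((σ * Real.arsinh r : ℝ) : ℂ) * Complex.I := by push_cast; ring
  rw [harg, Complex.cos_add_mul_I, ← Complex.ofReal_cos, ← Complex.ofReal_cosh,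
    ← Complex.ofReal_sin, ← Complex.ofReal_sinh, hcosh, hsinh]
  apply Complex.ext
  · rw [Zs_re, hre, him, hn]
    simp [Complex.cos_ofReal_re]
    rw [← hH]; ring
  · rw [Zs_im, him]
    simp [Complex.sin_ofReal_re]
    ring

theorem capS_polar {σ c : ℝ} (hσ : σ = 1 ∨ σ = -1) {x y : ℂ} (hx : 1 / 8 ≤ ‖x‖ ^ 2) :
    capS σ c x y = mk (((Complex.arg x + Complex.arg y) / Real.pi : ℝ) +
      (σ * Real.arsinh ‖x‖ / Real.pi : ℝ) * Complex.I, 0, c, -σ * Complex.arg y / Real.pi)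
      (some 0) := by
  have hx0 : 0 < ‖x‖ := by
    rcases (norm_nonneg x).eq_or_lt with h | h
    · rw [← h] at hx; norm_num at hx
    · exact h
  rw [capS]
  apply cap_eq
  have h1 : x * ex y = ‖x‖ * Complex.exp ((Complex.arg x + Complex.arg y : ℝ) * Complex.I) := by
    conv_lhs => rw [← norm_mul_ex x]
    rw [ex, ex, mul_assoc, ← Complex.exp_add]
    push_cast
    ring_nf
  rw [h1, Zs_polar hσ hx0 hx]
  congr 1
  push_cast
  have := pi_ne
  field_simp

end Pool.Agent.Lib.P89d91e
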