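import Mathlib

open Set Filter Topology
open scoped ContDiff

namespace Pool.Agent.Lib.P89d91e

variable {E : Type*} [NormedAddCommGroup E] [NormedSpace ℝ E] {X : Type*}

/-- Local symplectic compatibility of two local parametrisations `κ` (near `u`) and
`κ'` (near `v`): near `u` one has `κ = κ' ∘ g` with `g` smooth, preserving the bilinear form `B`,
and `g u = v`. -/
def Compat (B : E →L[ℝ] E →L[ℝ] ℝ) (κ : E → X) (u : E) (κ' : E → X) (v : E) : Prop :=
  ∃ (g : E → E) (W : Set E), IsOpen W ∧ u ∈ W ∧ g u = v ∧ ContDiffOn ℝ ∞ g W ∧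
    (∀ x ∈ W, κ' (g x) = κ x) ∧
    ∀ x ∈ W, ∀ a b, B (fderiv ℝ g x a) (fderiv ℝ g x b) = B a b

variable {B : E →L[ℝ] E →L[ℝ] ℝ} {κ κ' κ'' : E → X} {u v w : E}

theorem Compat.apply_eq (h : Compat B κ u κ' v) : κ u = κ' v := by
  obtain ⟨g, W, -, hu, hg, -, h2, -⟩ := h
  rw [← h2 u hu, hg]

theorem Compat.refl (B : E →L[ℝ] E →L[ℝ] ℝ) (κ : E → X) (u : E) : Compat B κ u κ u :=
  ⟨id, univ, isOpen_univ, mem_univ _, rfl, contDiff_id.contDiffOn, fun _ _ => rfl,
    fun x _ a b => by simp⟩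

theorem Compat.trans (h1 : Compat B κ u κ' v) (h2 : Compat B κ' v κ'' w) :
    Compat B κ u κ'' w := by
  obtain ⟨g, W, hW, hu, hg, hgs, hgc, hgB⟩ := h1
  obtain ⟨g', W', hW', hu', hg', hgs', hgc', hgB'⟩ := h2
  refine ⟨g' ∘ g, W ∩ g ⁻¹' W', hgs.continuousOn.isOpen_inter_preimage hW hW',
    ⟨hu, by simpa [hg] using hu'⟩, by simp [hg, hg'], ?_, ?_, ?_⟩
  · exact hgs'.comp (hgs.mono inter_subset_left) (fun x hx => hx.2)
  · intro x hx
    rw [Function.comp_apply, hgc' _ hx.2, hgc _ hx.1]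
  · intro x hx a b
    have d1 : DifferentiableAt ℝ g x :=
      ((hgs x hx.1).contDiffAt (hW.mem_nhds hx.1)).differentiableAt (by simp)
    have d2 : DifferentiableAt ℝ g' (g x) :=
      ((hgs' _ hx.2).contDiffAt (hW'.mem_nhds hx.2)).differentiableAt (by simp)
    rw [fderiv_comp x d2 d1]
    simp only [ContinuousLinearMap.comp_apply]
    rw [hgB' _ hx.2, hgB _ hx.1]

theorem Compat.symm [FiniteDimensional ℝ E] (hB : ∀ v, (∀ w, B v w = 0) → v = 0)
    (h : Compat B κ u κ' v) : Compat B κ' v κ u := by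
  have : CompleteSpace E := FiniteDimensional.complete ℝ E
  obtain ⟨g, W, hW, hu, hg, hgs, hgc, hgB⟩ := h
  have hinj : ∀ x ∈ W, Function.Injective (fderiv ℝ g x) := by
    intro x hx
    rw [injective_iff_map_eq_zero]
    intro a ha
    apply hB a
    intro b
    rw [← hgB x hx a b, ha]; simp
  have hequiv : ∀ x ∈ W, ∃ L : E ≃L[ℝ] E, (L : E →L[ℝ] E) = fderiv ℝ g x := by
    intro x hx
    let L0 := (LinearEquiv.ofInjectiveEndo (fderiv ℝ g x : E →ₗ[ℝ] E) (hinj x hx))
    refine ⟨L0.toContinuousLinearEquiv, ?_⟩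
    ext a
    rfl
  have hcd : ∀ x ∈ W, ContDiffAt ℝ ∞ g x := fun x hx => (hgs x hx).contDiffAt (hW.mem_nhds hx)
  obtain ⟨L, hL⟩ := hequiv u hu
  have hLd : HasFDerivAt g (L : E →L[ℝ] E) u := by
    rw [hL]; exact ((hcd u hu).differentiableAt (by simp)).hasFDerivAt
  let e : OpenPartialHomeomorph E E :=
    (hcd u hu).toOpenPartialHomeomorph g hLd (by simp)
  have he : ∀ x, e x = g x := fun x => rfl
  have hue : u ∈ e.source :=
    (hcd u hu).mem_toOpenPartialHomeomorph_source hLd (by simp)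
  have hve : e.symm v = u := by
    rw [← hg, ← he, e.left_inv hue]
  refine ⟨e.symm, e.target ∩ e.symm ⁻¹' W, ?_, ?_, hve, ?_, ?_, ?_⟩
  · exact e.isOpen_inter_preimage_symm hW
  · refine ⟨?_, ?_⟩
    · rw [← hg, ← he]; exact e.map_source hue
    · simpa [hve] using hu
  · intro y hy
    obtain ⟨L', hL'⟩ := hequiv (e.symm y) hy.2
    have hLd' : HasFDerivAt e (L' : E →L[ℝ] E) (e.symm y) := by
      rw [hL']; exact ((hcd _ hy.2).differentiableAt (by simp)).hasFDerivAt
    exact (e.contDiffAt_symm hy.1 hLd' (hcd _ hy.2)).contDiffWithinAt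
  · intro y hy
    have := hgc (e.symm y) hy.2
    rw [← he, e.right_inv hy.1] at this
    exact this.symm
  · intro y hy a b
    obtain ⟨L', hL'⟩ := hequiv (e.symm y) hy.2
    have hLd' : HasFDerivAt e (L' : E →L[ℝ] E) (e.symm y) := by
      rw [hL']; exact ((hcd _ hy.2).differentiableAt (by simp)).hasFDerivAt
    have h3 : HasFDerivAt e.symm (L'.symm : E →L[ℝ] E) y := e.hasFDerivAt_symm hy.1 hLd'
    rw [h3.fderiv]
    have := hgB (e.symm y) hy.2 (L'.symm a) (L'.symm b)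
    rw [← hL'] at this
    simp only [ContinuousLinearEquiv.coe_coe, ContinuousLinearEquiv.apply_symm_apply] at this ⊢
    exact this.symm

end Pool.Agent.Lib.P89d91e
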