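import Pool.Agent.Lib.P89d91e.Space
import Pool.Agent.Lib.P89d91e.Compat

open Set Filter Topology
open scoped ContDiff

namespace Pool.Agent.Lib.P89d91e

/-! ### Affine symplectic maps -/

/-- Linear part of the affine maps used below. -/
noncomputable def affL (ε τ : ℝ) : Pt →ₗ[ℝ] Pt where
  toFun P := (ε * P.1, ε * P.2.1 - τ * P.2.2.1, P.2.2.1, P.2.2.2 - ε * τ * P.1.re)
  map_add' := by
    intro P Q
    refine Prod.ext ?_ (Prod.ext ?_ (Prod.ext ?_ ?_)) <;> simp <;> ring
  map_smul' := by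
    intro r P
    refine Prod.ext ?_ (Prod.ext ?_ (Prod.ext ?_ ?_)) <;> simp <;> ring

theorem affL_apply (ε τ : ℝ) (P : Pt) : affL ε τ P =
  (ε * P.1, ε * P.2.1 - τ * P.2.2.1, P.2.2.1, P.2.2.2 - ε * τ * P.1.re) := rfl

/-- Affine maps. -/
noncomputable def aff (ε τ : ℝ) (v P : Pt) : Pt := affL ε τ P + v

theorem aff_symp {ε τ : ℝ} (hε : ε = 1 ∨ ε = -1) (v w : Pt) :
    B (affL ε τ v) (affL ε τ w) = B v w := by
  rw [B_apply, B_apply, affL_apply, affL_apply]
  rcases hε with rfl | rfl <;> simp <;> ring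

theorem compat_aff {ε τ : ℝ} (hε : ε = 1 ∨ ε = -1) (v : Pt) {κ κ' : Pt → X} {W : Set Pt}
    (hW : IsOpen W) {u : Pt} (hu : u ∈ W) (h : ∀ x ∈ W, κ' (aff ε τ v x) = κ x) :
    Compat B κ u κ' (aff ε τ v u) := by
  have hd : ∀ x, HasFDerivAt (aff ε τ v) (LinearMap.toContinuousLinearMap (affL ε τ)) x := by
    intro x
    exact (LinearMap.toContinuousLinearMap (affL ε τ)).hasFDerivAt.add_const v
  refine ⟨aff ε τ v, W, hW, hu, rfl, ?_, h, ?_⟩
  · have : ContDiff ℝ ∞ (aff ε τ v) :=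
      ((LinearMap.toContinuousLinearMap (affL ε τ)).contDiff.add contDiff_const)
    exact this.contDiffOn
  · intro x hx a b
    rw [(hd x).fderiv]
    exact aff_symp hε a b

theorem act_eq_aff (g : Frame) (P : Pt) : g.act P =
    aff 1 g.j (g.n + g.j * Complex.I, (g.x - g.y * β : ℝ) + g.y * Complex.I, 0, g.t) P := by
  rw [aff, affL_apply]
  refine Prod.ext ?_ (Prod.ext ?_ (Prod.ext ?_ ?_))
  · simp [Frame.act]
  · simp [Frame.act]; ring
  · simp [Frame.act]
  · simp [Frame.act]; ring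

theorem exists_aff_of_rel {P Q : Pt} (h : rel P Q) : ∃ (ε τ : ℝ) (v : Pt), (ε = 1 ∨ ε = -1) ∧
    aff ε τ v P = Q ∧ ∀ R, rel R (aff ε τ v R) := by
  obtain ⟨ε, n, j, x, y, k, l, hε, h1, h2, h3, h4, h5, h6⟩ := h
  have hε' : (ε : ℝ) = 1 ∨ (ε : ℝ) = -1 := by
    rcases hε with rfl | rfl <;> simp
  refine ⟨ε, 2 * j, (2 * n + 2 * j * Complex.I, (2 * (x - y * β) : ℝ) + 2 * y * Complex.I, 2 * k,
    2 * l), hε', ?_, ?_⟩
  · apply pt_ext
    · simp [aff, affL_apply, h1]
    · simp [aff, affL_apply, h2]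
    · simp [aff, affL_apply, h3]; ring
    · simp [aff, affL_apply, h4]
    · simp [aff, affL_apply, h5]
    · simp [aff, affL_apply, h6]; ring
  · intro R
    refine ⟨ε, n, j, x, y, k, l, hε, ?_, ?_, ?_, ?_, ?_, ?_⟩
    · simp [aff, affL_apply]
    · simp [aff, affL_apply]
    · simp [aff, affL_apply]; ring
    · simp [aff, affL_apply]
    · simp [aff, affL_apply]
    · simp [aff, affL_apply]; ring

/-! ### Square roots and the two kinds of exceptional parametrisations -/

/-- A square root of `2 b`. -/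
noncomputable def sq (b : ℂ) : ℂ := (2 * b) ^ (1 / 2 : ℂ)

theorem sq_sq (b : ℂ) : sq b ^ 2 = 2 * b := by
  rw [sq, ← Complex.cpow_nat_mul]; simp

theorem norm_sq_sq (b : ℂ) : ‖sq b‖ ^ 2 = 2 * ‖b‖ := by
  rw [← norm_pow, sq_sq]; simp

theorem sq_eq_zero {b : ℂ} : sq b = 0 ↔ b = 0 := by
  constructor
  · intro h
    have := sq_sq b
    rw [h] at this
    simpa using this.symm
  · rintro rfl
    have := sq_sq 0
    simpa using this

/-- The sign change is in the group. -/
theorem rel_neg (p q : ℂ) (c s : ℝ) : rel (p, q, c, s) (-p, -q, c, s) :=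
  ⟨-1, 0, 0, 0, 0, 0, 0, by simp⟩

theorem mk_neg (p q : ℂ) (c s : ℝ) (d : Option ℂ) : mk (-p, -q, c, s) d = mk (p, q, c, s) d :=
  mk_eq.2 ⟨rel_symm (rel_neg p q c s), fun _ => rfl⟩

/-- The first exceptional parametrisation. -/
noncomputable def κa (u : Pt) : X := mk (sq u.1, u.2.1 * sq u.1, u.2.2.1, u.2.2.2) (some u.2.1)

/-- The second exceptional parametrisation. -/
noncomputable def κb (u : Pt) : X :=
  mk (u.1 * sq u.2.1, sq u.2.1, u.2.2.1, u.2.2.2) (if u.1 = 0 then none else some (u.1)⁻¹)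

theorem κa_eq {b a z : ℂ} {c s : ℝ} (h : z ^ 2 = 2 * b) :
    κa (b, a, c, s) = mk (z, a * z, c, s) (some a) := by
  have : (sq b - z) * (sq b + z) = 0 := by
    have := sq_sq b
    linear_combination this - h
  rcases mul_eq_zero.1 this with h1 | h1
  · have h2 : sq b = z := by linear_combination h1
    simp [κa, h2]
  · have h2 : sq b = -z := by linear_combination h1
    simp only [κa, h2]
    rw [mul_neg, mk_neg]

theorem κb_eq {a b z : ℂ} {c s : ℝ} (h : z ^ 2 = 2 * b) :
    κb (a, b, c, s) = mk (a * z, z, c, s) (if a = 0 then none else some a⁻¹) := by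
  have : (sq b - z) * (sq b + z) = 0 := by
    have := sq_sq b
    linear_combination this - h
  rcases mul_eq_zero.1 this with h1 | h1
  · have h2 : sq b = z := by linear_combination h1
    simp [κb, h2]
  · have h2 : sq b = -z := by linear_combination h1
    simp only [κb, h2]
    rw [mul_neg, mk_neg]

theorem F_origin (c s : ℝ) : F (0, 0, c, s) := by
  rw [F_iff]
  exact ⟨0, 0, 0, 0, by simp⟩

end Pool.Agent.Lib.P89d91e
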