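import Pool.Agent.Lib.P89d91e.Charts

open Set Filter Topology
open scoped ContDiff

namespace Pool.Agent.Lib.P89d91e

theorem compat_of {g : Pt → Pt} {W : Set Pt} (hW : IsOpen W) (hg : ContDiffOn ℝ ∞ g W)
    {κ κ' : Pt → X} {u v : Pt} (hu : u ∈ W) (hv : g u = v) (hc : ∀ x ∈ W, κ' (g x) = κ x)
    (hL : ∀ x ∈ W, ∃ L : Pt →L[ℝ] Pt, HasFDerivAt g L x ∧ ∀ a b, B (L a) (L b) = B a b) :
    Compat B κ u κ' v := by
  refine ⟨g, W, hW, hu, hv, hg, hc, ?_⟩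
  intro x hx a b
  obtain ⟨L, h1, h2⟩ := hL x hx
  rw [h1.fderiv]
  exact h2 a b

theorem hasFDerivAt_p (P : Pt) : HasFDerivAt (fun P : Pt => P.1)
    (ContinuousLinearMap.fst ℝ ℂ (ℂ × ℝ × ℝ)) P :=
  (ContinuousLinearMap.fst ℝ ℂ (ℂ × ℝ × ℝ)).hasFDerivAt

theorem hasFDerivAt_r (P : Pt) : HasFDerivAt (fun P : Pt => P.2)
    (ContinuousLinearMap.snd ℝ ℂ (ℂ × ℝ × ℝ)) P :=
  (ContinuousLinearMap.snd ℝ ℂ (ℂ × ℝ × ℝ)).hasFDerivAt

theorem hasFDerivAt_q (P : Pt) : HasFDerivAt (fun P : Pt => P.2.1)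
    ((ContinuousLinearMap.fst ℝ ℂ (ℝ × ℝ)).comp (ContinuousLinearMap.snd ℝ ℂ (ℂ × ℝ × ℝ))) P :=
  ((ContinuousLinearMap.fst ℝ ℂ (ℝ × ℝ)).comp
    (ContinuousLinearMap.snd ℝ ℂ (ℂ × ℝ × ℝ))).hasFDerivAt

theorem hasFDerivAt_cs (P : Pt) : HasFDerivAt (fun P : Pt => P.2.2)
    ((ContinuousLinearMap.snd ℝ ℂ (ℝ × ℝ)).comp (ContinuousLinearMap.snd ℝ ℂ (ℂ × ℝ × ℝ))) P :=
  ((ContinuousLinearMap.snd ℝ ℂ (ℝ × ℝ)).comp
    (ContinuousLinearMap.snd ℝ ℂ (ℂ × ℝ × ℝ))).hasFDerivAt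

theorem hasFDerivAt_cinv {f : Pt → ℂ} {f' : Pt →L[ℝ] ℂ} {P : Pt} (hf : HasFDerivAt f f' P)
    (hP : f P ≠ 0) : ∃ L : Pt →L[ℝ] ℂ, HasFDerivAt (fun P : Pt => (f P)⁻¹) L P ∧
    ∀ v, L v = -(f' v) / (f P) ^ 2 := by
  have h1 : HasFDerivAt (fun z : ℂ => z⁻¹)
      ((ContinuousLinearMap.toSpanSingleton ℂ (-(f P ^ 2)⁻¹)).restrictScalars ℝ) (f P) :=
    (hasDerivAt_inv hP).hasFDerivAt.restrictScalars ℝ
  refine ⟨_, HasFDerivAt.comp P h1 hf, ?_⟩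
  intro v
  simp
  ring

theorem hasFDerivAt_Ga {P : Pt} (hP : P.1 ≠ 0) : ∃ L : Pt →L[ℝ] Pt,
    HasFDerivAt (fun P : Pt => ((P.1 ^ 2 / 2, P.2.1 / P.1, P.2.2) : Pt)) L P ∧
    ∀ v, L v = (P.1 * v.1, v.2.1 / P.1 - P.2.1 * v.1 / P.1 ^ 2, v.2.2) := by
  obtain ⟨L1, h1, h1'⟩ := hasFDerivAt_cinv (hasFDerivAt_p P) hP
  have h2 := ((hasFDerivAt_p P).mul (hasFDerivAt_p P)).mul_const (1 / 2 : ℂ)
  have h3 := (hasFDerivAt_q P).mul h1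
  have h4 := h2.prodMk (h3.prodMk (hasFDerivAt_cs P))
  refine ⟨_, h4.congr_of_eventuallyEq ?_, ?_⟩
  · refine Filter.Eventually.of_forall ?_
    intro Q
    refine Prod.ext ?_ (Prod.ext ?_ rfl)
    · simp; ring
    · simp; ring
  · intro v
    refine Prod.ext ?_ (Prod.ext ?_ ?_)
    · simp; ring
    · simp [h1']; field_simp; ring
    · simp

theorem hasFDerivAt_Gb {P : Pt} (hP : P.2.1 ≠ 0) : ∃ L : Pt →L[ℝ] Pt,
    HasFDerivAt (fun P : Pt => ((P.1 / P.2.1, P.2.1 ^ 2 / 2, P.2.2) : Pt)) L P ∧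
    ∀ v, L v = (v.1 / P.2.1 - P.1 * v.2.1 / P.2.1 ^ 2, P.2.1 * v.2.1, v.2.2) := by
  obtain ⟨L1, h1, h1'⟩ := hasFDerivAt_cinv (hasFDerivAt_q P) hP
  have h2 := ((hasFDerivAt_q P).mul (hasFDerivAt_q P)).mul_const (1 / 2 : ℂ)
  have h3 := (hasFDerivAt_p P).mul h1
  have h4 := h3.prodMk (h2.prodMk (hasFDerivAt_cs P))
  refine ⟨_, h4.congr_of_eventuallyEq ?_, ?_⟩
  · refine Filter.Eventually.of_forall ?_
    intro Q
    refine Prod.ext ?_ (Prod.ext ?_ rfl)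
    · simp; ring
    · simp; ring
  · intro v
    refine Prod.ext ?_ (Prod.ext ?_ ?_)
    · simp [h1']; field_simp; ring
    · simp; ring
    · simp

/-- The transition between the two exceptional charts: `(b, a) ↦ (1 / a, a² b)`. -/
theorem hasFDerivAt_T {P : Pt} (hP : P.2.1 ≠ 0) : ∃ L : Pt →L[ℝ] Pt,
    HasFDerivAt (fun P : Pt => (((P.2.1)⁻¹, P.2.1 ^ 2 * P.1, P.2.2) : Pt)) L P ∧
    ∀ v, L v = (-v.2.1 / P.2.1 ^ 2, 2 * P.2.1 * P.1 * v.2.1 + P.2.1 ^ 2 * v.1, v.2.2) := by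
  obtain ⟨L1, h1, h1'⟩ := hasFDerivAt_cinv (hasFDerivAt_q P) hP
  have h2 := ((hasFDerivAt_q P).mul (hasFDerivAt_q P)).mul (hasFDerivAt_p P)
  have h4 := h1.prodMk (h2.prodMk (hasFDerivAt_cs P))
  refine ⟨_, h4.congr_of_eventuallyEq ?_, ?_⟩
  · refine Filter.Eventually.of_forall ?_
    intro Q
    refine Prod.ext ?_ (Prod.ext ?_ rfl)
    · simp
    · show Q.2.1 ^ 2 * Q.1 = Q.2.1 * Q.2.1 * Q.1
      ring
  · intro v
    refine Prod.ext ?_ (Prod.ext ?_ ?_)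
    · simp [h1']
    · simp; ring
    · simp

theorem B_congr {v w v' w' : Pt} (h : v'.1 * w'.2.1 - w'.1 * v'.2.1 = v.1 * w.2.1 - w.1 * v.2.1)
    (h1 : v'.2.2 = v.2.2) (h2 : w'.2.2 = w.2.2) : B v' w' = B v w := by
  rw [B_apply, B_apply, h, h1, h2]

/-- From a regular point, with nonzero `p`, to the first exceptional chart. -/
theorem compat_fl_κa {P : Pt} (hF : ¬ F P) (hP : P.1 ≠ 0) :
    Compat B fl P κa (P.1 ^ 2 / 2, P.2.1 / P.1, P.2.2) := by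
  have hW : IsOpen {P : Pt | ¬ F P ∧ P.1 ≠ 0} := by
    refine IsOpen.inter isClosed_F.isOpen_compl ?_
    exact isOpen_ne_fun (by fun_prop) (by fun_prop)
  refine compat_of (g := fun P : Pt => ((P.1 ^ 2 / 2, P.2.1 / P.1, P.2.2) : Pt)) hW ?_ ⟨hF, hP⟩
    rfl ?_ ?_
  · intro Q hQ
    apply ContDiffAt.contDiffWithinAt
    have : ContDiffAt ℝ ∞ (fun P : Pt => (P.1)⁻¹) Q := by
      have := contDiffAt_fst (𝕜 := ℝ) (n := ∞) (p := Q)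
      exact this.inv hQ.2
    have h2 : ContDiffAt ℝ ∞ (fun P : Pt => P.2.1 * (P.1)⁻¹) Q := by fun_prop
    have h3 : ContDiffAt ℝ ∞ (fun P : Pt => P.1 ^ 2 * (2 : ℂ)⁻¹) Q := by fun_prop
    simpa [div_eq_mul_inv] using h3.prodMk (h2.prodMk (by fun_prop))
  · rintro ⟨p, q, c, s⟩ ⟨h1, h2⟩
    simp only at h2 ⊢
    rw [κa_eq (z := p) (by ring), div_mul_cancel₀ _ h2]
    exact mk_of_not_F h1 _ _
  · intro Q hQ
    obtain ⟨L, hL, hL'⟩ := hasFDerivAt_Ga hQ.2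
    refine ⟨L, hL, fun a b => ?_⟩
    have h0 : Q.1 ≠ 0 := hQ.2
    apply B_congr
    · simp only [hL']; field_simp; ring
    · simp only [hL']
    · simp only [hL']

/-- From a regular point, with nonzero `q`, to the second exceptional chart. -/
theorem compat_fl_κb {P : Pt} (hF : ¬ F P) (hP : P.2.1 ≠ 0) :
    Compat B fl P κb (P.1 / P.2.1, P.2.1 ^ 2 / 2, P.2.2) := by
  have hW : IsOpen {P : Pt | ¬ F P ∧ P.2.1 ≠ 0} := by
    refine IsOpen.inter isClosed_F.isOpen_compl ?_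
    exact isOpen_ne_fun (by fun_prop) (by fun_prop)
  refine compat_of (g := fun P : Pt => ((P.1 / P.2.1, P.2.1 ^ 2 / 2, P.2.2) : Pt)) hW ?_ ⟨hF, hP⟩
    rfl ?_ ?_
  · intro Q hQ
    apply ContDiffAt.contDiffWithinAt
    have h0 : ContDiffAt ℝ ∞ (fun P : Pt => P.2.1) Q := by fun_prop
    have : ContDiffAt ℝ ∞ (fun P : Pt => (P.2.1)⁻¹) Q := h0.inv hQ.2
    have h2 : ContDiffAt ℝ ∞ (fun P : Pt => P.1 * (P.2.1)⁻¹) Q := by fun_prop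
    have h3 : ContDiffAt ℝ ∞ (fun P : Pt => P.2.1 ^ 2 * (2 : ℂ)⁻¹) Q := by fun_prop
    simpa [div_eq_mul_inv] using h2.prodMk (h3.prodMk (by fun_prop))
  · rintro ⟨p, q, c, s⟩ ⟨h1, h2⟩
    simp only at h2 ⊢
    rw [κb_eq (z := q) (by ring), div_mul_cancel₀ _ h2]
    exact mk_of_not_F h1 _ _
  · intro Q hQ
    obtain ⟨L, hL, hL'⟩ := hasFDerivAt_Gb hQ.2
    refine ⟨L, hL, fun a b => ?_⟩
    have h0 : Q.2.1 ≠ 0 := hQ.2
    apply B_congr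
    · simp only [hL']; field_simp; ring
    · simp only [hL']
    · simp only [hL']

/-- The transition between the two exceptional charts. -/
theorem compat_κa_κb {u : Pt} (hu : u.2.1 ≠ 0) :
    Compat B κa u κb ((u.2.1)⁻¹, u.2.1 ^ 2 * u.1, u.2.2) := by
  have hW : IsOpen {P : Pt | P.2.1 ≠ 0} := isOpen_ne_fun (by fun_prop) (by fun_prop)
  refine compat_of (g := fun P : Pt => (((P.2.1)⁻¹, P.2.1 ^ 2 * P.1, P.2.2) : Pt)) hW ?_ hu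
    rfl ?_ ?_
  · intro Q hQ
    apply ContDiffAt.contDiffWithinAt
    have h0 : ContDiffAt ℝ ∞ (fun P : Pt => P.2.1) Q := by fun_prop
    have h1 : ContDiffAt ℝ ∞ (fun P : Pt => (P.2.1)⁻¹) Q := h0.inv hQ
    have h3 : ContDiffAt ℝ ∞ (fun P : Pt => P.2.1 ^ 2 * P.1) Q := by fun_prop
    exact h1.prodMk (h3.prodMk (by fun_prop))
  · rintro ⟨b, a, c, s⟩ h2
    have h2' : a ≠ 0 := h2
    simp only
    have h4 : (a * sq b) ^ 2 = 2 * (a ^ 2 * b) := by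
      rw [mul_pow, sq_sq]; ring
    rw [κb_eq h4, if_neg (inv_ne_zero h2'), inv_inv, κa, inv_mul_cancel_left₀ h2']
  · intro Q hQ
    obtain ⟨L, hL, hL'⟩ := hasFDerivAt_T hQ
    refine ⟨L, hL, fun a b => ?_⟩
    have h0 : Q.2.1 ≠ 0 := hQ
    apply B_congr
    · simp only [hL']; field_simp; ring
    · simp only [hL']
    · simp only [hL']

end Pool.Agent.Lib.P89d91e
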