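import Pool.Agent.Lib.P89d91e.TopX

open Set Filter Topology
open scoped ContDiff Manifold

namespace Pool.Agent.Lib.P89d91e

/-- A compact set meeting all the orbits. -/
def K0 : Set Pt := {P | |P.1.re| ≤ 1 ∧ |P.1.im| ≤ 1 ∧ |P.2.1.re| ≤ 1 ∧ |P.2.1.im| ≤ 1 ∧
  |P.2.2.1| ≤ 1 ∧ |P.2.2.2| ≤ 1}

theorem norm_complex_le (z : ℂ) : ‖z‖ ≤ |z.re| + |z.im| := Complex.norm_le_abs_re_add_abs_im z

theorem isCompact_of_bounds {K : Set Pt} (hK : IsClosed K) (r : ℝ)
    (h : ∀ P ∈ K, ‖P.1‖ ≤ r ∧ ‖P.2.1‖ ≤ r ∧ |P.2.2.1| ≤ r ∧ |P.2.2.2| ≤ r) : IsCompact K := by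
  refine Metric.isCompact_of_isClosed_isBounded hK ?_
  refine (Metric.isBounded_closedBall (x := (0 : Pt)) (r := r)).subset ?_
  intro P hP
  obtain ⟨h1, h2, h3, h4⟩ := h P hP
  rw [mem_closedBall_zero_iff, Prod.norm_def, Prod.norm_def, Prod.norm_def]
  exact max_le h1 (max_le h2 (max_le h3 h4))

theorem isClosed_K0 : IsClosed K0 := by
  unfold K0
  refine IsClosed.and ?_ (IsClosed.and ?_ (IsClosed.and ?_ (IsClosed.and ?_
    (IsClosed.and ?_ ?_))))
  all_goals exact isClosed_le (by fun_prop) (by fun_prop)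

theorem isCompact_K0 : IsCompact K0 := by
  refine isCompact_of_bounds isClosed_K0 2 ?_
  rintro P ⟨h1, h2, h3, h4, h5, h6⟩
  have := norm_complex_le P.1
  have := norm_complex_le P.2.1
  refine ⟨by linarith, by linarith, by linarith, by linarith⟩

theorem exists_int_near (r : ℝ) : ∃ n : ℤ, |r + 2 * n| ≤ 1 := by
  refine ⟨-round (r / 2), ?_⟩
  have := abs_sub_round (r / 2)
  rw [abs_le] at this ⊢
  push_cast
  constructor <;> linarith

theorem exists_mem_K0 (P : Pt) : ∃ Q ∈ K0, rel P Q := by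
  obtain ⟨n, hn⟩ := exists_int_near P.1.re
  obtain ⟨j, hj⟩ := exists_int_near P.1.im
  obtain ⟨y, hy⟩ := exists_int_near P.2.1.im
  obtain ⟨x, hx⟩ := exists_int_near (P.2.1.re - 2 * (y * β) - 2 * j * P.2.2.1)
  obtain ⟨k, hk⟩ := exists_int_near P.2.2.1
  obtain ⟨l, hl⟩ := exists_int_near (P.2.2.2 - 2 * j * P.1.re)
  refine ⟨(⟨P.1.re + 2 * n, P.1.im + 2 * j⟩,
    ⟨P.2.1.re - 2 * (y * β) - 2 * j * P.2.2.1 + 2 * x, P.2.1.im + 2 * y⟩,
    P.2.2.1 + 2 * k, P.2.2.2 - 2 * j * P.1.re + 2 * l), ⟨hn, hj, hx, hy, hk, hl⟩,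
    1, n, j, x, y, k, l, Or.inl rfl, ?_⟩
  push_cast
  refine ⟨by ring, by ring, by ring, by ring, by ring, by ring⟩

/-- Frames with integer parameters. -/
def frI (v : ℤ × ℤ × ℤ × ℤ) : Frame := ⟨v.1, v.2.1, v.2.2.1, v.2.2.2, 0⟩

/-- Points close to the exceptional locus. -/
def Nb : Set Pt := {P | ∃ v : ℤ × ℤ × ℤ × ℤ, ‖((frI v).inv.act P).1‖ < 1 / 4 ∧
  ‖((frI v).inv.act P).2.1‖ < 1 / 4}

theorem isOpen_Nb : IsOpen Nb := by
  have : Nb = ⋃ v : ℤ × ℤ × ℤ × ℤ, {P | ‖((frI v).inv.act P).1‖ < 1 / 4 ∧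
      ‖((frI v).inv.act P).2.1‖ < 1 / 4} := by
    ext P; simp [Nb]
  rw [this]
  refine isOpen_iUnion fun v => IsOpen.and ?_ ?_
  · have := continuous_act (frI v).inv
    exact isOpen_lt (by fun_prop) (by fun_prop)
  · have := continuous_act (frI v).inv
    exact isOpen_lt (by fun_prop) (by fun_prop)

theorem F_sub_Nb {P : Pt} (h : F P) : P ∈ Nb := by
  rw [F_iff] at h
  obtain ⟨n, j, x, y, h1, h2, h3, h4⟩ := h
  refine ⟨(n, j, x, y), ?_⟩
  have e : (frI (n, j, x, y)).inv.act P = (0, 0, P.2.2.1, P.2.2.2 + j * P.1.re - j * n) := by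
    apply pt_ext <;> simp [frI, Frame.inv, h1, h2, h3, h4]
    ring
  rw [e]
  norm_num

/-- Compact set of parameters, first kind. -/
def Ka : Set Pt := {u | ‖u.1‖ ≤ 1 / 32 ∧ ‖u.2.1‖ ≤ 1 ∧ |u.2.2.1| ≤ 4 ∧ |u.2.2.2| ≤ 4}

/-- Compact set of parameters, second kind. -/
def Kb : Set Pt := {u | ‖u.1‖ ≤ 1 ∧ ‖u.2.1‖ ≤ 1 / 32 ∧ |u.2.2.1| ≤ 4 ∧ |u.2.2.2| ≤ 4}

theorem isCompact_Ka : IsCompact Ka := by
  refine isCompact_of_bounds ?_ 4 ?_
  · unfold Ka
    refine IsClosed.and ?_ (IsClosed.and ?_ (IsClosed.and ?_ ?_))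
    all_goals exact isClosed_le (by fun_prop) (by fun_prop)
  · rintro P ⟨h1, h2, h3, h4⟩
    exact ⟨by linarith, by linarith, h3, h4⟩

theorem isCompact_Kb : IsCompact Kb := by
  refine isCompact_of_bounds ?_ 4 ?_
  · unfold Kb
    refine IsClosed.and ?_ (IsClosed.and ?_ (IsClosed.and ?_ ?_))
    all_goals exact isClosed_le (by fun_prop) (by fun_prop)
  · rintro P ⟨h1, h2, h3, h4⟩
    exact ⟨by linarith, by linarith, h3, h4⟩

theorem Ka_sub : Ka ⊆ Da := by
  rintro P ⟨h1, h2, h3, h4⟩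
  refine ⟨by linarith, ?_⟩
  have : ‖P.2.1‖ ^ 2 ≤ 1 := by nlinarith [norm_nonneg P.2.1]
  nlinarith [norm_nonneg P.1]

theorem Kb_sub : Kb ⊆ Db := by
  rintro P ⟨h1, h2, h3, h4⟩
  refine ⟨by linarith, ?_⟩
  have : ‖P.1‖ ^ 2 ≤ 1 := by nlinarith [norm_nonneg P.1]
  nlinarith [norm_nonneg P.2.1]

theorem mem_Ka_or_Kb {p q : ℂ} {c s : ℝ} (d : Option ℂ) (hp : ‖p‖ < 1 / 4) (hq : ‖q‖ < 1 / 4)
    (hc : |c| ≤ 4) (hs : |s| ≤ 4) :
    (∃ u ∈ Ka, κa u = mk (p, q, c, s) d) ∨ (∃ u ∈ Kb, κb u = mk (p, q, c, s) d) := by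
  by_cases h0 : p = 0 ∧ q = 0
  · obtain ⟨rfl, rfl⟩ := h0
    cases d with
    | none =>
      right
      exact ⟨(0, 0, c, s), ⟨by simp, by simp, hc, hs⟩, by simp [κb_zero]⟩
    | some a =>
      by_cases ha : ‖a‖ ≤ 1
      · left
        exact ⟨(0, a, c, s), ⟨by simp, by simpa using ha, hc, hs⟩, κa_zero a c s⟩
      · right
        push Not at ha
        have ha0 : a ≠ 0 := by rintro rfl; simp at ha; linarith
        refine ⟨(a⁻¹, 0, c, s), ⟨?_, by simp, hc, hs⟩, ?_⟩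
        · simp only [norm_inv]
          exact inv_le_one_of_one_le₀ ha.le
        · rw [κb_eq (z := 0) (by simp), if_neg (inv_ne_zero ha0)]
          simp
  · have hF : ¬ F (p, q, c, s) := fun h => h0 (F_small (by linarith) (by linarith) h)
    by_cases hpq : ‖q‖ ≤ ‖p‖
    · left
      have hp0 : p ≠ 0 := by
        rintro rfl
        apply h0
        simpa using hpq
      refine ⟨(p ^ 2 / 2, q / p, c, s), ⟨?_, ?_, hc, hs⟩, ?_⟩
      · simp only [norm_div, norm_pow, Complex.norm_ofNat]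
        nlinarith [norm_nonneg p]
      · simp only [norm_div]
        exact div_le_one_of_le₀ hpq (norm_nonneg _)
      · rw [κa_eq (z := p) (by ring), div_mul_cancel₀ _ hp0]
        exact mk_of_not_F hF _ _
    · right
      push Not at hpq
      have hq0 : q ≠ 0 := by
        rintro rfl
        simp at hpq
        exact absurd hpq (not_lt.2 (norm_nonneg _))
      refine ⟨(p / q, q ^ 2 / 2, c, s), ⟨?_, ?_, hc, hs⟩, ?_⟩
      · simp only [norm_div]
        exact div_le_one_of_le₀ hpq.le (norm_nonneg _)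
      · simp only [norm_div, norm_pow, Complex.norm_ofNat]
        nlinarith [norm_nonneg q]
      · rw [κb_eq (z := q) (by ring), div_mul_cancel₀ _ hq0]
        exact mk_of_not_F hF _ _

theorem β_bounds : 1 < β ∧ β < 2 := by
  unfold β
  constructor
  · rw [show (1 : ℝ) = Real.sqrt 1 by simp]
    exact Real.sqrt_lt_sqrt (by norm_num) (by norm_num)
  · rw [show (2 : ℝ) = Real.sqrt 4 by rw [show (4 : ℝ) = 2 ^ 2 by norm_num]; simp]
    exact Real.sqrt_lt_sqrt (by norm_num) (by norm_num)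

theorem int_bound {n : ℤ} {N : ℤ} (h : |(n : ℝ)| ≤ N) : -N ≤ n ∧ n ≤ N := by
  rw [abs_le] at h
  constructor
  · have := h.1; exact_mod_cast this
  · exact_mod_cast h.2

/-- The finite set of frames needed. -/
def Sf : Set (ℤ × ℤ × ℤ × ℤ) := Icc (-10) 10 ×ˢ (Icc (-10) 10 ×ˢ (Icc (-10) 10 ×ˢ Icc (-10) 10))

theorem Sf_finite : Sf.Finite :=
  (finite_Icc _ _).prod ((finite_Icc _ _).prod ((finite_Icc _ _).prod (finite_Icc _ _)))

instance instCompactX : CompactSpace X := by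
  rw [← isCompact_univ_iff]
  have key : (univ : Set X) = fl '' (K0 \ Nb) ∪
      ⋃ v ∈ Sf, ((fr (frI v) ∘ κa) '' Ka ∪ (fr (frI v) ∘ κb) '' Kb) := by
    refine (eq_univ_of_forall ?_).symm
    intro z
    obtain ⟨P, d, rfl⟩ := mk_surj z
    obtain ⟨Q, hQ, hr⟩ := exists_mem_K0 P
    have hz : mk P d = mk Q d := mk_eq.2 ⟨hr, fun _ => rfl⟩
    rw [hz]
    by_cases hN : Q ∈ Nb
    · right
      obtain ⟨v, h1, h2⟩ := hN
      obtain ⟨n, j, x, y⟩ := v
      set R := (frI (n, j, x, y)).inv.act Q with hR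
      have hQR : Q = (frI (n, j, x, y)).act R := by rw [hR, act_inv]
      obtain ⟨a1, a2, a3, a4, a5, a6⟩ := hQ
      have b1 := (Complex.abs_re_le_norm R.1).trans_lt h1
      have b2 := (Complex.abs_im_le_norm R.1).trans_lt h1
      have b3 := (Complex.abs_re_le_norm R.2.1).trans_lt h2
      have b4 := (Complex.abs_im_le_norm R.2.1).trans_lt h2
      rw [hQR] at a1 a2 a3 a4 a5 a6
      simp only [act_1re, act_1im, act_2re, act_2im, act_c, act_s, frI] at a1 a2 a3 a4 a5 a6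
      rw [abs_le] at a1 a2 a3 a4 a5 a6
      rw [abs_lt] at b1 b2 b3 b4
      have c1 : |(n : ℝ)| < 2 := by rw [abs_lt]; constructor <;> linarith
      have c2 : |(j : ℝ)| < 2 := by rw [abs_lt]; constructor <;> linarith
      have c4 : |(y : ℝ)| < 2 := by rw [abs_lt]; constructor <;> linarith
      obtain ⟨hβ1, hβ2⟩ := β_bounds
      have d1 : |(y : ℝ) * β| ≤ 2 * 2 := by
        rw [abs_mul, abs_of_pos (a := β) (by linarith)]
        exact mul_le_mul c4.le hβ2.le (by linarith) (by norm_num)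
      have d2 : |(j : ℝ) * R.2.2.1| ≤ 2 * 1 := by
        rw [abs_mul]
        exact mul_le_mul c2.le (abs_le.2 a5) (abs_nonneg _) (by norm_num)
      have d3 : |(j : ℝ) * R.1.re| ≤ 2 * 1 := by
        rw [abs_mul]
        refine mul_le_mul c2.le (abs_le.2 ⟨by linarith, by linarith⟩) (abs_nonneg _) (by norm_num)
      rw [abs_le] at d1 d2 d3
      have c3 : |(x : ℝ)| ≤ 9 := by rw [abs_le]; constructor <;> linarith
      have hv : (n, j, x, y) ∈ Sf := by
        have i1 : -10 ≤ n ∧ n ≤ 10 := int_bound (by push_cast; linarith)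
        have i2 : -10 ≤ j ∧ j ≤ 10 := int_bound (by push_cast; linarith)
        have i3 : -10 ≤ x ∧ x ≤ 10 := int_bound (by push_cast; linarith)
        have i4 : -10 ≤ y ∧ y ≤ 10 := int_bound (by push_cast; linarith)
        exact ⟨i1, i2, i3, i4⟩
      have hc : |R.2.2.1| ≤ 4 := by rw [abs_le]; constructor <;> linarith
      have hs : |R.2.2.2| ≤ 4 := by rw [abs_le]; constructor <;> linarith
      refine mem_biUnion hv ?_
      rcases mem_Ka_or_Kb (c := R.2.2.1) (s := R.2.2.2) d h1 h2 hc hs with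
        ⟨u, hu, hu'⟩ | ⟨u, hu, hu'⟩
      · left
        refine ⟨u, hu, ?_⟩
        rw [Function.comp_apply, hu', fr_mk, hQR]
      · right
        refine ⟨u, hu, ?_⟩
        rw [Function.comp_apply, hu', fr_mk, hQR]
    · left
      exact ⟨Q, ⟨hQ, hN⟩, (mk_of_not_F (fun h => hN (F_sub_Nb h)) _ _)⟩
  rw [key]
  refine IsCompact.union ?_ (Sf_finite.isCompact_biUnion fun v _ => IsCompact.union ?_ ?_)
  · refine (isCompact_K0.diff isOpen_Nb).image_of_continuousOn ?_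
    intro P hP
    exact ((par_fl (fun h => hP.2 (F_sub_Nb h))).continuousAt).continuousWithinAt
  · refine isCompact_Ka.image_of_continuousOn ?_
    intro P hP
    exact ((par_fr _ (par_κa (Ka_sub hP))).continuousAt).continuousWithinAt
  · refine isCompact_Kb.image_of_continuousOn ?_
    intro P hP
    exact ((par_fr _ (par_κb (Kb_sub hP))).continuousAt).continuousWithinAt

end Pool.Agent.Lib.P89d91e
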