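import Pool.Agent.Lib.P89d91e.TopX

open Set Filter Topology
open scoped ContDiff

namespace Pool.Agent.Lib.P89d91e

theorem cc_eq {x y : X} {S : Set X} (hS : IsPreconnected S) (hx : x ∈ S) (hy : y ∈ S) :
    connectedComponent x = connectedComponent y :=
  connectedComponent_eq (hS.subset_connectedComponent hx hy)

theorem cc_of_path {γ : ℝ → X} (h : ∀ t ∈ Icc (0 : ℝ) 1, ContinuousAt γ t) :
    connectedComponent (γ 0) = connectedComponent (γ 1) := by
  have hS : IsPreconnected (γ '' Icc (0 : ℝ) 1) :=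
    isPreconnected_Icc.image γ fun t ht => (h t ht).continuousWithinAt
  exact cc_eq hS ⟨0, by simp, rfl⟩ ⟨1, by simp, rfl⟩

theorem cc_seg {P Q : Pt} (h : ∀ t ∈ Icc (0 : ℝ) 1, ¬ F (P + t • (Q - P))) :
    connectedComponent (fl P) = connectedComponent (fl Q) := by
  have h1 : ∀ t ∈ Icc (0 : ℝ) 1, ContinuousAt (fun t : ℝ => fl (P + t • (Q - P))) t := by
    intro t ht
    exact ContinuousAt.comp (g := fl) (f := fun t : ℝ => P + t • (Q - P))
      (par_fl (h t ht)).continuousAt (by fun_prop)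
  have := cc_of_path h1
  simpa using this

theorem not_isI_between {x : ℝ} {n : ℤ} (h0 : (n : ℝ) < x) (h1 : x < n + 1) : ¬ IsI x := by
  rintro ⟨m, rfl⟩
  have h2 : n < m := by exact_mod_cast h0
  have h3 : m < n + 1 := by exact_mod_cast h1
  omega

theorem not_isI_half : ¬ IsI (1 / 2) := by
  refine not_isI_between (n := 0) ?_ ?_ <;> norm_num

/-- The base point. -/
noncomputable def P0 : Pt := (((1 / 2 : ℝ) : ℂ), 0, 0, 0)

theorem cc_re_half {P : Pt} (h : P.1.re = 1 / 2) :
    connectedComponent (fl P) = connectedComponent (fl P0) := by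
  apply cc_seg
  intro t _ hF
  apply not_isI_half
  have := hF.1
  have e : (P + t • (P0 - P)).1.re = 1 / 2 := by
    simp only [Prod.fst_add, Prod.smul_fst, Prod.fst_sub, Complex.add_re, Complex.real_smul,
      Complex.mul_re, Complex.ofReal_re, Complex.ofReal_im, zero_mul, sub_zero, Complex.sub_re,
      P0, h]
    ring
  rwa [e] at this

theorem cc_im {P : Pt} (h : ¬ IsI P.1.im) :
    connectedComponent (fl P) = connectedComponent (fl P0) := by
  have h1 : connectedComponent (fl P) =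
      connectedComponent (fl (⟨1 / 2, P.1.im⟩, P.2.1, P.2.2.1, P.2.2.2)) := by
    apply cc_seg
    intro t _ hF
    apply h
    have := hF.2.1
    have e : (P + t • (((⟨1 / 2, P.1.im⟩, P.2.1, P.2.2.1, P.2.2.2) : Pt) - P)).1.im = P.1.im := by
      simp
    rwa [e] at this
  rw [h1]
  exact cc_re_half rfl

theorem cc_regular {P : Pt} (h : ¬ F P) :
    connectedComponent (fl P) = connectedComponent (fl P0) := by
  have hopen : IsOpen {P : Pt | ¬ F P} := isClosed_F.isOpen_compl
  obtain ⟨δ, hδ, hball⟩ := Metric.isOpen_iff.1 hopen P h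
  set y := P.1.im with hy
  have hfl : (⌊y⌋ : ℝ) ≤ y := Int.floor_le y
  have hfl' : y < ⌊y⌋ + 1 := Int.lt_floor_add_one y
  set η : ℝ := min (δ / 2) ((⌊y⌋ + 1 - y) / 2) with hη
  have hη0 : 0 < η := lt_min (by linarith) (by linarith)
  have hη1 : η ≤ δ / 2 := min_le_left _ _
  have hη2 : η ≤ (⌊y⌋ + 1 - y) / 2 := min_le_right _ _
  have hV : ‖((⟨0, η⟩, 0, 0, 0) : Pt)‖ = η := by
    have h1 : ‖(⟨0, η⟩ : ℂ)‖ = η := by
      have : (⟨0, η⟩ : ℂ) = (η : ℂ) * Complex.I := by apply Complex.ext <;> simp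
      rw [this]; simp [abs_of_pos hη0]
    rw [Prod.norm_def, h1]
    simp [hη0.le]
  have h1 : connectedComponent (fl P) =
      connectedComponent (fl (P + (⟨0, η⟩, 0, 0, 0))) := by
    apply cc_seg
    intro t ht hF
    have : P + t • (P + ((⟨0, η⟩, 0, 0, 0) : Pt) - P) ∈ Metric.ball P δ := by
      rw [add_sub_cancel_left, mem_ball_iff_norm, add_sub_cancel_left, norm_smul, hV,
        Real.norm_eq_abs, abs_of_nonneg ht.1]
      nlinarith [ht.2]
    exact hball this hF
  rw [h1]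
  apply cc_im
  have e : (P + ((⟨0, η⟩, 0, 0, 0) : Pt)).1.im = y + η := by simp [hy]
  rw [e]
  exact not_isI_between (n := ⌊y⌋) (by linarith) (by linarith)

theorem cc_all (x : X) : connectedComponent x = connectedComponent (fl P0) := by
  obtain ⟨P, d, rfl⟩ := mk_surj x
  by_cases h : F P
  · obtain ⟨g, c, rfl⟩ := exists_frame h
    cases d with
    | some a =>
      have hb : ∃ b : ℂ, b ≠ 0 ∧ ∀ t ∈ Icc (0 : ℝ) 1, ((t • b, a, c, 0) : Pt) ∈ Da := by
        refine ⟨((1 / 16 / (1 + ‖a‖ ^ 2) : ℝ) : ℂ), ?_, ?_⟩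
        · have : (1 / 16 / (1 + ‖a‖ ^ 2) : ℝ) ≠ 0 := by positivity
          exact_mod_cast this
        · intro t ht
          have e1 : ‖t • ((1 / 16 / (1 + ‖a‖ ^ 2) : ℝ) : ℂ)‖ = t * (1 / 16 / (1 + ‖a‖ ^ 2)) := by
            rw [norm_smul, Complex.norm_real, Real.norm_eq_abs, Real.norm_eq_abs,
              abs_of_nonneg ht.1, abs_of_nonneg (by positivity)]
          have e2 : 1 / 16 / (1 + ‖a‖ ^ 2) ≤ 1 / 16 := div_le_self (by norm_num) (by
            nlinarith [sq_nonneg ‖a‖])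
          have e3 : 1 / 16 / (1 + ‖a‖ ^ 2) * ‖a‖ ^ 2 ≤ 1 / 16 := by
            rw [div_mul_eq_mul_div, div_le_iff₀ (by positivity)]
            nlinarith [sq_nonneg ‖a‖]
          have e4 : 0 ≤ 1 / 16 / (1 + ‖a‖ ^ 2) := by positivity
          refine ⟨?_, ?_⟩
          · show ‖t • ((1 / 16 / (1 + ‖a‖ ^ 2) : ℝ) : ℂ)‖ < 1 / 8
            rw [e1]
            nlinarith [ht.1, ht.2]
          · show ‖t • ((1 / 16 / (1 + ‖a‖ ^ 2) : ℝ) : ℂ)‖ * ‖a‖ ^ 2 < 1 / 8
            rw [e1, mul_assoc]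
            nlinarith [ht.1, ht.2, mul_nonneg e4 (sq_nonneg ‖a‖)]
      obtain ⟨b, hb0, hb⟩ := hb
      have h1 : ∀ t ∈ Icc (0 : ℝ) 1,
          ContinuousAt (fun t : ℝ => (fr g ∘ κa) (t • b, a, c, 0)) t := by
        intro t ht
        exact ContinuousAt.comp (g := fr g ∘ κa) (f := fun t : ℝ => ((t • b, a, c, 0) : Pt))
          (par_fr g (par_κa (hb t ht))).continuousAt (by fun_prop)
      have h2 := cc_of_path h1
      simp only [zero_smul, one_smul, Function.comp_apply, κa_zero, fr_mk] at h2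
      rw [h2]
      obtain ⟨g1, g2⟩ := hb 1 (by simp)
      simp only [one_smul] at g1 g2
      have hz : sq b ≠ 0 := fun h => hb0 (sq_eq_zero.1 h)
      have hF : ¬ F (sq b, a * sq b, c, 0) := fun h =>
        hz (F_small (by linarith [norm_sq_lt g1]) (by linarith [norm_mul_sq_lt g2]) h).1
      have h3 : fr g (κa (b, a, c, 0)) = fl (g.act (sq b, a * sq b, c, 0)) := by
        rw [κa, fr_mk]
        exact mk_of_not_F (fun h => hF (F_act g h)) _ _
      rw [h3]
      exact cc_regular (fun h => hF (F_act g h))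
    | none =>
      have hb : ∀ t ∈ Icc (0 : ℝ) 1, ((0, t • ((1 / 16 : ℝ) : ℂ), c, 0) : Pt) ∈ Db := by
        intro t ht
        have e1 : ‖t • ((1 / 16 : ℝ) : ℂ)‖ = t * (1 / 16) := by
          rw [norm_smul, Complex.norm_real, Real.norm_eq_abs, Real.norm_eq_abs,
            abs_of_nonneg ht.1, abs_of_nonneg (by norm_num)]
        refine ⟨?_, ?_⟩
        · show ‖t • ((1 / 16 : ℝ) : ℂ)‖ < 1 / 8
          rw [e1]
          linarith [ht.2]
        · show ‖t • ((1 / 16 : ℝ) : ℂ)‖ * ‖(0 : ℂ)‖ ^ 2 < 1 / 8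
          simp
      have h1 : ∀ t ∈ Icc (0 : ℝ) 1,
          ContinuousAt (fun t : ℝ => (fr g ∘ κb) (0, t • ((1 / 16 : ℝ) : ℂ), c, 0)) t := by
        intro t ht
        exact ContinuousAt.comp (g := fr g ∘ κb)
          (f := fun t : ℝ => ((0, t • ((1 / 16 : ℝ) : ℂ), c, 0) : Pt))
          (par_fr g (par_κb (hb t ht))).continuousAt (by fun_prop)
      have h2 := cc_of_path h1
      simp only [zero_smul, one_smul, Function.comp_apply, κb_zero, fr_mk] at h2
      rw [h2]
      obtain ⟨g1, g2⟩ := hb 1 (by simp)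
      simp only [one_smul] at g1 g2
      set b : ℂ := ((1 / 16 : ℝ) : ℂ) with hbdef
      have hb0 : b ≠ 0 := by
        rw [hbdef]
        have : (1 / 16 : ℝ) ≠ 0 := by norm_num
        exact_mod_cast this
      have hz : sq b ≠ 0 := fun h => hb0 (sq_eq_zero.1 h)
      have hF : ¬ F (0 * sq b, sq b, c, 0) := fun h =>
        hz (F_small (by linarith [norm_mul_sq_lt g2]) (by linarith [norm_sq_lt g1]) h).2
      have h3 : fr g (κb (0, b, c, 0)) = fl (g.act (0 * sq b, sq b, c, 0)) := by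
        rw [κb, fr_mk]
        exact mk_of_not_F (fun h => hF (F_act g h)) _ _
      rw [h3]
      exact cc_regular (fun h => hF (F_act g h))
  · rw [mk_of_not_F h d none]
    exact cc_regular h

instance instConnectedX : ConnectedSpace X := by
  rw [connectedSpace_iff_connectedComponent]
  refine ⟨fl P0, ?_⟩
  rw [eq_univ_iff_forall]
  intro x
  rw [← cc_all x]
  exact mem_connectedComponent

end Pool.Agent.Lib.P89d91e
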