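import Pool.Agent.Lib.P89d91e.TopX

open Set Filter Topology
open scoped ContDiff

namespace Pool.Agent.Lib.P89d91e

theorem exists_local_inverse {f : ℂ → ℂ} {a f' : ℂ} (hf : AnalyticAt ℂ f a)
    (hf' : HasDerivAt f f' a) (h0 : f' ≠ 0) :
    ∃ φ : ℂ → ℂ, ContDiffAt ℝ ∞ φ (f a) ∧ φ (f a) = a ∧ (∀ᶠ ζ in 𝓝 (f a), f (φ ζ) = ζ) ∧
      ∃ φ', φ' ≠ 0 ∧ HasDerivAt φ φ' (f a) := by
  have hcd : ContDiffAt ℂ ∞ f a := hf.contDiffAt
  let e : OpenPartialHomeomorph ℂ ℂ := hcd.toOpenPartialHomeomorph f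
    (hf'.hasFDerivAt_equiv h0) (by simp)
  have hea : a ∈ e.source := hcd.mem_toOpenPartialHomeomorph_source
    (hf'.hasFDerivAt_equiv h0) (by simp)
  have he : ∀ x, e x = f x := fun x => rfl
  have hsa : e.symm (f a) = a := by rw [← he, e.left_inv hea]
  have hta : f a ∈ e.target := by rw [← he]; exact e.map_source hea
  refine ⟨e.symm, ?_, hsa, ?_, f'⁻¹, inv_ne_zero h0, ?_⟩
  · have h1 : ContDiffAt ℂ ∞ e.symm (f a) := by
      refine e.contDiffAt_symm_deriv (f₀' := f') h0 hta ?_ ?_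
      · rw [hsa]; exact hf'
      · rw [hsa]; exact hcd
    exact h1.restrict_scalars ℝ
  · filter_upwards [e.open_target.mem_nhds hta] with ζ hζ
    rw [← he, e.right_inv hζ]
  · refine e.hasDerivAt_symm hta h0 ?_
    rw [hsa]; exact hf'

/-- The function `b ↦ cos (π √(2 b))`. -/
noncomputable def Cf (b : ℂ) : ℂ := Complex.cos (Real.pi * sq b)

theorem Cf_eq {b z : ℂ} (h : z ^ 2 = 2 * b) : Complex.cos (Real.pi * z) = Cf b := by
  have : (sq b - z) * (sq b + z) = 0 := by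
    have := sq_sq b
    linear_combination this - h
  rcases mul_eq_zero.1 this with h1 | h1
  · have h2 : sq b = z := by linear_combination h1
    simp [Cf, h2]
  · have h2 : sq b = -z := by linear_combination h1
    simp [Cf, h2]

theorem Cf_zero : Cf 0 = 1 := by
  rw [← Cf_eq (z := 0) (by simp)]; simp

theorem differentiableAt_Cf {b : ℂ} (hb : b ≠ 0) : DifferentiableAt ℂ Cf b := by
  have h2b : (2 * b) ≠ 0 := mul_ne_zero two_ne_zero hb
  rcases Complex.mem_slitPlane_or_neg_mem_slitPlane h2b with h | h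
  · unfold Cf sq
    have h1 : DifferentiableAt ℂ (fun b : ℂ => (2 * b) ^ (1 / 2 : ℂ)) b :=
      DifferentiableAt.cpow_const (by fun_prop) h
    fun_prop
  · have h1 : DifferentiableAt ℂ (fun b : ℂ => (-(2 * b)) ^ (1 / 2 : ℂ)) b :=
      DifferentiableAt.cpow_const (by fun_prop) h
    have h2 : DifferentiableAt ℂ
        (fun b : ℂ => Complex.cos (Real.pi * (Complex.I * (-(2 * b)) ^ (1 / 2 : ℂ)))) b := by
      fun_prop
    refine h2.congr_of_eventuallyEq (Eventually.of_forall fun b => ?_)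
    refine (Cf_eq ?_).symm
    rw [mul_pow, Complex.I_sq, ← Complex.cpow_nat_mul]
    simp

theorem continuousAt_Cf : ContinuousAt Cf 0 := by
  unfold Cf
  have := continuousAt_sq_zero
  fun_prop

theorem analyticAt_Cf : AnalyticAt ℂ Cf 0 := by
  refine Complex.analyticAt_of_differentiable_on_punctured_nhds_of_continuousAt ?_
    continuousAt_Cf
  filter_upwards [self_mem_nhdsWithin] with b hb
  exact differentiableAt_Cf hb

theorem hasDerivAt_Cf : HasDerivAt Cf (-(Real.pi : ℂ) ^ 2) 0 := by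
  have hd := analyticAt_Cf.differentiableAt.hasDerivAt
  suffices h : deriv Cf 0 = -(Real.pi : ℂ) ^ 2 by rwa [h] at hd
  have h1 : Tendsto (fun t : ℂ => Complex.sin (Real.pi / 2 * t) / t) (𝓝[≠] 0)
      (𝓝 (Real.pi / 2)) := by
    have h2 : HasDerivAt (fun t : ℂ => Complex.sin (Real.pi / 2 * t)) (Real.pi / 2) 0 := by
      have h3 : HasDerivAt (fun t : ℂ => Real.pi / 2 * t) (Real.pi / 2) 0 := by
        simpa using (hasDerivAt_id (0 : ℂ)).const_mul ((Real.pi : ℂ) / 2)
      have h4 := h3.csin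
      simpa using h4
    rw [hasDerivAt_iff_tendsto_slope] at h2
    refine h2.congr' ?_
    filter_upwards with t
    simp [slope_def_field]
  have h5 : Tendsto (fun t : ℂ => t ^ 2 / 2) (𝓝[≠] 0) (𝓝[≠] 0) := by
    refine tendsto_nhdsWithin_iff.2 ⟨?_, ?_⟩
    · have : Tendsto (fun t : ℂ => t ^ 2 / 2) (𝓝 0) (𝓝 (0 ^ 2 / 2)) :=
        (by fun_prop : Continuous fun t : ℂ => t ^ 2 / 2).tendsto 0
      simp only [ne_eq, OfNat.ofNat_ne_zero, not_false_eq_true, zero_pow, zero_div] at this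
      exact this.mono_left nhdsWithin_le_nhds
    · filter_upwards [self_mem_nhdsWithin] with t ht
      have : t ≠ 0 := ht
      simp [this]
  have h6 : Tendsto (fun t : ℂ => (Cf (t ^ 2 / 2) - 1) / (t ^ 2 / 2)) (𝓝[≠] 0)
      (𝓝 (deriv Cf 0)) := by
    rw [hasDerivAt_iff_tendsto_slope] at hd
    refine (hd.comp h5).congr' ?_
    filter_upwards with t
    simp [slope_def_field, Cf_zero]
  have h7 : Tendsto (fun t : ℂ => (Cf (t ^ 2 / 2) - 1) / (t ^ 2 / 2)) (𝓝[≠] 0)
      (𝓝 (-4 * ((Real.pi : ℂ) / 2) ^ 2)) := by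
    refine ((h1.pow 2).const_mul (-4)).congr' ?_
    filter_upwards [self_mem_nhdsWithin] with t ht
    have ht0 : t ≠ 0 := ht
    have h8 : Cf (t ^ 2 / 2) = 1 - 2 * Complex.sin (Real.pi / 2 * t) ^ 2 := by
      rw [← Cf_eq (z := t) (by ring)]
      have h9 : (Real.pi : ℂ) * t = 2 * (Real.pi / 2 * t) := by ring
      rw [h9, Complex.cos_two_mul, Complex.cos_sq']
      ring
    rw [h8]
    field_simp
    ring
  have := tendsto_nhds_unique h6 h7
  rw [this]
  ring

end Pool.Agent.Lib.P89d91e
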