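import Mathlib

open Set Filter Topology
open scoped ContDiff Manifold

namespace Pool.Agent.Lib.P89d91e

section Forms

variable {E : Type*} [NormedAddCommGroup E] [NormedSpace ℝ E]

/-- A differential 2-form on a manifold `X` modelled on `E`: at each point of `X` an alternating
bilinear form on the tangent space. Smoothness is imposed separately. -/
abbrev TwoForm (E : Type*) [NormedAddCommGroup E] [NormedSpace ℝ E] (X : Type*)
    [TopologicalSpace X] [ChartedSpace E X] : Type _ :=
  ∀ x : X, (TangentSpace 𝓘(ℝ, E) x) [⋀^Fin 2]→L[ℝ] ℝ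

variable {X : Type*} [TopologicalSpace X] [ChartedSpace E X]

/-- The value of a 2-form on two tangent vectors. -/
noncomputable def TwoForm.val (Ω : TwoForm E X) (x : X) (v w : TangentSpace 𝓘(ℝ, E) x) : ℝ :=
  Ω x ![v, w]

/-- The expression of a 2-form `Ω` in the chart `e`, that is the pullback of `Ω` under the inverse
`e.symm` of the chart, a 2-form on the open subset `e.target` of `E`. -/
noncomputable def TwoForm.inChart (Ω : TwoForm E X) (e : OpenPartialHomeomorph X E) :
    E → E [⋀^Fin 2]→L[ℝ] ℝ :=
  fun u => (Ω (e.symm u)).compContinuousLinearMap (mfderiv 𝓘(ℝ, E) 𝓘(ℝ, E) e.symm u)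

/-- Smoothness of a 2-form: it is of class `C^∞` in every chart of the atlas. -/
def TwoForm.Smooth (Ω : TwoForm E X) : Prop :=
  ∀ e ∈ atlas E X, ContDiffOn ℝ ∞ (Ω.inChart e) e.target

/-- Closedness of a 2-form: its exterior derivative vanishes in every chart of the atlas. -/
def TwoForm.Closed (Ω : TwoForm E X) : Prop :=
  ∀ e ∈ atlas E X, ∀ u ∈ e.target, extDeriv (Ω.inChart e) u = 0

/-- Nondegeneracy of a 2-form at every point. -/
def TwoForm.Nondegenerate (Ω : TwoForm E X) : Prop :=
  ∀ (x : X) (v : TangentSpace 𝓘(ℝ, E) x), (∀ w, Ω.val x v w = 0) → v = 0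

/-- A symplectic form: a smooth, closed and nondegenerate 2-form. -/
structure IsSymplecticForm (Ω : TwoForm E X) : Prop where
  smooth : Ω.Smooth
  closed : Ω.Closed
  nondegenerate : Ω.Nondegenerate

end Forms

section Embeddings

variable {E' : Type*} [NormedAddCommGroup E'] [NormedSpace ℝ E']
  {E : Type*} [NormedAddCommGroup E] [NormedSpace ℝ E]
  {M : Type*} [TopologicalSpace M] [ChartedSpace E' M]
  {X : Type*} [TopologicalSpace X] [ChartedSpace E X]

/-- The differential at `p` of a map `f` between manifolds modelled on `E'` and `E`, applied to a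
tangent vector. -/
noncomputable def tmap (E' : Type*) [NormedAddCommGroup E'] [NormedSpace ℝ E']
    (E : Type*) [NormedAddCommGroup E] [NormedSpace ℝ E]
    {M : Type*} [TopologicalSpace M] [ChartedSpace E' M]
    {X : Type*} [TopologicalSpace X] [ChartedSpace E X] (f : M → X) (p : M)
    (v : TangentSpace 𝓘(ℝ, E') p) : TangentSpace 𝓘(ℝ, E) (f p) :=
  mfderiv 𝓘(ℝ, E') 𝓘(ℝ, E) f p v

/-- The map `f` pulls the 2-form `Ω` back to zero. -/
def PullsBackToZero (E' : Type*) [NormedAddCommGroup E'] [NormedSpace ℝ E']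
    {M : Type*} [TopologicalSpace M] [ChartedSpace E' M] (Ω : TwoForm E X) (f : M → X) : Prop :=
  ∀ (p : M) (v w : TangentSpace 𝓘(ℝ, E') p), Ω.val (f p) (tmap E' E f p v) (tmap E' E f p w) = 0

/-- A Lagrangian embedding of a manifold `M`, modelled on `E'`, in `(X, Ω)`, modelled on `E`: the
dimension of `X` is twice that of `M`, and the map is of class `C^∞`, a topological embedding, has
injective differential everywhere, and pulls `Ω` back to zero. -/
structure IsLagrangianEmbedding (E' : Type*) [NormedAddCommGroup E'] [NormedSpace ℝ E']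
    {M : Type*} [TopologicalSpace M] [ChartedSpace E' M] (Ω : TwoForm E X) (f : M → X) : Prop where
  finrank_eq : Module.finrank ℝ E = 2 * Module.finrank ℝ E'
  contMDiff : ContMDiff 𝓘(ℝ, E') 𝓘(ℝ, E) ∞ f
  isEmbedding : Topology.IsEmbedding f
  injective_tmap : ∀ p, Function.Injective (tmap E' E f p)
  pullsBackToZero : PullsBackToZero E' Ω f

end Embeddings

/-- The standard unit sphere `S^n ⊂ ℝ^(n+1)`. -/
abbrev StdSphere (n : ℕ) : Type := Metric.sphere (0 : EuclideanSpace ℝ (Fin (n + 1))) 1

/-- `L` is a Lagrangian `n`-sphere in `(X, Ω)`: it is the image of the standard unit sphere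
`S^n ⊂ ℝ^(n+1)` under a Lagrangian embedding. -/
def IsLagrangianSphere {E : Type*} [NormedAddCommGroup E] [NormedSpace ℝ E]
    {X : Type*} [TopologicalSpace X] [ChartedSpace E X] (Ω : TwoForm E X) (n : ℕ)
    (L : Set X) : Prop :=
  ∃ f : StdSphere n → X, IsLagrangianEmbedding (EuclideanSpace ℝ (Fin n)) Ω f ∧ range f = L

end Pool.Agent.Lib.P89d91e
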