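import Pool.Agent.Lib.P89d91e.SphereLemma

open Set Filter Topology
open scoped ContDiff Manifold RealInnerProductSpace

namespace Pool.Agent.Lib.P89d91e

variable {E E' : Type*} [NormedAddCommGroup E] [NormedSpace ℝ E]
  [NormedAddCommGroup E'] [NormedSpace ℝ E'] {X : Type*}

/-- Transport of a bilinear form by a linear equivalence. -/
noncomputable def mapB (B : E →L[ℝ] E →L[ℝ] ℝ) (φ : E ≃L[ℝ] E') : E' →L[ℝ] E' →L[ℝ] ℝ :=
  B.bilinearComp (φ.symm : E' →L[ℝ] E) (φ.symm : E' →L[ℝ] E)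

theorem mapB_apply (B : E →L[ℝ] E →L[ℝ] ℝ) (φ : E ≃L[ℝ] E') (v w : E') :
    mapB B φ v w = B (φ.symm v) (φ.symm w) := by
  simp [mapB]

theorem mapB_self {B : E →L[ℝ] E →L[ℝ] ℝ} (φ : E ≃L[ℝ] E') (hB : ∀ v, B v v = 0) (v : E') :
    mapB B φ v v = 0 := by
  rw [mapB_apply, hB]

theorem mapB_nondeg {B : E →L[ℝ] E →L[ℝ] ℝ} (φ : E ≃L[ℝ] E')
    (hB : ∀ v, (∀ w, B v w = 0) → v = 0) (v : E') (h : ∀ w, mapB B φ v w = 0) : v = 0 := by
  have h1 : φ.symm v = 0 := by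
    apply hB
    intro w
    have := h (φ w)
    rwa [mapB_apply, φ.symm_apply_apply] at this
  have := congrArg φ h1
  simpa using this

theorem Compat.map {B : E →L[ℝ] E →L[ℝ] ℝ} (φ : E ≃L[ℝ] E') {κ κ' : E → X} {u v : E}
    (h : Compat B κ u κ' v) : Compat (mapB B φ) (κ ∘ φ.symm) (φ u) (κ' ∘ φ.symm) (φ v) := by
  obtain ⟨g, W, hW, hu, hg, hgs, hc, hB⟩ := h
  refine ⟨φ ∘ g ∘ φ.symm, φ.symm ⁻¹' W, hW.preimage φ.symm.continuous, by simpa using hu,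
    by simp [hg], ?_, ?_, ?_⟩
  · exact φ.contDiff.comp_contDiffOn (hgs.comp φ.symm.contDiff.contDiffOn (fun x hx => hx))
  · intro x hx
    simpa using hc _ hx
  · intro x hx a b
    have h1 : HasFDerivAt g (fderiv ℝ g (φ.symm x)) (φ.symm x) :=
      ((hgs.contDiffAt (hW.mem_nhds hx)).differentiableAt (by simp)).hasFDerivAt
    have h2 : HasFDerivAt (φ ∘ g ∘ φ.symm) ((φ : E →L[ℝ] E').comp
        ((fderiv ℝ g (φ.symm x)).comp (φ.symm : E' →L[ℝ] E))) x :=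
      φ.hasFDerivAt.comp x (h1.comp x φ.symm.hasFDerivAt)
    rw [h2.fderiv, mapB_apply, mapB_apply]
    simpa using hB _ hx (φ.symm a) (φ.symm b)

namespace SympAtlas

variable {B : E →L[ℝ] E →L[ℝ] ℝ} (A : SympAtlas B X)

/-- Transport of an atlas by a linear equivalence of the model spaces. -/
noncomputable def map (φ : E ≃L[ℝ] E') : SympAtlas (mapB B φ) X where
  ι := A.ι
  U i := φ.symm ⁻¹' A.U i
  κ i := A.κ i ∘ φ.symm
  isOpen_U i := (A.isOpen_U i).preimage φ.symm.continuous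
  inj i := fun u hu v hv h => φ.symm.injective (A.inj i hu hv h)
  cover x := by
    obtain ⟨i, u, hu, hx⟩ := A.cover x
    exact ⟨i, φ u, by simpa using hu, by simpa using hx⟩
  compat i j u v hu hv h := by
    have := (A.compat i j (φ.symm u) (φ.symm v) hu hv h).map φ
    simpa using this

theorem isOpen_iff (W : Set X) : IsOpen[A.top] W ↔ ∀ i, IsOpen (A.U i ∩ A.κ i ⁻¹' W) := by
  let _ := A.top
  constructor
  · intro h i
    exact (A.continuousOn_κ i).isOpen_inter_preimage (A.isOpen_U i) h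
  · intro h
    have : W = ⋃ i, A.κ i '' (A.U i ∩ A.κ i ⁻¹' W) := by
      ext x
      simp only [mem_iUnion]
      constructor
      · intro hx
        obtain ⟨i, u, hu, rfl⟩ := A.cover x
        exact ⟨i, u, ⟨hu, hx⟩, rfl⟩
      · rintro ⟨i, u, ⟨-, hu⟩, rfl⟩
        exact hu
    rw [this]
    exact isOpen_iUnion fun i => A.isOpen_image i (h i) inter_subset_left

theorem map_top (φ : E ≃L[ℝ] E') : (A.map φ).top = A.top := by
  refine TopologicalSpace.ext_iff.2 fun W => ?_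
  rw [isOpen_iff, isOpen_iff]
  refine forall_congr' fun i => ?_
  have h1 : (A.map φ).U i ∩ (A.map φ).κ i ⁻¹' W = φ.symm ⁻¹' (A.U i ∩ A.κ i ⁻¹' W) := rfl
  rw [h1]
  exact φ.symm.toHomeomorph.isOpen_preimage

variable {n : ℕ}

/-- Local lift of a map from the sphere, which is an isotropic immersion. -/
def LiftAt (f : Metric.sphere (0 : EuclideanSpace ℝ (Fin (n + 1))) 1 → X)
    (p : Metric.sphere (0 : EuclideanSpace ℝ (Fin (n + 1))) 1) : Prop :=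
  ∃ (i : A.ι) (G : EuclideanSpace ℝ (Fin (n + 1)) → E), ContDiffAt ℝ ∞ G p ∧ G p ∈ A.U i ∧
    (∀ᶠ w in 𝓝 (p : EuclideanSpace ℝ (Fin (n + 1))),
      ∀ hw : w ∈ Metric.sphere (0 : EuclideanSpace ℝ (Fin (n + 1))) 1,
        A.κ i (G w) = f ⟨w, hw⟩) ∧
    ∃ L : EuclideanSpace ℝ (Fin (n + 1)) →L[ℝ] E, HasFDerivAt G L p ∧
      (∀ v w : EuclideanSpace ℝ (Fin (n + 1)),
        ⟪(p : EuclideanSpace ℝ (Fin (n + 1))), v⟫ = 0 →
        ⟪(p : EuclideanSpace ℝ (Fin (n + 1))), w⟫ = 0 → B (L v) (L w) = 0) ∧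
      ∀ v : EuclideanSpace ℝ (Fin (n + 1)), ⟪(p : EuclideanSpace ℝ (Fin (n + 1))), v⟫ = 0 →
        L v = 0 → v = 0

theorem LiftAt.map {A : SympAtlas B X}
    {f : Metric.sphere (0 : EuclideanSpace ℝ (Fin (n + 1))) 1 → X}
    {p : Metric.sphere (0 : EuclideanSpace ℝ (Fin (n + 1))) 1} (h : A.LiftAt f p)
    (φ : E ≃L[ℝ] E') : (A.map φ).LiftAt f p := by
  obtain ⟨i, G, h1, h2, h3, L, h4, h5, h6⟩ := h
  refine ⟨i, φ ∘ G, φ.contDiff.contDiffAt.comp _ h1, ?_, ?_,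
    (φ : E →L[ℝ] E').comp L, φ.hasFDerivAt.comp _ h4, ?_, ?_⟩
  · show φ.symm (φ (G p)) ∈ A.U i
    rwa [φ.symm_apply_apply]
  · filter_upwards [h3] with w hw hw'
    show A.κ i (φ.symm (φ (G w))) = _
    rw [φ.symm_apply_apply]
    exact hw hw'
  · intro v w hv hw
    rw [mapB_apply]
    simpa using h5 v w hv hw
  · intro v hv hL
    apply h6 v hv
    have := congrArg φ.symm hL
    simpa using this

/-- Conversion of a lift in a general local parametrisation to a lift in any chart. -/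
theorem liftAt_of_compat (hBn : ∀ v, (∀ w, B v w = 0) → v = 0)
    {f : Metric.sphere (0 : EuclideanSpace ℝ (Fin (n + 1))) 1 → X}
    {p : Metric.sphere (0 : EuclideanSpace ℝ (Fin (n + 1))) 1} {κ : E → X}
    {G : EuclideanSpace ℝ (Fin (n + 1)) → E} {i : A.ι} {v : E} (hv : v ∈ A.U i)
    (hcomp : Compat B κ (G p) (A.κ i) v) (h1 : ContDiffAt ℝ ∞ G p)
    (h3 : ∀ᶠ w in 𝓝 (p : EuclideanSpace ℝ (Fin (n + 1))),
      ∀ hw : w ∈ Metric.sphere (0 : EuclideanSpace ℝ (Fin (n + 1))) 1, κ (G w) = f ⟨w, hw⟩)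
    {L : EuclideanSpace ℝ (Fin (n + 1)) →L[ℝ] E} (h4 : HasFDerivAt G L p)
    (h5 : ∀ v w : EuclideanSpace ℝ (Fin (n + 1)),
      ⟪(p : EuclideanSpace ℝ (Fin (n + 1))), v⟫ = 0 →
      ⟪(p : EuclideanSpace ℝ (Fin (n + 1))), w⟫ = 0 → B (L v) (L w) = 0)
    (h6 : ∀ v : EuclideanSpace ℝ (Fin (n + 1)), ⟪(p : EuclideanSpace ℝ (Fin (n + 1))), v⟫ = 0 →
      L v = 0 → v = 0) :
    ∃ (G' : EuclideanSpace ℝ (Fin (n + 1)) → E), ContDiffAt ℝ ∞ G' p ∧ G' p ∈ A.U i ∧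
    (∀ᶠ w in 𝓝 (p : EuclideanSpace ℝ (Fin (n + 1))),
      ∀ hw : w ∈ Metric.sphere (0 : EuclideanSpace ℝ (Fin (n + 1))) 1,
        A.κ i (G' w) = f ⟨w, hw⟩) ∧
    ∃ L' : EuclideanSpace ℝ (Fin (n + 1)) →L[ℝ] E, HasFDerivAt G' L' p ∧
      (∀ v w : EuclideanSpace ℝ (Fin (n + 1)),
        ⟪(p : EuclideanSpace ℝ (Fin (n + 1))), v⟫ = 0 →
        ⟪(p : EuclideanSpace ℝ (Fin (n + 1))), w⟫ = 0 → B (L' v) (L' w) = 0) ∧
      ∀ v : EuclideanSpace ℝ (Fin (n + 1)), ⟪(p : EuclideanSpace ℝ (Fin (n + 1))), v⟫ = 0 →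
        L' v = 0 → v = 0 := by
  obtain ⟨g, W, hW, hu, hg, hgs, hc, hB⟩ := hcomp
  have hgc : ContDiffAt ℝ ∞ g (G p) := hgs.contDiffAt (hW.mem_nhds hu)
  have hgd : HasFDerivAt g (fderiv ℝ g (G p)) (G p) :=
    (hgc.differentiableAt (by simp)).hasFDerivAt
  refine ⟨g ∘ G, hgc.comp _ h1, ?_, ?_, (fderiv ℝ g (G p)).comp L, hgd.comp _ h4, ?_, ?_⟩
  · rw [Function.comp_apply, hg]; exact hv
  · have h7 : ∀ᶠ w in 𝓝 (p : EuclideanSpace ℝ (Fin (n + 1))), G w ∈ W :=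
      h1.continuousAt.eventually (hW.mem_nhds hu)
    filter_upwards [h3, h7] with w hw hw7 hw'
    rw [Function.comp_apply, hc _ hw7]
    exact hw hw'
  · intro a b ha hb
    rw [ContinuousLinearMap.comp_apply, ContinuousLinearMap.comp_apply, hB _ hu]
    exact h5 a b ha hb
  · intro a ha hL
    apply h6 a ha
    apply hBn
    intro b
    rw [← hB _ hu (L a) b]
    rw [ContinuousLinearMap.comp_apply] at hL
    rw [hL]
    simp

/-- The Lagrangian sphere lemma. -/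
theorem isLagrangianSphere_of_lift [FiniteDimensional ℝ E] (hB : ∀ v, B v v = 0)
    (hBn : ∀ v, (∀ w, B v w = 0) → v = 0)
    (hn : Module.finrank ℝ E = 2 * n) (hT2 : @T2Space X A.top)
    (f : Metric.sphere (0 : EuclideanSpace ℝ (Fin (n + 1))) 1 → X)
    (hinj : Function.Injective f) (hlift : ∀ p, A.LiftAt f p) :
    @IsLagrangianSphere E _ _ X A.top A.charted (A.form hB) n (range f) := by
  let _ := A.top
  let _ := A.charted
  have key : ∀ p, ContMDiffAt (𝓡 n) 𝓘(ℝ, E) ∞ f p ∧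
      Function.Injective (mfderiv (𝓡 n) 𝓘(ℝ, E) f p) ∧
      (∀ (v w : TangentSpace (𝓡 n) p),
      A.form hB (f p) ![mfderiv (𝓡 n) 𝓘(ℝ, E) f p v, mfderiv (𝓡 n) 𝓘(ℝ, E) f p w] = 0) := by
    intro p
    obtain ⟨i, G, h1, h2, h3, L, h4, h5, h6⟩ := hlift p
    obtain ⟨v, hv, hvp⟩ := A.idx_spec (f p)
    have hp : A.κ i (G p) = f p := h3.self_of_nhds p.2
    have hcomp : Compat B (A.κ i) (G p) (A.κ (A.idx (f p))) v :=
      A.compat _ _ _ _ h2 hv (by rw [hp, hvp])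
    obtain ⟨G', g1, g2, g3, L', g4, g5, g6⟩ :=
      A.liftAt_of_compat hBn hv hcomp h1 h3 h4 h5 h6
    refine A.lagrangian_at hB hBn f p G' g1 g2 g3 ?_ ?_
    · intro v hv hL
      rw [g4.fderiv] at hL
      exact g6 v hv hL
    · intro v w hv hw
      rw [g4.fderiv]
      exact g5 v w hv hw
  have hcont : Continuous f := continuous_iff_continuousAt.2 fun p => (key p).1.continuousAt
  refine ⟨f, ⟨?_, fun p => (key p).1, (hcont.isClosedEmbedding hinj).isEmbedding,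
    fun p => (key p).2.1, fun p => (key p).2.2⟩, rfl⟩
  rw [hn]; simp

end SympAtlas

end Pool.Agent.Lib.P89d91e
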