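import Pool.Agent.Lib.P89d91e.Sph
import Pool.Agent.Lib.P89d91e.CompactX
import Pool.Agent.Lib.P89d91e.Transport
import Pool.Agent.Lib.P89d91e.Conn

open Set Filter Topology
open scoped ContDiff Manifold ComplexConjugate RealInnerProductSpace

namespace Pool.Agent.Lib.P89d91e

/-- Four real coordinates as two complex ones. -/
noncomputable def Zl : EuclideanSpace ℝ (Fin 4) →ₗ[ℝ] ℂ × ℂ where
  toFun x := (⟨x 0, x 1⟩, ⟨x 2, x 3⟩)
  map_add' x y := by
    refine Prod.ext ?_ ?_ <;> apply Complex.ext <;> simp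
  map_smul' r x := by
    refine Prod.ext ?_ ?_ <;> apply Complex.ext <;> simp

/-- Four real coordinates as two complex ones. -/
noncomputable def Zc : EuclideanSpace ℝ (Fin 4) →L[ℝ] ℂ × ℂ := LinearMap.toContinuousLinearMap Zl

theorem Zc_apply (x : EuclideanSpace ℝ (Fin 4)) : Zc x = (⟨x 0, x 1⟩, ⟨x 2, x 3⟩) := rfl

theorem Zc_norm (x : EuclideanSpace ℝ (Fin 4)) : ‖(Zc x).1‖ ^ 2 + ‖(Zc x).2‖ ^ 2 = ‖x‖ ^ 2 := by
  rw [EuclideanSpace.norm_sq_eq, Fin.sum_univ_four, ← sq_re_im, ← sq_re_im, Zc_apply]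
  simp only [Real.norm_eq_abs, sq_abs]
  ring

theorem Zc_inner (x y : EuclideanSpace ℝ (Fin 4)) :
    (conj (Zc x).1 * (Zc y).1 + conj (Zc x).2 * (Zc y).2).re = ⟪x, y⟫ := by
  rw [PiLp.inner_apply, Fin.sum_univ_four, Zc_apply, Zc_apply]
  simp
  ring

theorem Zc_inj {x y : EuclideanSpace ℝ (Fin 4)} (h : Zc x = Zc y) : x = y := by
  have h1 : Zc (x - y) = 0 := by rw [map_sub, h, sub_self]
  have h2 := Zc_norm (x - y)
  rw [h1] at h2
  have h3 : ‖x - y‖ ^ 2 = 0 := by rw [← h2]; simp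
  have h4 : ‖x - y‖ = 0 := by simpa using h3
  exact sub_eq_zero.1 (norm_eq_zero.1 h4)

/-- The `m`-th sphere, as a map from the standard sphere. -/
noncomputable def sphMap (m : ℕ) (p : Metric.sphere (0 : EuclideanSpace ℝ (Fin 4)) 1) : X :=
  sph m (Zc p)

theorem unit_Zc {x : EuclideanSpace ℝ (Fin 4)}
    (hx : x ∈ Metric.sphere (0 : EuclideanSpace ℝ (Fin 4)) 1) :
    ‖(Zc x).1‖ ^ 2 + ‖(Zc x).2‖ ^ 2 = 1 := by
  rw [Zc_norm, mem_sphere_zero_iff_norm.1 hx]; norm_num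

theorem sphMap_inj (m : ℕ) : Function.Injective (sphMap m) := by
  intro p q h
  exact Subtype.ext (Zc_inj (sph_inj m (unit_Zc p.2) (unit_Zc q.2) h))

theorem sphMap_lift (m : ℕ) (p : Metric.sphere (0 : EuclideanSpace ℝ (Fin 4)) 1) :
    atl.LiftAt (n := 3) (sphMap m) p := by
  obtain ⟨κ, G, h1, h2, h3, L, h4, h5, h6⟩ := lift_sph m (unit_Zc p.2)
  obtain ⟨i, v, hv, hvp⟩ := Ix.cover (sphMap m p)
  have hp : κ (G (Zc p)) = sphMap m p := h3.self_of_nhds (unit_Zc p.2)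
  have hcomp : Compat B κ (G (Zc p)) i.κ v := h1.compat (i.par hv) (by rw [hp, hvp])
  have hZ : ContDiffAt ℝ ∞ Zc (p : EuclideanSpace ℝ (Fin 4)) := Zc.contDiff.contDiffAt
  refine ⟨i, atl.liftAt_of_compat (n := 3) (κ := κ) (G := fun x => G (Zc x)) (i := i) B_nondeg hv
    hcomp (h2.comp _ hZ) ?_ (L := L.comp Zc) (h4.comp _ Zc.hasFDerivAt) ?_ ?_⟩
  · have h7 := (Zc.continuous.tendsto (p : EuclideanSpace ℝ (Fin 4))).eventually h3
    filter_upwards [h7] with w hw hw'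
    exact hw (unit_Zc hw')
  · intro v w _ _
    exact h5 _ _
  · intro v hv hL
    have h8 := h6 (Zc v) (by rw [Zc_inner]; exact hv) hL
    exact Zc_inj (by rw [h8, map_zero])

/-- The model space is linearly equivalent to `ℝ⁶`. -/
noncomputable def φ6 : Pt ≃L[ℝ] EuclideanSpace ℝ (Fin 6) :=
  ContinuousLinearEquiv.ofFinrankEq (by simp)

/-- The atlas modelled on `ℝ⁶`. -/
noncomputable def atl6 : SympAtlas (mapB B φ6) X := atl.map φ6

theorem atl6_top : atl6.top = instTopX := atl.map_top φ6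

theorem final :
    ∃ (X : Type) (_ : TopologicalSpace X) (_ : ChartedSpace (EuclideanSpace ℝ (Fin 6)) X)
      (Ω : TwoForm (EuclideanSpace ℝ (Fin 6)) X) (L : ℕ → Set X),
      IsManifold (𝓡 6) ∞ X ∧ T2Space X ∧ SecondCountableTopology X ∧ CompactSpace X ∧
      ConnectedSpace X ∧ IsSymplecticForm Ω ∧ (∀ m, IsLagrangianSphere Ω 3 (L m)) ∧
      ∀ m k, m ≠ k → Disjoint (L m) (L k) := by
  have hT2 : @T2Space X atl6.top := by
    rw [atl6_top]
    exact instT2X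
  have hC : @CompactSpace X atl6.top := by
    rw [atl6_top]
    exact instCompactX
  have hCo : @ConnectedSpace X atl6.top := by
    rw [atl6_top]
    exact instConnectedX
  refine ⟨X, atl6.top, atl6.charted, atl6.form (mapB_self φ6 B_self), fun m => range (sphMap m),
    atl6.isManifold, hT2, ?_, hC, hCo, atl6.isSymplecticForm _ (mapB_nondeg φ6 B_nondeg), ?_, ?_⟩
  · exact @ChartedSpace.secondCountable_of_sigmaCompact (EuclideanSpace ℝ (Fin 6)) X _ atl6.top
      atl6.charted _ (@CompactSpace.sigmaCompact X atl6.top hC)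
  · intro m
    exact atl6.isLagrangianSphere_of_lift _ (mapB_nondeg φ6 B_nondeg) (by simp) hT2 (sphMap m)
      (sphMap_inj m) (fun p => (sphMap_lift m p).map φ6)
  · intro m k hmk
    rw [Set.disjoint_left]
    rintro _ ⟨p, rfl⟩ ⟨q, hq⟩
    exact hmk (sph_disjoint (unit_Zc q.2) (unit_Zc p.2) hq).symm

end Pool.Agent.Lib.P89d91e
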