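import Pool.Agent.Lib.P89d91e.Cap2

open Set Filter Topology
open scoped ContDiff

namespace Pool.Agent.Lib.P89d91e

theorem exp_Ab' {y0 y : ℂ} (h0 : y0 ≠ 0) (h : y ≠ 0) :
    Complex.exp (Ab y0 y * Complex.I) = ex y := exp_Ab h0 h

theorem hasFDerivAt_expAb {y0 : ℂ} (h : y0 ≠ 0) : ∃ L : ℂ →L[ℝ] ℂ,
    HasFDerivAt (fun y => Complex.exp (Ab y0 y * Complex.I)) L y0 ∧
    ∀ v, L v = ex y0 * Complex.I * ((v / y0).im : ℝ) := by
  obtain ⟨LA, h1, h2⟩ := hasFDerivAt_Ab h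
  have h3 : HasDerivAt (fun t : ℝ => Complex.exp (t * Complex.I))
      (Complex.exp (Ab y0 y0 * Complex.I) * (1 * Complex.I)) (Ab y0 y0) :=
    ((Complex.ofRealCLM.hasDerivAt (x := Ab y0 y0)).mul_const Complex.I).cexp
  have h4 := HasFDerivAt.comp y0 h3.hasFDerivAt h1
  refine ⟨_, h4, ?_⟩
  intro v
  simp [h2, exp_Ab' h h]
  ring

theorem capS_lift {σ c : ℝ} (hσ : σ = 1 ∨ σ = -1) {x0 y0 : ℂ} (hy : y0 ≠ 0)
    (hx : ‖x0‖ ^ 2 ≤ 1 / 4) :
    ∃ (κ : Pt → X) (G : ℂ × ℂ → Pt), Par κ (G (x0, y0)) ∧ ContDiffAt ℝ ∞ G (x0, y0) ∧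
      (∀ᶠ w in 𝓝 (x0, y0), κ (G w) = capS σ c w.1 w.2) ∧
      ∃ L : ℂ × ℂ →L[ℝ] Pt, HasFDerivAt G L (x0, y0) ∧ (∀ v w, B (L v) (L w) = 0) ∧
        ∀ v, L v = 0 → v.1 = 0 ∧ (v.2 / y0).im = 0 := by
  have hσ0 : σ ≠ 0 := by rcases hσ with rfl | rfl <;> norm_num
  have him : |(pc (Zs σ (x0 * ex y0))).im| < 1 := by
    have := im_small ((cap_im hσ (cos_pc (Zs σ (x0 * ex y0)))).trans hx)
    linarith
  obtain ⟨κ, φ, hφ, ⟨φ', hφ0, hφ'⟩, hPar, hcap⟩ := cap_lift him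
  rw [cos_pc] at hφ hφ' hPar hcap
  have hU0 : x0 * Complex.exp (Ab y0 y0 * Complex.I) = x0 * ex y0 := by rw [exp_Ab' hy hy]
  -- smoothness of the pieces
  have sA : ContDiffAt ℝ ∞ (fun w : ℂ × ℂ => Ab y0 w.2) (x0, y0) :=
    ContDiffAt.comp (x0, y0) (g := Ab y0) (f := Prod.snd) (contDiffAt_Ab hy) contDiffAt_snd
  have sAc : ContDiffAt ℝ ∞ (fun w : ℂ × ℂ => (Ab y0 w.2 : ℂ) * Complex.I) (x0, y0) :=
    (Complex.ofRealCLM.contDiff.contDiffAt.comp (x0, y0) sA).mul contDiffAt_const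
  have sE : ContDiffAt ℝ ∞ (fun w : ℂ × ℂ => Complex.exp (Ab y0 w.2 * Complex.I)) (x0, y0) :=
    sAc.cexp
  have sU : ContDiffAt ℝ ∞ (fun w : ℂ × ℂ => w.1 * Complex.exp (Ab y0 w.2 * Complex.I))
      (x0, y0) := contDiffAt_fst.mul sE
  have sZ : ContDiffAt ℝ ∞ (fun w : ℂ × ℂ => Zs σ (w.1 * Complex.exp (Ab y0 w.2 * Complex.I)))
      (x0, y0) :=
    ContDiffAt.comp (x0, y0) (g := Zs σ) (contDiff_Zs σ).contDiffAt sU
  have sφ : ContDiffAt ℝ ∞
      (fun w : ℂ × ℂ => φ (Zs σ (w.1 * Complex.exp (Ab y0 w.2 * Complex.I)))) (x0, y0) := by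
    refine ContDiffAt.comp (x0, y0) (g := φ) ?_ sZ
    simp only [hU0]
    exact hφ
  -- derivatives of the pieces
  obtain ⟨LA, dA, dA'⟩ := hasFDerivAt_Ab hy
  obtain ⟨LE, dE, dE'⟩ := hasFDerivAt_expAb hy
  have dA2 : HasFDerivAt (fun w : ℂ × ℂ => Ab y0 w.2) (LA.comp (ContinuousLinearMap.snd ℝ ℂ ℂ))
      (x0, y0) := HasFDerivAt.comp (x0, y0) (g := Ab y0) (f := Prod.snd) dA hasFDerivAt_snd
  have dE2 : HasFDerivAt (fun w : ℂ × ℂ => Complex.exp (Ab y0 w.2 * Complex.I))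
      (LE.comp (ContinuousLinearMap.snd ℝ ℂ ℂ)) (x0, y0) :=
    HasFDerivAt.comp (x0, y0) (g := fun y => Complex.exp (Ab y0 y * Complex.I)) (f := Prod.snd)
      dE hasFDerivAt_snd
  have dU := (hasFDerivAt_fst (𝕜 := ℝ) (p := (x0, y0))).mul dE2
  have dZ : HasFDerivAt (Zs σ) (fderiv ℝ (Zs σ) (x0 * Complex.exp (Ab y0 y0 * Complex.I)))
      (x0 * Complex.exp (Ab y0 y0 * Complex.I)) :=
    (((contDiff_Zs σ).differentiable (by simp)) _).hasFDerivAt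
  have dZ2 := HasFDerivAt.comp (x0, y0) (g := Zs σ)
    (f := fun w : ℂ × ℂ => w.1 * Complex.exp (Ab y0 w.2 * Complex.I)) dZ dU
  have dφ : HasFDerivAt φ ((ContinuousLinearMap.toSpanSingleton ℂ φ').restrictScalars ℝ)
      (Zs σ (x0 * Complex.exp (Ab y0 y0 * Complex.I))) := by
    rw [hU0]
    exact hφ'.hasFDerivAt.restrictScalars ℝ
  have dφ2 := HasFDerivAt.comp (x0, y0) (g := φ)
    (f := fun w : ℂ × ℂ => Zs σ (w.1 * Complex.exp (Ab y0 w.2 * Complex.I))) dφ dZ2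
  have dS := dA2.const_mul (-σ / Real.pi)
  refine ⟨κ, fun w => (φ (Zs σ (w.1 * Complex.exp (Ab y0 w.2 * Complex.I))), 0, c,
    -σ / Real.pi * Ab y0 w.2), ?_, ?_, ?_, ?_⟩
  · simp only [hU0]
    exact hPar _ _
  · exact sφ.prodMk (contDiffAt_const.prodMk (contDiffAt_const.prodMk (contDiffAt_const.mul sA)))
  · have e1 : ∀ᶠ w in 𝓝 (x0, y0), w.2 ≠ 0 :=
      (continuousAt_snd (p := (x0, y0))).eventually_ne hy
    have e2 : ∀ᶠ w in 𝓝 (x0, y0), ∀ c s,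
        κ (φ (Zs σ (w.1 * Complex.exp (Ab y0 w.2 * Complex.I))), 0, c, s) =
          cap (Zs σ (w.1 * Complex.exp (Ab y0 w.2 * Complex.I))) c s := by
      have h5 := sZ.continuousAt.tendsto
      simp only [hU0] at h5
      exact h5.eventually hcap
    filter_upwards [e1, e2] with w h1 h2
    rw [h2, capS, exp_Ab' hy h1]
    obtain ⟨l, hl⟩ := Ab_eq hy h1
    have hpi := Real.pi_ne_zero
    rcases hσ with rfl | rfl
    · rw [hl, ← cap_add _ _ _ l]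
      congr 1
      field_simp
      ring
    · rw [hl, ← cap_add _ _ _ (-l)]
      congr 1
      push_cast
      field_simp
      ring
  · refine ⟨_, dφ2.prodMk ((hasFDerivAt_const (0 : ℂ) (x0, y0)).prodMk
      ((hasFDerivAt_const c (x0, y0)).prodMk dS)), ?_, ?_⟩
    · intro v w
      rw [B_apply]
      simp
    · intro v hv
      have h1 := congrArg (fun P : Pt => P.2.2.2) hv
      have h2 := congrArg (fun P : Pt => P.1) hv
      simp only [ContinuousLinearMap.prod_apply, ContinuousLinearMap.comp_apply,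
        smul_apply, ContinuousLinearMap.coe_snd', dA', smul_eq_mul,
        Prod.snd_zero] at h1
      have h3 : (v.2 / y0).im = 0 := by
        rcases mul_eq_zero.1 h1 with h | h
        · exact absurd h (div_ne_zero (neg_ne_zero.2 hσ0) Real.pi_ne_zero)
        · exact h
      refine ⟨?_, h3⟩
      simp [dE', h3] at h2
      rcases h2 with h2 | h2
      · have h4 := Zs_fderiv_inj hσ0 dZ h2
        rcases mul_eq_zero.1 h4 with h | h
        · exact absurd h (Complex.exp_ne_zero _)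
        · exact h
      · exact absurd h2 hφ0

end Pool.Agent.Lib.P89d91e
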