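import Pool.Agent.Lib.P89d91e.Atlas
import Pool.Agent.Lib.P89d91e.Defs

open Set Filter Topology
open scoped ContDiff Manifold

namespace Pool.Agent.Lib.P89d91e

variable {E : Type*} [NormedAddCommGroup E] [NormedSpace ℝ E] {X : Type*}

/-- The alternating 2-form attached to a bilinear form `B` with `B v v = 0`. -/
noncomputable def altOf (B : E →L[ℝ] E →L[ℝ] ℝ) (hB : ∀ v, B v v = 0) : E [⋀^Fin 2]→L[ℝ] ℝ where
  toFun v := B (v 0) (v 1)
  map_update_add' := by
    intro _ v i x y
    fin_cases i
    · simp [Function.update]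
    · simp [Function.update]
  map_update_smul' := by
    intro _ v i c x
    fin_cases i
    · simp [Function.update]
    · simp [Function.update]
  cont := by fun_prop
  map_eq_zero_of_eq' := by
    intro v i j hij hne
    have hv : v 0 = v 1 := by
      fin_cases i <;> fin_cases j <;> simp_all
    simp [hv, hB]

@[simp] theorem altOf_apply (B : E →L[ℝ] E →L[ℝ] ℝ) (hB : ∀ v, B v v = 0) (v : Fin 2 → E) :
    altOf B hB v = B (v 0) (v 1) := rfl

namespace SympAtlas

variable {B : E →L[ℝ] E →L[ℝ] ℝ} (A : SympAtlas B X)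

/-- The topology defined by the atlas. -/
@[reducible] noncomputable def top : TopologicalSpace X := A.core.toTopologicalSpace

/-- The chart of index `i`. -/
noncomputable def chart (i : A.ι) : @OpenPartialHomeomorph X E A.top _ :=
  A.core.openPartialHomeomorph (A.pe i) ⟨i, rfl⟩

/-- The index of the preferred chart at `x`. -/
noncomputable def idx (x : X) : A.ι := (A.cover x).choose

theorem idx_spec (x : X) : ∃ u ∈ A.U (A.idx x), A.κ (A.idx x) u = x := (A.cover x).choose_spec

/-- The charted space structure defined by the atlas. -/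
@[reducible] noncomputable def charted : @ChartedSpace E _ X A.top :=
  let _ := A.top
  { atlas := range A.chart
    chartAt := fun x => A.chart (A.idx x)
    mem_chart_source := fun x => A.core.mem_chart_source x
    chart_mem_atlas := fun x => mem_range_self _ }

theorem isOpen_image (i : A.ι) {W : Set E} (hW : IsOpen W) (hWU : W ⊆ A.U i) :
    IsOpen[A.top] (A.κ i '' W) := by
  let _ := A.top
  have h := (A.chart i).symm.isOpen_image_of_subset_source hW hWU
  exact h

theorem continuousOn_κ (i : A.ι) :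
    @ContinuousOn _ _ _ A.top (A.κ i) (A.U i) := by
  let _ := A.top
  exact (A.chart i).continuousOn_symm

theorem isManifold : @IsManifold ℝ _ E _ _ E _ 𝓘(ℝ, E) ∞ X A.top A.charted := by
  let _ := A.top
  let _ := A.charted
  apply isManifold_of_contDiffOn
  rintro _ _ ⟨i, rfl⟩ ⟨j, rfl⟩
  intro u hu
  have hu1 : u ∈ A.U i := hu.1.1
  have hu2 : A.κ i u ∈ A.κ j '' A.U j := hu.1.2
  obtain ⟨v, hv, hvu⟩ := hu2
  obtain ⟨g, W, hW, huW, hWU, -, hgs, h2, -⟩ := A.trans_local i j hu1 hv hvu.symm
  have hc : ContDiffAt ℝ ∞ g u := hgs.contDiffAt (hW.mem_nhds huW)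
  refine ContDiffAt.contDiffWithinAt ?_
  refine hc.congr_of_eventuallyEq ?_
  filter_upwards [hW.mem_nhds huW] with x hx
  exact (h2 x hx).2.2

/-- The derivative of the inverse of a chart preserves `B`, up to the identification of the
tangent space with `E` given by the preferred chart. -/
theorem mfderiv_chart_symm (i : A.ι) {u : E} (hu : u ∈ A.U i) :
    let _ := A.top
    let _ := A.charted
    ∃ L : E →L[ℝ] E, HasMFDerivAt 𝓘(ℝ, E) 𝓘(ℝ, E) (A.κ i) u L ∧
      ∀ a b, B (L a) (L b) = B a b := by
  intro t1 t2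
  obtain ⟨v, hv, hvu⟩ := A.idx_spec (A.κ i u)
  obtain ⟨g, W, hW, huW, hWU, hgu, hgs, h2, h3⟩ := A.trans_local i _ hu hv hvu.symm
  refine ⟨fderiv ℝ g u, ?_, h3 u huW⟩
  have hg : HasFDerivAt g (fderiv ℝ g u) u :=
    ((hgs.contDiffAt (hW.mem_nhds huW)).differentiableAt (by simp)).hasFDerivAt
  refine ⟨(A.chart i).continuousOn_symm.continuousAt ((A.isOpen_U i).mem_nhds hu), ?_⟩
  simp only [writtenInExtChartAt, extChartAt, mfld_simps]
  refine HasFDerivAt.hasFDerivWithinAt ?_
  refine hg.congr_of_eventuallyEq ?_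
  filter_upwards [hW.mem_nhds huW] with x hx
  exact (h2 x hx).2.2

end SympAtlas

end Pool.Agent.Lib.P89d91e
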