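import Pool.Agent.Lib.P89d91e.Lift

open Set Filter Topology
open scoped ContDiff ComplexConjugate

namespace Pool.Agent.Lib.P89d91e

/-! ### Height functions -/

/-- Cut-off between the two ends. -/
noncomputable def χf (r : ℝ) : ℝ := Real.smoothTransition (2 * r - 1 / 2)

/-- Height function near the first end. -/
noncomputable def wL (r : ℝ) : ℝ := Real.arsinh (Real.sqrt r) / Real.pi

/-- Height function near the second end. -/
noncomputable def wR (r : ℝ) : ℝ := 1 - Real.arsinh (Real.sqrt (1 - r)) / Real.pi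

/-- Height function. -/
noncomputable def wf (r : ℝ) : ℝ := (1 - χf r) * wL r + χf r * wR r

theorem χf_mono : Monotone χf := by
  intro a b h
  exact Real.smoothTransition.monotone (by linarith)

theorem χf_nonneg (r : ℝ) : 0 ≤ χf r := Real.smoothTransition.nonneg _
theorem χf_le_one (r : ℝ) : χf r ≤ 1 := Real.smoothTransition.le_one _

theorem χf_zero {r : ℝ} (h : r ≤ 1 / 4) : χf r = 0 :=
  Real.smoothTransition.zero_of_nonpos (by linarith)

theorem χf_one {r : ℝ} (h : 3 / 4 ≤ r) : χf r = 1 :=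
  Real.smoothTransition.one_of_one_le (by linarith)

theorem contDiff_χf : ContDiff ℝ ∞ χf := by
  have : ContDiff ℝ ∞ Real.smoothTransition := Real.smoothTransition.contDiff
  unfold χf
  fun_prop

theorem arsinh_le_self {x : ℝ} (h : 0 ≤ x) : Real.arsinh x ≤ x := by
  have h1 : Real.arsinh x ≤ Real.sinh (Real.arsinh x) :=
    Real.self_le_sinh_iff.2 (Real.arsinh_nonneg_iff.2 h)
  rwa [Real.sinh_arsinh] at h1

theorem wL_nonneg (r : ℝ) : 0 ≤ wL r :=
  div_nonneg (Real.arsinh_nonneg_iff.2 (Real.sqrt_nonneg r)) Real.pi_pos.le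

theorem wL_pos {r : ℝ} (h : 0 < r) : 0 < wL r :=
  div_pos (Real.arsinh_pos_iff.2 (Real.sqrt_pos.2 h)) Real.pi_pos

theorem wL_lt {r : ℝ} (h : r ≤ 1) : wL r < 1 / 2 := by
  have h1 : Real.arsinh (Real.sqrt r) ≤ 1 :=
    (arsinh_le_self (Real.sqrt_nonneg r)).trans (Real.sqrt_le_one.2 h)
  rw [wL, div_lt_iff₀ Real.pi_pos]
  have := Real.pi_gt_three
  linarith

theorem wR_eq (r : ℝ) : wR r = 1 - wL (1 - r) := rfl

theorem wL_lt_wR {r : ℝ} (h0 : 0 ≤ r) (h1 : r ≤ 1) : wL r < wR r := by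
  have := wL_lt h1
  have := wL_lt (r := 1 - r) (by linarith)
  rw [wR_eq]
  linarith

theorem wL_mono {r r' : ℝ} (h0 : 0 ≤ r) (h : r < r') : wL r < wL r' := by
  refine div_lt_div_of_pos_right ?_ Real.pi_pos
  exact Real.arsinh_lt_arsinh.2 (Real.sqrt_lt_sqrt h0 h)

theorem wR_mono {r r' : ℝ} (h1 : r' ≤ 1) (h : r < r') : wR r < wR r' := by
  rw [wR_eq, wR_eq]
  have := wL_mono (r := 1 - r') (r' := 1 - r) (by linarith) (by linarith)
  linarith

theorem wf_mono {r r' : ℝ} (h0 : 0 ≤ r) (h1 : r' ≤ 1) (h : r < r') : wf r < wf r' := by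
  have e1 := wL_mono h0 h
  have e2 := wR_mono h1 h
  have e3 := wL_lt_wR h0 (h.le.trans h1)
  have e4 := χf_mono h.le
  have e5 := χf_nonneg r'
  have e6 := χf_le_one r'
  have : wf r' - wf r = (1 - χf r') * (wL r' - wL r) + χf r' * (wR r' - wR r) +
      (χf r' - χf r) * (wR r - wL r) := by
    rw [wf, wf]; ring
  have g1 : 0 ≤ (χf r' - χf r) * (wR r - wL r) := mul_nonneg (by linarith) (by linarith)
  have g2 : 0 < (1 - χf r') * (wL r' - wL r) + χf r' * (wR r' - wR r) := by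
    rcases e5.eq_or_lt with h2 | h2
    · rw [← h2]; linarith
    · have : 0 < χf r' * (wR r' - wR r) := mul_pos h2 (by linarith)
      have : 0 ≤ (1 - χf r') * (wL r' - wL r) := mul_nonneg (by linarith) (by linarith)
      linarith
  linarith

theorem wf_left {r : ℝ} (h : r ≤ 1 / 4) : wf r = wL r := by
  rw [wf, χf_zero h]; ring

theorem wf_right {r : ℝ} (h : 3 / 4 ≤ r) : wf r = wR r := by
  rw [wf, χf_one h]; ring

theorem wf_pos {r : ℝ} (h0 : 0 < r) (h1 : r ≤ 1) : 0 < wf r := by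
  have := wf_mono le_rfl h1 h0
  rw [wf_left (r := 0) (by norm_num)] at this
  have := wL_nonneg 0
  linarith

theorem wf_lt_one {r : ℝ} (h0 : 0 ≤ r) (h1 : r < 1) : wf r < 1 := by
  have := wf_mono h0 le_rfl h1
  rw [wf_right (r := 1) (by norm_num), wR_eq] at this
  have := wL_nonneg (1 - 1)
  linarith

theorem hasDerivAt_wL {r : ℝ} (h : 0 < r) : ∃ w', 0 < w' ∧ HasDerivAt wL w' r := by
  have h1 : HasDerivAt Real.sqrt (1 / (2 * Real.sqrt r)) r := Real.hasDerivAt_sqrt h.ne'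
  have h2 := ((Real.hasDerivAt_arsinh (Real.sqrt r)).comp r h1).div_const Real.pi
  refine ⟨_, ?_, h2⟩
  have := Real.sqrt_pos.2 h
  have := Real.pi_pos
  positivity

theorem hasDerivAt_wR {r : ℝ} (h : r < 1) : ∃ w', 0 < w' ∧ HasDerivAt wR w' r := by
  obtain ⟨w', h1, h2⟩ := hasDerivAt_wL (r := 1 - r) (by linarith)
  have h3 : HasDerivAt (fun r : ℝ => 1 - r) (-1) r := by
    simpa using (hasDerivAt_id r).const_sub 1
  have h4 := (h2.comp r h3).const_sub 1
  refine ⟨w', h1, ?_⟩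
  have h5 : -(w' * -1) = w' := by ring
  rw [h5] at h4
  exact h4

theorem hasDerivAt_wf {r : ℝ} (h0 : 0 < r) (h1 : r < 1) : ∃ w', 0 < w' ∧ HasDerivAt wf w' r := by
  obtain ⟨a, ha, ha'⟩ := hasDerivAt_wL h0
  obtain ⟨b, hb, hb'⟩ := hasDerivAt_wR h1
  have hχ : HasDerivAt χf (deriv χf r) r := ((contDiff_χf.differentiable (by simp)) r).hasDerivAt
  have hχ0 : 0 ≤ deriv χf r := χf_mono.deriv_nonneg
  have h2 := ((hχ.const_sub 1).mul ha').add (hχ.mul hb')
  refine ⟨_, ?_, h2⟩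
  have e1 := χf_nonneg r
  have e2 := χf_le_one r
  have e3 := wL_lt_wR h0.le h1.le
  have g1 : 0 ≤ deriv χf r * (wR r - wL r) := mul_nonneg hχ0 (by linarith)
  have g2 : 0 < (1 - χf r) * a + χf r * b := by
    rcases e1.eq_or_lt with h | h
    · rw [← h]; linarith
    · have : 0 < χf r * b := mul_pos h hb
      have : 0 ≤ (1 - χf r) * a := mul_nonneg (by linarith) ha.le
      linarith
  linarith

theorem contDiffAt_wL {r : ℝ} (h : 0 < r) : ContDiffAt ℝ ∞ wL r := by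
  have h1 : ContDiffAt ℝ ∞ Real.sqrt r := Real.contDiffAt_sqrt h.ne'
  exact (h1.arsinh).div_const _

theorem contDiffAt_wR {r : ℝ} (h : r < 1) : ContDiffAt ℝ ∞ wR r := by
  have h1 : ContDiffAt ℝ ∞ (fun r : ℝ => 1 - r) r := by fun_prop
  exact contDiffAt_const.sub (ContDiffAt.comp (g := wL) r (contDiffAt_wL (by linarith)) h1)

theorem contDiffAt_wf {r : ℝ} (h0 : 0 < r) (h1 : r < 1) : ContDiffAt ℝ ∞ wf r :=
  ((contDiffAt_const.sub contDiff_χf.contDiffAt).mul (contDiffAt_wL h0)).add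
    (contDiff_χf.contDiffAt.mul (contDiffAt_wR h1))

/-! ### The middle part of the spheres -/

/-- The values of the coordinate `c` on the spheres. -/
noncomputable def cm (m : ℕ) : ℝ := -(m * β)

/-- The frame at the second end. -/
noncomputable def gm (m : ℕ) : Frame := ⟨0, 1, 0, m, 0⟩

/-- The middle part of the spheres. -/
noncomputable def midP (m : ℕ) (u : ℂ × ℂ) : Pt :=
  (((Complex.arg u.1 + Complex.arg u.2) / Real.pi : ℝ) + (wf (‖u.1‖ ^ 2) : ℝ) * Complex.I,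
    (m * χf (‖u.1‖ ^ 2) : ℝ) * Complex.I, cm m, -Complex.arg u.2 / Real.pi)

theorem not_F_of_im {P : Pt} (h0 : 0 < P.1.im) (h1 : P.1.im < 1) : ¬ F P := by
  rintro ⟨-, ⟨n, hn⟩, -, -⟩
  rw [← hn] at h0 h1
  have h2 : 0 < n := by exact_mod_cast h0
  have h3 : n < 1 := by exact_mod_cast h1
  omega

theorem midP_im (m : ℕ) (u : ℂ × ℂ) : (midP m u).1.im = wf (‖u.1‖ ^ 2) := by
  simp [midP]

theorem midP_re (m : ℕ) (u : ℂ × ℂ) :
    (midP m u).1.re = (Complex.arg u.1 + Complex.arg u.2) / Real.pi := by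
  simp [midP]

theorem not_F_midP (m : ℕ) {u : ℂ × ℂ} (h0 : 0 < ‖u.1‖ ^ 2) (h1 : ‖u.1‖ ^ 2 < 1) :
    ¬ F (midP m u) := by
  apply not_F_of_im
  · rw [midP_im]; exact wf_pos h0 h1.le
  · rw [midP_im]; exact wf_lt_one h0.le h1

theorem left_eq (m : ℕ) {u : ℂ × ℂ} (h0 : 1 / 8 ≤ ‖u.1‖ ^ 2) (h1 : ‖u.1‖ ^ 2 ≤ 1 / 4) :
    capS 1 (cm m) u.1 u.2 = fl (midP m u) := by
  have hF := not_F_midP m (u := u) (by linarith) (by linarith)
  rw [capS_polar (Or.inl rfl) h0, fl, mk_of_not_F hF none (some 0)]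
  congr 1
  rw [midP, wf_left h1, χf_zero h1, wL, Real.sqrt_sq (norm_nonneg _)]
  simp

theorem right_eq (m : ℕ) {u : ℂ × ℂ} (hu : ‖u.1‖ ^ 2 + ‖u.2‖ ^ 2 = 1) (h0 : 1 / 8 ≤ ‖u.2‖ ^ 2)
    (h1 : ‖u.2‖ ^ 2 ≤ 1 / 4) :
    fr (gm m) (capS (-1) (cm m) u.2 u.1) = fl (midP m u) := by
  have hF := not_F_midP m (u := u) (by linarith) (by linarith)
  rw [capS_polar (Or.inr rfl) h0, fl, mk_of_not_F hF none (some 0), fr_mk]
  congr 1
  have e1 : 1 - ‖u.1‖ ^ 2 = ‖u.2‖ ^ 2 := by linarith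
  have e2 : wf (‖u.1‖ ^ 2) = 1 - Real.arsinh ‖u.2‖ / Real.pi := by
    rw [wf_right (by linarith), wR, e1, Real.sqrt_sq (norm_nonneg _)]
  have hpi := Real.pi_ne_zero
  rw [midP, e2, χf_one (by linarith)]
  apply pt_ext
  · rw [act_1re]
    simp only [gm]
    simp only [Complex.add_re, Complex.mul_re, Complex.ofReal_re, Complex.ofReal_im,
      Complex.I_re, Complex.I_im]
    push_cast
    ring
  · rw [act_1im]
    simp only [gm]
    simp only [Complex.add_im, Complex.mul_im, Complex.ofReal_re, Complex.ofReal_im,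
      Complex.I_re, Complex.I_im]
    push_cast
    ring
  · rw [act_2re]
    simp [gm, cm]
  · rw [act_2im]
    simp [gm]
  · rfl
  · rw [act_s]
    simp only [gm]
    simp only [Complex.add_re, Complex.mul_re, Complex.ofReal_re, Complex.ofReal_im,
      Complex.I_re, Complex.I_im]
    push_cast
    field_simp
    ring

end Pool.Agent.Lib.P89d91e
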