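import Pool.Agent.Lib.P89d91e.Mid

open Set Filter Topology
open scoped ContDiff ComplexConjugate

namespace Pool.Agent.Lib.P89d91e

/-- Local lifts of a map from the sphere of `ℂ × ℂ`, which are isotropic immersions. -/
def Lift (f : ℂ × ℂ → X) (u : ℂ × ℂ) : Prop :=
  ∃ (κ : Pt → X) (G : ℂ × ℂ → Pt), Par κ (G u) ∧ ContDiffAt ℝ ∞ G u ∧
    (∀ᶠ w in 𝓝 u, ‖w.1‖ ^ 2 + ‖w.2‖ ^ 2 = 1 → κ (G w) = f w) ∧
    ∃ L : ℂ × ℂ →L[ℝ] Pt, HasFDerivAt G L u ∧ (∀ v w, B (L v) (L w) = 0) ∧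
      ∀ v, (conj u.1 * v.1 + conj u.2 * v.2).re = 0 → L v = 0 → v = 0

theorem Lift.congr {f g : ℂ × ℂ → X} {u : ℂ × ℂ} (h : Lift f u)
    (hfg : ∀ᶠ w in 𝓝 u, ‖w.1‖ ^ 2 + ‖w.2‖ ^ 2 = 1 → f w = g w) : Lift g u := by
  obtain ⟨κ, G, h1, h2, h3, h4⟩ := h
  refine ⟨κ, G, h1, h2, ?_, h4⟩
  filter_upwards [h3, hfg] with w g1 g2 hw
  rw [g1 hw, g2 hw]

theorem lin_zero {a v : ℂ} (ha : a ≠ 0) (h1 : (v / a).im = 0) (h2 : (conj a * v).re = 0) :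
    v = 0 := by
  have e1 : v = (v / a) * a := by field_simp
  have e2 : conj a * v = (v / a) * (Complex.normSq a : ℂ) := by
    conv_lhs => rw [e1]
    rw [← Complex.mul_conj]; ring
  rw [e2] at h2
  simp only [Complex.mul_re, Complex.ofReal_re, Complex.ofReal_im, mul_zero, sub_zero] at h2
  have h3 : Complex.normSq a ≠ 0 := fun h => ha (Complex.normSq_eq_zero.1 h)
  have h4 : (v / a).re = 0 := by
    rcases mul_eq_zero.1 h2 with h | h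
    · exact h
    · exact absurd h h3
  have h5 : v / a = 0 := Complex.ext h4 h1
  rw [e1, h5, zero_mul]

theorem lift_left (m : ℕ) {u : ℂ × ℂ} (hu : ‖u.1‖ ^ 2 + ‖u.2‖ ^ 2 = 1) (h : ‖u.1‖ ^ 2 ≤ 1 / 4) :
    Lift (fun w => capS 1 (cm m) w.1 w.2) u := by
  have hy : u.2 ≠ 0 := by
    intro h0; rw [h0, norm_zero] at hu; linarith
  obtain ⟨κ, G, h1, h2, h3, L, h4, h5, h6⟩ := capS_lift (c := cm m) (Or.inl rfl) hy h
  refine ⟨κ, G, h1, h2, ?_, L, h4, h5, ?_⟩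
  · filter_upwards [h3] with w hw _
    exact hw
  · intro v hv hL
    obtain ⟨g1, g2⟩ := h6 v hL
    rw [g1, mul_zero, zero_add] at hv
    exact Prod.ext g1 (lin_zero hy g2 hv)

theorem lift_right (m : ℕ) {u : ℂ × ℂ} (hu : ‖u.1‖ ^ 2 + ‖u.2‖ ^ 2 = 1) (h : ‖u.2‖ ^ 2 ≤ 1 / 4) :
    Lift (fun w => fr (gm m) (capS (-1) (cm m) w.2 w.1)) u := by
  have hy : u.1 ≠ 0 := by
    intro h0; rw [h0, norm_zero] at hu; linarith
  obtain ⟨κ, G, h1, h2, h3, L, h4, h5, h6⟩ := capS_lift (c := cm m) (Or.inr rfl) hy h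
  have hsw : Continuous (fun w : ℂ × ℂ => (w.2, w.1)) := by fun_prop
  refine ⟨fr (gm m) ∘ κ, fun w => G (w.2, w.1), par_fr _ h1, ?_, ?_,
    L.comp ((ContinuousLinearMap.snd ℝ ℂ ℂ).prod (ContinuousLinearMap.fst ℝ ℂ ℂ)), ?_, ?_, ?_⟩
  · exact ContDiffAt.comp (g := G) (f := fun w : ℂ × ℂ => (w.2, w.1)) u h2 (by fun_prop)
  · have := (hsw.tendsto u).eventually h3
    filter_upwards [this] with w hw _
    rw [Function.comp_apply, hw]
  · exact HasFDerivAt.comp (g := G) (f := fun w : ℂ × ℂ => (w.2, w.1)) u h4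
      (hasFDerivAt_snd.prodMk hasFDerivAt_fst)
  · intro v w
    exact h5 _ _
  · intro v hv hL
    obtain ⟨g1, g2⟩ := h6 (v.2, v.1) hL
    simp only at g1 g2
    rw [g1, mul_zero, add_zero] at hv
    exact Prod.ext (lin_zero hy g2 hv) g1

theorem hasFDerivAt_normSq1 (u : ℂ × ℂ) : ∃ L : ℂ × ℂ →L[ℝ] ℝ,
    HasFDerivAt (fun w : ℂ × ℂ => ‖w.1‖ ^ 2) L u ∧ ∀ v, L v = 2 * (conj u.1 * v.1).re := by
  have h1 : HasFDerivAt (fun w : ℂ × ℂ => w.1.re) _ u :=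
    Complex.reCLM.hasFDerivAt.comp u hasFDerivAt_fst
  have h2 : HasFDerivAt (fun w : ℂ × ℂ => w.1.im) _ u :=
    Complex.imCLM.hasFDerivAt.comp u hasFDerivAt_fst
  have h3 := (h1.mul h1).add (h2.mul h2)
  refine ⟨_, h3.congr_of_eventuallyEq (Eventually.of_forall fun w => ?_), ?_⟩
  · simp only
    rw [← sq_re_im]
    simp
    ring
  · intro v
    simp
    ring

theorem lift_mid (m : ℕ) {u : ℂ × ℂ} (h0 : 0 < ‖u.1‖ ^ 2) (h1 : ‖u.1‖ ^ 2 < 1)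
    (hu : ‖u.1‖ ^ 2 + ‖u.2‖ ^ 2 = 1) : Lift (fun w => fl (midP m w)) u := by
  have ha : u.1 ≠ 0 := by
    intro h; rw [h] at h0; simp at h0
  have hb : u.2 ≠ 0 := by
    intro h; rw [h, norm_zero] at hu; linarith
  obtain ⟨LA, dA, dA'⟩ := hasFDerivAt_Ab ha
  obtain ⟨LB, dB, dB'⟩ := hasFDerivAt_Ab hb
  obtain ⟨LN, dN, dN'⟩ := hasFDerivAt_normSq1 u
  obtain ⟨w', hw', dw⟩ := hasDerivAt_wf h0 h1
  have dχ : HasDerivAt χf (deriv χf (‖u.1‖ ^ 2)) (‖u.1‖ ^ 2) :=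
    ((contDiff_χf.differentiable (by simp)) _).hasDerivAt
  have dA2 : HasFDerivAt (fun w : ℂ × ℂ => Ab u.1 w.1) (LA.comp (ContinuousLinearMap.fst ℝ ℂ ℂ))
      u := HasFDerivAt.comp u (g := Ab u.1) (f := Prod.fst) dA hasFDerivAt_fst
  have dB2 : HasFDerivAt (fun w : ℂ × ℂ => Ab u.2 w.2) (LB.comp (ContinuousLinearMap.snd ℝ ℂ ℂ))
      u := HasFDerivAt.comp u (g := Ab u.2) (f := Prod.snd) dB hasFDerivAt_snd
  have dW : HasFDerivAt (fun w : ℂ × ℂ => wf (‖w.1‖ ^ 2)) (w' • LN) u :=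
    HasDerivAt.comp_hasFDerivAt (h₂ := wf) (f := fun w : ℂ × ℂ => ‖w.1‖ ^ 2) u dw dN
  have dX : HasFDerivAt (fun w : ℂ × ℂ => χf (‖w.1‖ ^ 2)) (deriv χf (‖u.1‖ ^ 2) • LN) u :=
    HasDerivAt.comp_hasFDerivAt (h₂ := χf) (f := fun w : ℂ × ℂ => ‖w.1‖ ^ 2) u dχ dN
  have dO : ∀ {f : ℂ × ℂ → ℝ} {f' : ℂ × ℂ →L[ℝ] ℝ}, HasFDerivAt f f' u →
      HasFDerivAt (fun w => (f w : ℂ)) (Complex.ofRealCLM.comp f') u := fun h =>
    Complex.ofRealCLM.hasFDerivAt.comp u h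
  have d1 := dO ((dA2.add dB2).mul_const (1 / Real.pi))
  have d2 := (dO dW).mul_const Complex.I
  have d3 := (dO (dX.const_mul (m : ℝ))).mul_const Complex.I
  have d4 := dB2.const_mul (-1 / Real.pi)
  have sA : ContDiffAt ℝ ∞ (fun w : ℂ × ℂ => Ab u.1 w.1) u :=
    ContDiffAt.comp u (g := Ab u.1) (f := Prod.fst) (contDiffAt_Ab ha) contDiffAt_fst
  have sB : ContDiffAt ℝ ∞ (fun w : ℂ × ℂ => Ab u.2 w.2) u :=
    ContDiffAt.comp u (g := Ab u.2) (f := Prod.snd) (contDiffAt_Ab hb) contDiffAt_snd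
  have sN : ContDiffAt ℝ ∞ (fun w : ℂ × ℂ => ‖w.1‖ ^ 2) u :=
    (contDiff_fst.norm_sq ℝ).contDiffAt
  have sW : ContDiffAt ℝ ∞ (fun w : ℂ × ℂ => wf (‖w.1‖ ^ 2)) u :=
    ContDiffAt.comp u (g := wf) (contDiffAt_wf h0 h1) sN
  have sX : ContDiffAt ℝ ∞ (fun w : ℂ × ℂ => χf (‖w.1‖ ^ 2)) u :=
    ContDiffAt.comp u (g := χf) contDiff_χf.contDiffAt sN
  have sO : ∀ {f : ℂ × ℂ → ℝ}, ContDiffAt ℝ ∞ f u → ContDiffAt ℝ ∞ (fun w => (f w : ℂ)) u :=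
    fun h => Complex.ofRealCLM.contDiff.contDiffAt.comp u h
  refine ⟨fl, fun w => ((((Ab u.1 w.1 + Ab u.2 w.2) * (1 / Real.pi) : ℝ) : ℂ) +
    (wf (‖w.1‖ ^ 2) : ℂ) * Complex.I, ((m * χf (‖w.1‖ ^ 2) : ℝ) : ℂ) * Complex.I, cm m,
    -1 / Real.pi * Ab u.2 w.2), ?_, ?_, ?_, ?_⟩
  · apply par_fl
    apply not_F_of_im
    · simp; exact wf_pos h0 h1.le
    · simp; exact wf_lt_one h0.le h1
  · refine ContDiffAt.prodMk ?_ (ContDiffAt.prodMk ?_ (contDiffAt_const.prodMk ?_))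
    · exact (sO ((sA.add sB).mul contDiffAt_const)).add ((sO sW).mul contDiffAt_const)
    · exact (sO (contDiffAt_const.mul sX)).mul contDiffAt_const
    · exact contDiffAt_const.mul sB
  · have e1 : ∀ᶠ w in 𝓝 u, w.1 ≠ 0 := (continuousAt_fst (p := u)).eventually_ne ha
    have e2 : ∀ᶠ w in 𝓝 u, w.2 ≠ 0 := (continuousAt_snd (p := u)).eventually_ne hb
    filter_upwards [e1, e2] with w g1 g2 _
    obtain ⟨l1, hl1⟩ := Ab_eq ha g1
    obtain ⟨l2, hl2⟩ := Ab_eq hb g2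
    rw [hl1, hl2]
    refine mk_eq.2 ⟨⟨1, -(l1 + l2), 0, 0, 0, 0, l2, Or.inl rfl, ?_⟩, fun _ => rfl⟩
    have hpi := Real.pi_ne_zero
    refine ⟨?_, ?_, ?_, ?_, ?_, ?_⟩
    · rw [midP_re]
      simp only [Complex.add_re, Complex.mul_re, Complex.ofReal_re, Complex.ofReal_im,
        Complex.I_re, Complex.I_im]
      push_cast
      field_simp
      ring
    · rw [midP_im]
      simp
    · simp [midP]
    · simp [midP]
    · simp [midP]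
    · simp only [midP]
      push_cast
      field_simp
      ring
  · refine ⟨_, (d1.add d2).prodMk (d3.prodMk ((hasFDerivAt_const (cm m) u).prodMk d4)), ?_, ?_⟩
    · intro v w
      rw [B_apply]
      simp
      ring
    · intro v hv hL
      have h5 := congrArg (fun P : Pt => P.2.2.2) hL
      have h6 := congrArg (fun P : Pt => P.1.re) hL
      have h7 := congrArg (fun P : Pt => P.1.im) hL
      have hpi := Real.pi_ne_zero
      simp [dA', dB', dN'] at h5 h6 h7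
      have k2 : (v.2 / u.2).im = 0 := h5
      have k1 : (v.1 / u.1).im = 0 := by
        rw [k2] at h6
        simpa [hpi] using h6
      have k3 : (conj u.1 * v.1).re = 0 := by
        rcases h7 with h | h
        · exact absurd h hw'.ne'
        · simp; linarith
      have k4 : (conj u.2 * v.2).re = 0 := by
        rw [Complex.add_re, k3, zero_add] at hv
        exact hv
      exact Prod.ext (lin_zero ha k1 k3) (lin_zero hb k2 k4)

end Pool.Agent.Lib.P89d91e
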