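import Pool.Agent.Lib.P89d91e.Charts2
import Pool.Agent.Lib.P89d91e.Atlas

open Set Filter Topology
open scoped ContDiff

namespace Pool.Agent.Lib.P89d91e

theorem κa_zero (a : ℂ) (c s : ℝ) : κa (0, a, c, s) = mk (0, 0, c, s) (some a) := by
  rw [κa_eq (z := 0) (by simp)]; simp

theorem κb_zero (c s : ℝ) : κb (0, 0, c, s) = mk (0, 0, c, s) none := by
  rw [κb_eq (z := 0) (by simp)]; simp

theorem frame_even {h : Frame} {c s c' s' : ℝ} (hr : rel (h.act (0, 0, c, s)) (0, 0, c', s')) :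
    ∃ γ σ : ℝ, c' = c + γ ∧ s' = s + σ ∧
      ∀ (p q : ℂ) (c s : ℝ), rel (h.act (p, q, c, s)) (p, q, c + γ, s + σ) := by
  obtain ⟨ε, n, j, x, y, k, l, hε, h1, h2, h3, h4, h5, h6⟩ := hr
  simp only [act_1re, act_1im, act_2re, act_2im, act_c, act_s, Complex.zero_re,
    Complex.zero_im] at h1 h2 h3 h4 h5 h6
  refine ⟨2 * k, h.t + 2 * l - 2 * j * ε * h.n, h5, by rw [h6]; ring, ?_⟩
  intro p q c s
  refine ⟨1, ε * n, ε * j, ε * x, ε * y, k, l, Or.inl rfl, ?_⟩
  simp only [act_1re, act_1im, act_2re, act_2im, act_c, act_s]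
  rcases hε with rfl | rfl
  · push_cast at h1 h2 h3 h4 ⊢
    have e1 : (h.n : ℝ) = -2 * n := by linarith
    have e2 : (h.j : ℝ) = -2 * j := by linarith
    have e4 : (h.y : ℝ) = -2 * y := by linarith
    rw [e2, e4] at h3
    have e3 : (h.x : ℝ) = -2 * x := by linarith
    rw [e1, e2, e3, e4]
    refine ⟨by ring, by ring, by ring, by ring, trivial, by ring⟩
  · push_cast at h1 h2 h3 h4 ⊢
    have e1 : (h.n : ℝ) = 2 * n := by linarith
    have e2 : (h.j : ℝ) = 2 * j := by linarith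
    have e4 : (h.y : ℝ) = 2 * y := by linarith
    rw [e2, e4] at h3
    have e3 : (h.x : ℝ) = 2 * x := by linarith
    rw [e1, e2, e3, e4]
    refine ⟨by ring, by ring, by ring, by ring, trivial, by ring⟩

/-- The canonical local parametrisations. -/
inductive Can : (Pt → X) → Pt → Prop
  | R (P : Pt) (h : ¬ F P) : Can fl P
  | A (g : Frame) (a : ℂ) (c s : ℝ) : Can (fr g ∘ κa) (0, a, c, s)
  | Bc (g : Frame) (c s : ℝ) : Can (fr g ∘ κb) (0, 0, c, s)

theorem compat_fr {κ κ' : Pt → X} {u v : Pt} (g : Frame) (h : Compat B κ u κ' v) :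
    Compat B (fr g ∘ κ) u (fr g ∘ κ') v := by
  obtain ⟨f, W, hW, hu, hf, hfs, hc, hB⟩ := h
  exact ⟨f, W, hW, hu, hf, hfs, fun x hx => by simp [hc x hx], hB⟩

theorem compat_shift_a {g g' : Frame} {a : ℂ} {c s c' s' : ℝ}
    (h : rel (g.act (0, 0, c, s)) (g'.act (0, 0, c', s'))) :
    Compat B (fr g ∘ κa) (0, a, c, s) (fr g' ∘ κa) (0, a, c', s') := by
  have h' : rel ((g'.inv.comp g).act (0, 0, c, s)) (0, 0, c', s') := by
    have := rel_act g'.inv h
    rwa [inv_act, ← act_comp] at this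
  obtain ⟨γ, σ, hc, hs, hrel⟩ := frame_even h'
  have key := compat_aff (ε := 1) (τ := 0) (Or.inl rfl) (0, 0, γ, σ) (κ := fr g ∘ κa)
    (κ' := fr g' ∘ κa) isOpen_univ (mem_univ ((0, a, c, s) : Pt)) ?_
  · convert key using 1
    simp [aff, affL_apply, hc, hs]
  · rintro ⟨b, a, c, s⟩ -
    simp only [Function.comp_apply]
    apply fr_inj g'.inv
    rw [inv_fr, ← fr_comp]
    have : aff 1 0 (0, 0, γ, σ) (b, a, c, s) = (b, a, c + γ, s + σ) := by
      simp [aff, affL_apply]
    rw [this, κa, κa, fr_mk]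
    exact mk_eq.2 ⟨rel_symm (hrel _ _ _ _), fun _ => rfl⟩

theorem compat_shift_b {g g' : Frame} {a : ℂ} {c s c' s' : ℝ}
    (h : rel (g.act (0, 0, c, s)) (g'.act (0, 0, c', s'))) :
    Compat B (fr g ∘ κb) (a, 0, c, s) (fr g' ∘ κb) (a, 0, c', s') := by
  have h' : rel ((g'.inv.comp g).act (0, 0, c, s)) (0, 0, c', s') := by
    have := rel_act g'.inv h
    rwa [inv_act, ← act_comp] at this
  obtain ⟨γ, σ, hc, hs, hrel⟩ := frame_even h'
  have key := compat_aff (ε := 1) (τ := 0) (Or.inl rfl) (0, 0, γ, σ) (κ := fr g ∘ κb)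
    (κ' := fr g' ∘ κb) isOpen_univ (mem_univ ((a, 0, c, s) : Pt)) ?_
  · convert key using 1
    simp [aff, affL_apply, hc, hs]
  · rintro ⟨b, a, c, s⟩ -
    simp only [Function.comp_apply]
    apply fr_inj g'.inv
    rw [inv_fr, ← fr_comp]
    have : aff 1 0 (0, 0, γ, σ) (b, a, c, s) = (b, a, c + γ, s + σ) := by
      simp [aff, affL_apply]
    rw [this, κb, κb, fr_mk]
    exact mk_eq.2 ⟨rel_symm (hrel _ _ _ _), fun _ => rfl⟩

theorem compat_fl {P Q : Pt} (h : rel P Q) : Compat B fl P fl Q := by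
  obtain ⟨ε, τ, v, hε, rfl, hrel⟩ := exists_aff_of_rel h
  refine compat_aff hε v isOpen_univ (mem_univ _) ?_
  intro x _
  exact mk_eq.2 ⟨rel_symm (hrel x), fun _ => rfl⟩

theorem can_can {κ κ' : Pt → X} {u v : Pt} (h : Can κ u) (h' : Can κ' v) (he : κ u = κ' v) :
    Compat B κ u κ' v := by
  cases h with
  | R P hP =>
    cases h' with
    | R Q hQ => exact compat_fl (mk_eq.1 he).1
    | A g a c s =>
      rw [Function.comp_apply, κa_zero, fr_mk, fl, mk_eq] at he
      exact absurd (F_rel (rel_symm he.1) ((F_act_iff g).2 (F_origin c s))) hP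
    | Bc g c s =>
      rw [Function.comp_apply, κb_zero, fr_mk, fl, mk_eq] at he
      exact absurd (F_rel (rel_symm he.1) ((F_act_iff g).2 (F_origin c s))) hP
  | A g a c s =>
    cases h' with
    | R Q hQ =>
      rw [Function.comp_apply, κa_zero, fr_mk, fl, mk_eq] at he
      exact absurd (F_rel he.1 ((F_act_iff g).2 (F_origin c s))) hQ
    | A g' a' c' s' =>
      rw [Function.comp_apply, κa_zero, fr_mk, Function.comp_apply, κa_zero, fr_mk, mk_eq] at he
      have := he.2 ((F_act_iff g).2 (F_origin c s))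
      obtain rfl : a = a' := by simpa using this
      exact compat_shift_a he.1
    | Bc g' c' s' =>
      rw [Function.comp_apply, κa_zero, fr_mk, Function.comp_apply, κb_zero, fr_mk, mk_eq] at he
      have := he.2 ((F_act_iff g).2 (F_origin c s))
      simp at this
  | Bc g c s =>
    cases h' with
    | R Q hQ =>
      rw [Function.comp_apply, κb_zero, fr_mk, fl, mk_eq] at he
      exact absurd (F_rel he.1 ((F_act_iff g).2 (F_origin c s))) hQ
    | A g' a' c' s' =>
      rw [Function.comp_apply, κb_zero, fr_mk, Function.comp_apply, κa_zero, fr_mk, mk_eq] at he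
      have := he.2 ((F_act_iff g).2 (F_origin c s))
      simp at this
    | Bc g' c' s' =>
      rw [Function.comp_apply, κb_zero, fr_mk, Function.comp_apply, κb_zero, fr_mk, mk_eq] at he
      exact compat_shift_b he.1

/-- `κ` is a local symplectic parametrisation of the space near `u`. -/
def Par (κ : Pt → X) (u : Pt) : Prop := ∃ κ' v, Can κ' v ∧ Compat B κ u κ' v

theorem Can.par {κ : Pt → X} {u : Pt} (h : Can κ u) : Par κ u := ⟨κ, u, h, Compat.refl B κ u⟩

theorem Par.compat {κ κ' : Pt → X} {u v : Pt} (h : Par κ u) (h' : Par κ' v)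
    (he : κ u = κ' v) : Compat B κ u κ' v := by
  obtain ⟨κ1, u1, h1, h2⟩ := h
  obtain ⟨κ1', u1', h1', h2'⟩ := h'
  have e1 := h2.apply_eq
  have e1' := h2'.apply_eq
  exact (h2.trans (can_can h1 h1' (by rw [← e1, he, e1']))).trans (h2'.symm B_nondeg)

theorem Par.of_compat {κ κ' : Pt → X} {u v : Pt} (h : Compat B κ u κ' v) (h' : Par κ' v) :
    Par κ u := by
  obtain ⟨κ1', u1', h1', h2'⟩ := h'
  exact ⟨κ1', u1', h1', h.trans h2'⟩

theorem par_fl {P : Pt} (h : ¬ F P) : Par fl P := (Can.R P h).par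

theorem par_fr {κ : Pt → X} {u : Pt} (g : Frame) (h : Par κ u) : Par (fr g ∘ κ) u := by
  obtain ⟨κ', v, h1, h2⟩ := h
  refine Par.of_compat (compat_fr g h2) ?_
  cases h1 with
  | R P hP =>
    have hc : Compat B (fr g ∘ fl) v fl (g.act v) := by
      rw [act_eq_aff]
      refine compat_aff (Or.inl rfl) _ isOpen_univ (mem_univ _) ?_
      intro x _
      rw [← act_eq_aff]
      rfl
    exact Par.of_compat hc (par_fl (fun hF => hP (F_act g hF)))
  | A g' a c s =>
    have : fr g ∘ (fr g' ∘ κa) = fr (g.comp g') ∘ κa := by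
      funext x
      simp [fr_comp]
    rw [this]
    exact (Can.A _ _ _ _).par
  | Bc g' c s =>
    have : fr g ∘ (fr g' ∘ κb) = fr (g.comp g') ∘ κb := by
      funext x
      simp [fr_comp]
    rw [this]
    exact (Can.Bc _ _ _).par

/-! ### Small domains -/

theorem int_zero_of_abs_lt {n : ℤ} (h : |(n : ℝ)| < 1) : n = 0 := by
  have h1 : |n| < 1 := by exact_mod_cast h
  exact Int.abs_lt_one_iff.1 h1

theorem rel_small {p q p' q' : ℂ} {c s c' s' : ℝ} (hp : ‖p‖ < 1 / 2) (hq : ‖q‖ < 1 / 2)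
    (hp' : ‖p'‖ < 1 / 2) (hq' : ‖q'‖ < 1 / 2) (h : rel (p, q, c, s) (p', q', c', s')) :
    ∃ ε : ℂ, (ε = 1 ∨ ε = -1) ∧ p' = ε * p ∧ q' = ε * q ∧
      (∃ k : ℤ, c' = c + 2 * k) ∧ ∃ l : ℤ, s' = s + 2 * l := by
  obtain ⟨ε, n, j, x, y, k, l, hε, h1, h2, h3, h4, h5, h6⟩ := h
  simp only at h1 h2 h3 h4 h5 h6
  have a1 := (Complex.abs_re_le_norm p).trans_lt hp
  have a2 := (Complex.abs_im_le_norm p).trans_lt hp
  have a3 := (Complex.abs_re_le_norm q).trans_lt hq
  have a4 := (Complex.abs_im_le_norm q).trans_lt hq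
  have b1 := (Complex.abs_re_le_norm p').trans_lt hp'
  have b2 := (Complex.abs_im_le_norm p').trans_lt hp'
  have b3 := (Complex.abs_re_le_norm q').trans_lt hq'
  have b4 := (Complex.abs_im_le_norm q').trans_lt hq'
  rw [abs_lt] at a1 a2 a3 a4 b1 b2 b3 b4
  rcases hε with rfl | rfl
  · push_cast at h1 h2 h3 h4 h6
    have hn : n = 0 := int_zero_of_abs_lt (by rw [abs_lt]; constructor <;> linarith)
    have hj : j = 0 := int_zero_of_abs_lt (by rw [abs_lt]; constructor <;> linarith)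
    have hy : y = 0 := int_zero_of_abs_lt (by rw [abs_lt]; constructor <;> linarith)
    subst hn hj hy
    push_cast at h1 h2 h3 h4 h6
    have hx : x = 0 := int_zero_of_abs_lt (by rw [abs_lt]; constructor <;> linarith)
    subst hx
    refine ⟨1, Or.inl rfl, ?_, ?_, ⟨k, h5⟩, ⟨l, by linarith⟩⟩
    · apply Complex.ext <;> simp [h1, h2]
    · apply Complex.ext <;> simp [h3, h4]
  · push_cast at h1 h2 h3 h4 h6
    have hn : n = 0 := int_zero_of_abs_lt (by rw [abs_lt]; constructor <;> linarith)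
    have hj : j = 0 := int_zero_of_abs_lt (by rw [abs_lt]; constructor <;> linarith)
    have hy : y = 0 := int_zero_of_abs_lt (by rw [abs_lt]; constructor <;> linarith)
    subst hn hj hy
    push_cast at h1 h2 h3 h4 h6
    have hx : x = 0 := int_zero_of_abs_lt (by rw [abs_lt]; constructor <;> linarith)
    subst hx
    refine ⟨-1, Or.inr rfl, ?_, ?_, ⟨k, h5⟩, ⟨l, by linarith⟩⟩
    · apply Complex.ext <;> simp [h1, h2]
    · apply Complex.ext <;> simp [h3, h4]

/-- An exceptional point with small coordinates is the origin. -/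
theorem F_small {p q : ℂ} {c s : ℝ} (hp : ‖p‖ < 1) (hq : ‖q‖ < 1) (h : F (p, q, c, s)) :
    p = 0 ∧ q = 0 := by
  rw [F_iff] at h
  obtain ⟨n, j, x, y, h1, h2, h3, h4⟩ := h
  simp only at h1 h2 h3 h4
  have a1 := (Complex.abs_re_le_norm p).trans_lt hp
  have a2 := (Complex.abs_im_le_norm p).trans_lt hp
  have a3 := (Complex.abs_re_le_norm q).trans_lt hq
  have a4 := (Complex.abs_im_le_norm q).trans_lt hq
  have hn : n = 0 := int_zero_of_abs_lt (by rw [← h1]; exact a1)
  have hj : j = 0 := int_zero_of_abs_lt (by rw [← h2]; exact a2)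
  have hy : y = 0 := int_zero_of_abs_lt (by rw [← h3]; exact a4)
  subst hn hj hy
  push_cast at h1 h2 h3 h4
  have hx : x = 0 := int_zero_of_abs_lt (by
    have : q.re = x := by linarith
    rw [← this]; exact a3)
  subst hx
  constructor
  · apply Complex.ext <;> simp [h1, h2]
  · apply Complex.ext <;> simp [h3, h4]

/-- Domain of the first exceptional parametrisation. -/
def Da : Set Pt := {u | ‖u.1‖ < 1 / 8 ∧ ‖u.1‖ * ‖u.2.1‖ ^ 2 < 1 / 8}

/-- Domain of the second exceptional parametrisation. -/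
def Db : Set Pt := {u | ‖u.2.1‖ < 1 / 8 ∧ ‖u.2.1‖ * ‖u.1‖ ^ 2 < 1 / 8}

theorem norm_sq_lt {b : ℂ} (h : ‖b‖ < 1 / 8) : ‖sq b‖ < 1 / 2 := by
  have := norm_sq_sq b
  nlinarith [norm_nonneg (sq b)]

theorem norm_mul_sq_lt {a b : ℂ} (h : ‖b‖ * ‖a‖ ^ 2 < 1 / 8) : ‖a * sq b‖ < 1 / 2 := by
  have := norm_sq_sq b
  have h2 : ‖a * sq b‖ ^ 2 = 2 * (‖b‖ * ‖a‖ ^ 2) := by
    rw [norm_mul, mul_pow, this]; ring
  nlinarith [norm_nonneg (a * sq b)]

theorem par_κa {u : Pt} (hu : u ∈ Da) : Par κa u := by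
  obtain ⟨b, a, c, s⟩ := u
  obtain ⟨h1, h2⟩ := hu
  simp only at h1 h2
  by_cases hb : b = 0
  · subst hb
    have : κa = fr Frame.one ∘ κa := by funext x; simp [fr_one]
    rw [this]
    exact (Can.A _ _ _ _).par
  · have hz : sq b ≠ 0 := fun h => hb (sq_eq_zero.1 h)
    have hF : ¬ F (sq b, a * sq b, c, s) := fun h =>
      hz (F_small (by linarith [norm_sq_lt h1]) (by linarith [norm_mul_sq_lt h2]) h).1
    have := compat_fl_κa (P := (sq b, a * sq b, c, s)) hF hz
    simp only [sq_sq, mul_div_cancel_right₀ _ hz] at this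
    have e : (2 * b / 2 : ℂ) = b := by ring
    rw [e] at this
    exact Par.of_compat (this.symm B_nondeg) (par_fl hF)

theorem par_κb {u : Pt} (hu : u ∈ Db) : Par κb u := by
  obtain ⟨a, b, c, s⟩ := u
  obtain ⟨h1, h2⟩ := hu
  simp only at h1 h2
  by_cases hb : b = 0
  · subst hb
    by_cases ha : a = 0
    · subst ha
      have : κb = fr Frame.one ∘ κb := by funext x; simp [fr_one]
      rw [this]
      exact (Can.Bc _ _ _).par
    · have h3 : ((0, a⁻¹, c, s) : Pt) ∈ Da := by simp [Da]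
      have := compat_κa_κb (u := (0, a⁻¹, c, s)) (inv_ne_zero ha)
      simp only [inv_inv, mul_zero] at this
      exact Par.of_compat (this.symm B_nondeg) (par_κa h3)
  · have hz : sq b ≠ 0 := fun h => hb (sq_eq_zero.1 h)
    have hF : ¬ F (a * sq b, sq b, c, s) := fun h =>
      hz (F_small (by linarith [norm_mul_sq_lt h2]) (by linarith [norm_sq_lt h1]) h).2
    have := compat_fl_κb (P := (a * sq b, sq b, c, s)) hF hz
    simp only [sq_sq, mul_div_cancel_right₀ _ hz] at this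
    have e : (2 * b / 2 : ℂ) = b := by ring
    rw [e] at this
    exact Par.of_compat (this.symm B_nondeg) (par_fl hF)

end Pool.Agent.Lib.P89d91e
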