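import Mathlib

open Set Filter Topology
open scoped ContDiff

namespace Pool.Agent.Lib.P89d91e

/-- The irrational number used in the lattice. -/
noncomputable def β : ℝ := Real.sqrt 2

/-- The model vector space, with coordinates `(p, q, c, s)`. -/
abbrev Pt : Type := ℂ × ℂ × ℝ × ℝ

/-- The symplectic form `Re (dp ∧ dq) + dc ∧ ds`, as a bilinear map. -/
noncomputable def Bl : Pt →ₗ[ℝ] Pt →ₗ[ℝ] ℝ :=
  LinearMap.mk₂ ℝ (fun v w => (v.1 * w.2.1 - w.1 * v.2.1).re + v.2.2.1 * w.2.2.2 - w.2.2.1 * v.2.2.2)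
    (by intro a b c; simp; ring) (by intro r a b; simp; ring) (by intro a b c; simp; ring)
    (by intro r a b; simp; ring)

/-- The symplectic form `Re (dp ∧ dq) + dc ∧ ds`, as a continuous bilinear map. -/
noncomputable def B : Pt →L[ℝ] Pt →L[ℝ] ℝ := Bl.toContinuousBilinearMap

theorem B_apply (v w : Pt) : B v w =
    (v.1 * w.2.1 - w.1 * v.2.1).re + v.2.2.1 * w.2.2.2 - w.2.2.1 * v.2.2.2 := rfl

theorem B_self (v : Pt) : B v v = 0 := by
  rw [B_apply]; simp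

theorem B_nondeg (v : Pt) (h : ∀ w, B v w = 0) : v = 0 := by
  obtain ⟨p, q, c, s⟩ := v
  have h1 := h (0, starRingEnd ℂ p, 0, 0)
  have h2 := h (starRingEnd ℂ q, 0, 0, 0)
  have h3 := h (0, 0, 0, c)
  have h4 := h (0, 0, s, 0)
  simp only [B_apply] at h1 h2 h3 h4
  simp [Complex.mul_re] at h1 h2 h3 h4
  have a1 : p.re = 0 := by nlinarith [mul_self_nonneg p.re, mul_self_nonneg p.im]
  have a2 : p.im = 0 := by nlinarith [mul_self_nonneg p.re, mul_self_nonneg p.im]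
  have a3 : q.re = 0 := by nlinarith [mul_self_nonneg q.re, mul_self_nonneg q.im]
  have a4 : q.im = 0 := by nlinarith [mul_self_nonneg q.re, mul_self_nonneg q.im]
  have hp : p = 0 := Complex.ext a1 a2
  have hq : q = 0 := Complex.ext a3 a4
  simp [hp, hq, h3, h4]

/-- The orbit relation of the group `Γ`. -/
def rel (P Q : Pt) : Prop := ∃ ε n j x y k l : ℤ, (ε = 1 ∨ ε = -1) ∧
  Q.1.re = ε * P.1.re + 2 * n ∧ Q.1.im = ε * P.1.im + 2 * j ∧
  Q.2.1.re = ε * P.2.1.re + 2 * (x - y * β) - 2 * j * P.2.2.1 ∧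
  Q.2.1.im = ε * P.2.1.im + 2 * y ∧
  Q.2.2.1 = P.2.2.1 + 2 * k ∧ Q.2.2.2 = P.2.2.2 + 2 * l - 2 * j * ε * P.1.re

theorem rel_refl (P : Pt) : rel P P :=
  ⟨1, 0, 0, 0, 0, 0, 0, by simp⟩

theorem rel_symm {P Q : Pt} (h : rel P Q) : rel Q P := by
  obtain ⟨ε, n, j, x, y, k, l, hε, h1, h2, h3, h4, h5, h6⟩ := h
  refine ⟨ε, -ε * n, -ε * j, -ε * x - 2 * ε * j * k, -ε * y, -k, -l - 2 * j * n, hε, ?_⟩
  rcases hε with rfl | rfl
  · rw [h1, h2, h3, h4, h5, h6]
    push_cast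
    refine ⟨by ring, by ring, by ring, by ring, by ring, by ring⟩
  · rw [h1, h2, h3, h4, h5, h6]
    push_cast
    refine ⟨by ring, by ring, by ring, by ring, by ring, by ring⟩

theorem rel_trans {P Q R : Pt} (h : rel P Q) (h' : rel Q R) : rel P R := by
  obtain ⟨ε, n, j, x, y, k, l, hε, h1, h2, h3, h4, h5, h6⟩ := h
  obtain ⟨ε', n', j', x', y', k', l', hε', h1', h2', h3', h4', h5', h6'⟩ := h'
  refine ⟨ε' * ε, ε' * n + n', ε' * j + j', ε' * x + x' - 2 * j' * k, ε' * y + y', k + k',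
    l + l' - 2 * j' * ε' * n, ?_, ?_⟩
  · rcases hε with rfl | rfl <;> rcases hε' with rfl | rfl <;> simp
  · rw [h1', h2', h3', h4', h5', h6', h1, h2, h3, h4, h5, h6]
    rcases hε with rfl | rfl <;> rcases hε' with rfl | rfl <;> push_cast <;>
      refine ⟨by ring, by ring, by ring, by ring, by ring, by ring⟩

/-- Being an integer. -/
def IsI (x : ℝ) : Prop := ∃ n : ℤ, (n : ℝ) = x

theorem IsI.add {x y : ℝ} (h : IsI x) (h' : IsI y) : IsI (x + y) := by
  obtain ⟨a, rfl⟩ := h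
  obtain ⟨b, rfl⟩ := h'
  exact ⟨a + b, by push_cast; ring⟩

theorem isClosed_isI : IsClosed {x : ℝ | IsI x} := by
  have : {x : ℝ | IsI x} = range ((↑) : ℤ → ℝ) := by
    ext x; simp [IsI]
  rw [this]
  exact Int.isClosedEmbedding_coe_real.isClosed_range

theorem isI_int (n : ℤ) : IsI n := ⟨n, rfl⟩

/-- The locus of exceptional points. -/
def F (P : Pt) : Prop := IsI P.1.re ∧ IsI P.1.im ∧ IsI P.2.1.im ∧
  IsI (P.2.1.re + P.1.im * P.2.2.1 + β * P.2.1.im)

theorem F_iff (P : Pt) : F P ↔ ∃ n j x y : ℤ, P.1.re = n ∧ P.1.im = j ∧ P.2.1.im = y ∧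
    P.2.1.re = x - y * β - j * P.2.2.1 := by
  constructor
  · rintro ⟨⟨n, h1⟩, ⟨j, h2⟩, ⟨y, h3⟩, ⟨x, h4⟩⟩
    refine ⟨n, j, x, y, h1.symm, h2.symm, h3.symm, ?_⟩
    rw [h4, h3, h2]
    ring
  · rintro ⟨n, j, x, y, h1, h2, h3, h4⟩
    refine ⟨⟨n, h1.symm⟩, ⟨j, h2.symm⟩, ⟨y, h3.symm⟩, ⟨x, ?_⟩⟩
    rw [h4, h3, h2]; ring

theorem F_rel {P Q : Pt} (h : rel P Q) (hP : F P) : F Q := by
  rw [F_iff] at hP ⊢
  obtain ⟨ε, n, j, x, y, k, l, hε, h1, h2, h3, h4, h5, h6⟩ := h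
  obtain ⟨n', j', x', y', h1', h2', h3', h4'⟩ := hP
  refine ⟨ε * n' + 2 * n, ε * j' + 2 * j, ε * x' + 2 * x + ε * j' * 2 * k + 4 * j * k,
    ε * y' + 2 * y, ?_⟩
  rw [h1, h2, h3, h4, h5, h1', h2', h3', h4']
  rcases hε with rfl | rfl <;> push_cast <;>
    refine ⟨by ring, by ring, by ring, by ring⟩

theorem isClosed_F : IsClosed {P : Pt | F P} := by
  have h1 : IsClosed {P : Pt | IsI P.1.re} := isClosed_isI.preimage (by fun_prop)
  have h2 : IsClosed {P : Pt | IsI P.1.im} := isClosed_isI.preimage (by fun_prop)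
  have h3 : IsClosed {P : Pt | IsI P.2.1.im} := isClosed_isI.preimage (by fun_prop)
  have h4 : IsClosed {P : Pt | IsI (P.2.1.re + P.1.im * P.2.2.1 + β * P.2.1.im)} :=
    isClosed_isI.preimage (by fun_prop)
  exact h1.inter (h2.inter (h3.inter h4))

/-- The orbit relation restricted to a sign `ε`, in terms of integrality of real numbers. -/
def relI (ε : ℝ) (P Q : Pt) : Prop :=
  IsI ((Q.1.re - ε * P.1.re) / 2) ∧ IsI ((Q.1.im - ε * P.1.im) / 2) ∧
  IsI ((Q.2.1.im - ε * P.2.1.im) / 2) ∧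
  IsI ((Q.2.1.re - ε * P.2.1.re) / 2 + (Q.1.im - ε * P.1.im) / 2 * P.2.2.1 +
    (Q.2.1.im - ε * P.2.1.im) / 2 * β) ∧
  IsI ((Q.2.2.1 - P.2.2.1) / 2) ∧
  IsI ((Q.2.2.2 - P.2.2.2) / 2 + (Q.1.im - ε * P.1.im) / 2 * ε * P.1.re)

theorem rel_iff_relI (P Q : Pt) : rel P Q ↔ relI 1 P Q ∨ relI (-1) P Q := by
  constructor
  · rintro ⟨ε, n, j, x, y, k, l, rfl | rfl, h1, h2, h3, h4, h5, h6⟩
    · left
      refine ⟨⟨n, ?_⟩, ⟨j, ?_⟩, ⟨y, ?_⟩, ⟨x, ?_⟩, ⟨k, ?_⟩, ⟨l, ?_⟩⟩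
      all_goals simp only [h1, h2, h3, h4, h5, h6]; push_cast; ring
    · right
      refine ⟨⟨n, ?_⟩, ⟨j, ?_⟩, ⟨y, ?_⟩, ⟨x, ?_⟩, ⟨k, ?_⟩, ⟨l, ?_⟩⟩
      all_goals simp only [h1, h2, h3, h4, h5, h6]; push_cast; ring
  · rintro (⟨⟨n, h1⟩, ⟨j, h2⟩, ⟨y, h3⟩, ⟨x, h4⟩, ⟨k, h5⟩, ⟨l, h6⟩⟩ |
      ⟨⟨n, h1⟩, ⟨j, h2⟩, ⟨y, h3⟩, ⟨x, h4⟩, ⟨k, h5⟩, ⟨l, h6⟩⟩)
    · refine ⟨1, n, j, x, y, k, l, Or.inl rfl, ?_⟩
      rw [← h2, ← h3] at h4
      rw [← h2] at h6
      push_cast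
      refine ⟨by linarith, by linarith, by linarith, by linarith, by linarith, by linarith⟩
    · refine ⟨-1, n, j, x, y, k, l, Or.inr rfl, ?_⟩
      rw [← h2, ← h3] at h4
      rw [← h2] at h6
      push_cast
      refine ⟨by linarith, by linarith, by linarith, by linarith, by linarith, by linarith⟩

theorem isClosed_rel : IsClosed {R : Pt × Pt | rel R.1 R.2} := by
  have key : ∀ ε : ℝ, IsClosed {R : Pt × Pt | relI ε R.1 R.2} := by
    intro ε
    refine IsClosed.inter ?_ (IsClosed.inter ?_ (IsClosed.inter ?_ (IsClosed.inter ?_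
      (IsClosed.inter ?_ ?_))))
    all_goals exact isClosed_isI.preimage (by fun_prop)
  have : {R : Pt × Pt | rel R.1 R.2} = {R | relI 1 R.1 R.2} ∪ {R | relI (-1) R.1 R.2} := by
    ext R
    exact rel_iff_relI R.1 R.2
  rw [this]
  exact (key 1).union (key (-1))

/-! ### The space -/

/-- Equivalence of pairs (point, slope): same orbit, and same slope at exceptional points. -/
def srel (a b : Pt × Option ℂ) : Prop := rel a.1 b.1 ∧ (F a.1 → a.2 = b.2)

/-- The setoid defining the space. -/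
def xSetoid : Setoid (Pt × Option ℂ) where
  r := srel
  iseqv :=
    { refl := fun _ => ⟨rel_refl _, fun _ => rfl⟩
      symm := fun h => ⟨rel_symm h.1, fun hF => (h.2 (F_rel (rel_symm h.1) hF)).symm⟩
      trans := fun h h' => ⟨rel_trans h.1 h'.1,
        fun hF => (h.2 hF).trans (h'.2 (F_rel h.1 hF))⟩ }

/-- The underlying set of the symplectic manifold. -/
def X : Type := Quotient xSetoid

/-- The class of a pair (point, slope). -/
def mk (P : Pt) (d : Option ℂ) : X := Quotient.mk xSetoid (P, d)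

theorem mk_eq {P Q : Pt} {d e : Option ℂ} : mk P d = mk Q e ↔ rel P Q ∧ (F P → d = e) := by
  constructor
  · intro h
    exact Quotient.exact h
  · intro h
    exact Quotient.sound (s := xSetoid) h

theorem mk_surj (x : X) : ∃ P d, mk P d = x := by
  obtain ⟨⟨P, d⟩, h⟩ := Quotient.exists_rep x
  exact ⟨P, d, h⟩

/-- The regular part. -/
def fl (P : Pt) : X := mk P none

theorem mk_of_not_F {P : Pt} (h : ¬ F P) (d e : Option ℂ) : mk P d = mk P e :=
  mk_eq.2 ⟨rel_refl P, fun h' => absurd h' h⟩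

/-! ### Frames -/

/-- Parameters of an affine symmetry of the whole picture. -/
structure Frame where
  n : ℤ
  j : ℤ
  x : ℤ
  y : ℤ
  t : ℝ

/-- The action of a frame on `Pt`. -/
noncomputable def Frame.act (g : Frame) (P : Pt) : Pt :=
  (P.1 + (g.n + g.j * Complex.I), P.2.1 + ((g.x - g.y * β : ℝ) + g.y * Complex.I)
    - g.j * P.2.2.1, P.2.2.1, P.2.2.2 + g.t - g.j * P.1.re)

variable (g : Frame) (P Q : Pt)

@[simp] theorem act_1re : (g.act P).1.re = P.1.re + g.n := by simp [Frame.act]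
@[simp] theorem act_1im : (g.act P).1.im = P.1.im + g.j := by simp [Frame.act]
@[simp] theorem act_2re : (g.act P).2.1.re = P.2.1.re + (g.x - g.y * β) - g.j * P.2.2.1 := by
  simp [Frame.act]
@[simp] theorem act_2im : (g.act P).2.1.im = P.2.1.im + g.y := by simp [Frame.act]
@[simp] theorem act_c : (g.act P).2.2.1 = P.2.2.1 := rfl
@[simp] theorem act_s : (g.act P).2.2.2 = P.2.2.2 + g.t - g.j * P.1.re := rfl

theorem pt_ext {P Q : Pt} (h1 : P.1.re = Q.1.re) (h2 : P.1.im = Q.1.im)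
    (h3 : P.2.1.re = Q.2.1.re) (h4 : P.2.1.im = Q.2.1.im) (h5 : P.2.2.1 = Q.2.2.1)
    (h6 : P.2.2.2 = Q.2.2.2) : P = Q :=
  Prod.ext (Complex.ext h1 h2) (Prod.ext (Complex.ext h3 h4) (Prod.ext h5 h6))

/-- The inverse frame. -/
noncomputable def Frame.inv (g : Frame) : Frame := ⟨-g.n, -g.j, -g.x, -g.y, -g.t - g.j * g.n⟩

/-- The composition of frames. -/
noncomputable def Frame.comp (g h : Frame) : Frame :=
  ⟨g.n + h.n, g.j + h.j, g.x + h.x, g.y + h.y, g.t + h.t - g.j * h.n⟩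

/-- The trivial frame. -/
def Frame.one : Frame := ⟨0, 0, 0, 0, 0⟩

theorem act_comp (g h : Frame) (P : Pt) : (g.comp h).act P = g.act (h.act P) := by
  apply pt_ext <;> simp [Frame.comp] <;> ring

theorem act_one (P : Pt) : Frame.one.act P = P := by
  apply pt_ext <;> simp [Frame.one]

theorem act_inv (g : Frame) (P : Pt) : g.act (g.inv.act P) = P := by
  apply pt_ext <;> simp [Frame.inv] <;> ring

theorem inv_act (g : Frame) (P : Pt) : g.inv.act (g.act P) = P := by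
  apply pt_ext <;> simp [Frame.inv] <;> ring

theorem F_act (g : Frame) {P : Pt} : F (g.act P) → F P := by
  rw [F_iff, F_iff]
  rintro ⟨n, j, x, y, h1, h2, h3, h4⟩
  simp only [act_1re, act_1im, act_2re, act_2im, act_c] at h1 h2 h3 h4
  refine ⟨n - g.n, j - g.j, x - g.x, y - g.y, ?_, ?_, ?_, ?_⟩ <;> push_cast <;> linarith

theorem F_act_iff (g : Frame) {P : Pt} : F (g.act P) ↔ F P :=
  ⟨F_act g, fun h => F_act g.inv (by rwa [inv_act])⟩

theorem rel_act (g : Frame) {P Q : Pt} (h : rel P Q) : rel (g.act P) (g.act Q) := by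
  obtain ⟨ε, n, j, x, y, k, l, hε, h1, h2, h3, h4, h5, h6⟩ := h
  rcases hε with rfl | rfl
  · refine ⟨1, n, j, x - g.j * k, y, k, l - g.j * n + j * g.n, Or.inl rfl, ?_⟩
    simp only [act_1re, act_1im, act_2re, act_2im, act_c, act_s]
    rw [h1, h2, h3, h4, h5, h6]
    push_cast
    refine ⟨by ring, by ring, by ring, by ring, by ring, by ring⟩
  · refine ⟨-1, n + g.n, j + g.j, x + g.x - g.j * k, y + g.y, k,
      l - g.j * n - (j + g.j) * g.n, Or.inr rfl, ?_⟩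
    simp only [act_1re, act_1im, act_2re, act_2im, act_c, act_s]
    rw [h1, h2, h3, h4, h5, h6]
    push_cast
    refine ⟨by ring, by ring, by ring, by ring, by ring, by ring⟩

theorem rel_act_iff (g : Frame) {P Q : Pt} : rel (g.act P) (g.act Q) ↔ rel P Q :=
  ⟨fun h => by simpa [inv_act] using rel_act g.inv h, rel_act g⟩

/-- The action of a frame on the space. -/
noncomputable def fr (g : Frame) : X → X :=
  Quotient.map' (s₁ := xSetoid) (s₂ := xSetoid) (fun a => (g.act a.1, a.2))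
    (fun _ _ h => ⟨rel_act g h.1, fun hF => h.2 (F_act g hF)⟩)

@[simp] theorem fr_mk (g : Frame) (P : Pt) (d : Option ℂ) : fr g (mk P d) = mk (g.act P) d := rfl

theorem fr_comp (g h : Frame) (x : X) : fr (g.comp h) x = fr g (fr h x) := by
  obtain ⟨P, d, rfl⟩ := mk_surj x
  simp [act_comp]

theorem fr_one (x : X) : fr Frame.one x = x := by
  obtain ⟨P, d, rfl⟩ := mk_surj x
  simp [act_one]

theorem fr_inv (g : Frame) (x : X) : fr g (fr g.inv x) = x := by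
  obtain ⟨P, d, rfl⟩ := mk_surj x
  simp [act_inv]

theorem inv_fr (g : Frame) (x : X) : fr g.inv (fr g x) = x := by
  obtain ⟨P, d, rfl⟩ := mk_surj x
  simp [inv_act]

theorem fr_inj (g : Frame) {x y : X} (h : fr g x = fr g y) : x = y := by
  rw [← inv_fr g x, h, inv_fr]

end Pool.Agent.Lib.P89d91e
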