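import Pool.Agent.Lib.P89d91e.MidLift

open Set Filter Topology
open scoped ContDiff ComplexConjugate

namespace Pool.Agent.Lib.P89d91e

/-- The `m`-th sphere. -/
noncomputable def sph (m : ℕ) (u : ℂ × ℂ) : X :=
  open Classical in
  if ‖u.1‖ ^ 2 ≤ 3 / 16 then capS 1 (cm m) u.1 u.2
  else if ‖u.2‖ ^ 2 ≤ 3 / 16 then fr (gm m) (capS (-1) (cm m) u.2 u.1)
  else fl (midP m u)

theorem sph_left (m : ℕ) {u : ℂ × ℂ} (h : ‖u.1‖ ^ 2 ≤ 1 / 4) (hu : ‖u.1‖ ^ 2 + ‖u.2‖ ^ 2 = 1) :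
    sph m u = capS 1 (cm m) u.1 u.2 := by
  unfold sph
  split_ifs with h1 h2
  · rfl
  · linarith
  · exact (left_eq m (by linarith) h).symm

theorem sph_right (m : ℕ) {u : ℂ × ℂ} (h : ‖u.2‖ ^ 2 ≤ 1 / 4) (hu : ‖u.1‖ ^ 2 + ‖u.2‖ ^ 2 = 1) :
    sph m u = fr (gm m) (capS (-1) (cm m) u.2 u.1) := by
  unfold sph
  split_ifs with h1 h2
  · linarith
  · rfl
  · exact (right_eq m hu (by linarith) h).symm

theorem sph_mid (m : ℕ) {u : ℂ × ℂ} (h1 : 1 / 8 ≤ ‖u.1‖ ^ 2) (h2 : 1 / 8 ≤ ‖u.2‖ ^ 2)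
    (hu : ‖u.1‖ ^ 2 + ‖u.2‖ ^ 2 = 1) : sph m u = fl (midP m u) := by
  unfold sph
  split_ifs with h3 h4
  · exact left_eq m h1 (by linarith)
  · exact right_eq m hu h2 (by linarith)
  · rfl

theorem lift_sph (m : ℕ) {u : ℂ × ℂ} (hu : ‖u.1‖ ^ 2 + ‖u.2‖ ^ 2 = 1) : Lift (sph m) u := by
  have c1 : ContinuousAt (fun w : ℂ × ℂ => ‖w.1‖ ^ 2) u := by fun_prop
  have c2 : ContinuousAt (fun w : ℂ × ℂ => ‖w.2‖ ^ 2) u := by fun_prop
  rcases lt_or_ge (‖u.1‖ ^ 2) (1 / 4) with h | h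
  · refine (lift_left m hu h.le).congr ?_
    filter_upwards [c1.eventually_lt continuousAt_const h] with w hw hw'
    exact (sph_left m hw.le hw').symm
  · rcases lt_or_ge (‖u.2‖ ^ 2) (1 / 4) with h' | h'
    · refine (lift_right m hu h'.le).congr ?_
      filter_upwards [c2.eventually_lt continuousAt_const h'] with w hw hw'
      exact (sph_right m hw.le hw').symm
    · refine (lift_mid m (by linarith) (by linarith) hu).congr ?_
      have e1 : (1 / 8 : ℝ) < ‖u.1‖ ^ 2 := by linarith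
      have e2 : (1 / 8 : ℝ) < ‖u.2‖ ^ 2 := by linarith
      filter_upwards [continuousAt_const.eventually_lt c1 e1,
        continuousAt_const.eventually_lt c2 e2] with w hw1 hw2 hw'
      exact (sph_mid m hw1.le hw2.le hw').symm

theorem wL_sinh {y r : ℝ} (hy : 0 ≤ y) (h : Real.sinh (Real.pi * y) ^ 2 ≤ r) : y ≤ wL r := by
  have h1 : 0 ≤ Real.sinh (Real.pi * y) := Real.sinh_nonneg_iff.2 (by positivity)
  have h2 : Real.sinh (Real.pi * y) ≤ Real.sqrt r := Real.le_sqrt_of_sq_le h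
  have h3 : Real.pi * y ≤ Real.arsinh (Real.sqrt r) := by
    rw [← Real.arsinh_sinh (Real.pi * y)]
    exact Real.arsinh_le_arsinh.2 h2
  rw [wL, le_div_iff₀ Real.pi_pos]
  linarith

theorem cos_neg_pc (ζ : ℂ) : Complex.cos (Real.pi * (-pc ζ)) = ζ := by
  rw [mul_neg, Complex.cos_neg, cos_pc]

/-- Representative of a point of an end, with prescribed sign of the height. -/
theorem cap_rep {σ : ℝ} (hσ : σ = 1 ∨ σ = -1) (c : ℝ) (x y : ℂ) (hx : ‖x‖ ^ 2 ≤ 3 / 16) (τ : ℝ)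
    (hτ : τ = 1 ∨ τ = -1) :
    ∃ (p : ℂ) (s : ℝ), capS σ c x y = mk (p, 0, c, s) (some 0) ∧ 0 ≤ τ * p.im ∧
      τ * p.im ≤ wL (3 / 16) := by
  have h1 := cos_pc (Zs σ (x * ex y))
  have h2 := cos_neg_pc (Zs σ (x * ex y))
  have b1 := (cap_im hσ h1).trans hx
  have b2 := (cap_im hσ h2).trans hx
  set p := pc (Zs σ (x * ex y)) with hp
  rcases le_total 0 (τ * p.im) with h | h
  · refine ⟨p, _, cap_eq h1 _ _, h, wL_sinh h ?_⟩
    rcases hτ with rfl | rfl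
    · simpa using b1
    · simpa using b1
  · refine ⟨-p, _, cap_eq h2 _ _, ?_, wL_sinh ?_ ?_⟩
    · simp; linarith
    · simp; linarith
    · rcases hτ with rfl | rfl
      · simpa using b2
      · simpa using b2

/-- Representatives. -/
theorem rep_left (m : ℕ) {u : ℂ × ℂ} (h : ‖u.1‖ ^ 2 ≤ 3 / 16) (hu : ‖u.1‖ ^ 2 + ‖u.2‖ ^ 2 = 1) :
    ∃ P d, sph m u = mk P d ∧ P.2.2.1 = cm m ∧ 0 ≤ P.1.im ∧ P.1.im ≤ wL (3 / 16) := by
  obtain ⟨p, s, h1, h2, h3⟩ := cap_rep (Or.inl rfl) (cm m) u.1 u.2 h 1 (Or.inl rfl)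
  refine ⟨_, _, (sph_left m (by linarith) hu).trans h1, rfl, ?_, ?_⟩
  · simpa using h2
  · simpa using h3

theorem rep_right (m : ℕ) {u : ℂ × ℂ} (h : ‖u.2‖ ^ 2 ≤ 3 / 16) (hu : ‖u.1‖ ^ 2 + ‖u.2‖ ^ 2 = 1) :
    ∃ P d, sph m u = mk P d ∧ P.2.2.1 = cm m ∧ wR (13 / 16) ≤ P.1.im ∧ P.1.im ≤ 1 := by
  obtain ⟨p, s, h1, h2, h3⟩ := cap_rep (Or.inr rfl) (cm m) u.2 u.1 h (-1) (Or.inr rfl)
  refine ⟨(gm m).act (p, 0, cm m, s), some 0, ?_, rfl, ?_, ?_⟩
  · rw [sph_right m (by linarith) hu, h1, fr_mk]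
  · rw [act_1im, wR_eq]
    have : (1 - 13 / 16 : ℝ) = 3 / 16 := by norm_num
    rw [this]
    simp [gm]
    linarith
  · rw [act_1im]
    simp [gm]
    linarith

theorem rep_mid (m : ℕ) {u : ℂ × ℂ} (h : 3 / 16 < ‖u.1‖ ^ 2) (h' : 3 / 16 < ‖u.2‖ ^ 2)
    (hu : ‖u.1‖ ^ 2 + ‖u.2‖ ^ 2 = 1) :
    sph m u = mk (midP m u) none ∧ (midP m u).2.2.1 = cm m ∧
      wL (3 / 16) < (midP m u).1.im ∧ (midP m u).1.im < wR (13 / 16) := by
  refine ⟨sph_mid m (by linarith) (by linarith) hu, rfl, ?_, ?_⟩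
  · rw [midP_im, ← wf_left (r := 3 / 16) (by norm_num)]
    exact wf_mono (by norm_num) (by linarith) h
  · rw [midP_im, ← wf_right (r := 13 / 16) (by norm_num)]
    exact wf_mono (by linarith) (by norm_num) (by linarith)

theorem rep (m : ℕ) {u : ℂ × ℂ} (hu : ‖u.1‖ ^ 2 + ‖u.2‖ ^ 2 = 1) :
    ∃ P d, sph m u = mk P d ∧ P.2.2.1 = cm m := by
  rcases le_or_gt (‖u.1‖ ^ 2) (3 / 16) with h | h
  · obtain ⟨P, d, h1, h2, -⟩ := rep_left m h hu
    exact ⟨P, d, h1, h2⟩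
  · rcases le_or_gt (‖u.2‖ ^ 2) (3 / 16) with h' | h'
    · obtain ⟨P, d, h1, h2, -⟩ := rep_right m h' hu
      exact ⟨P, d, h1, h2⟩
    · obtain ⟨h1, h2, -⟩ := rep_mid m h h' hu
      exact ⟨_, _, h1, h2⟩

/-- The heights of related points of height in `[0, 1]` agree. -/
theorem height_eq {P Q : Pt} (h : rel P Q) (h0 : 0 ≤ P.1.im) (h1 : P.1.im ≤ 1)
    (h0' : 0 ≤ Q.1.im) (h1' : Q.1.im ≤ 1) : P.1.im = Q.1.im := by
  obtain ⟨ε, n, j, x, y, k, l, hε, e1, e2, e3, e4, e5, e6⟩ := h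
  rcases hε with rfl | rfl
  · push_cast at e2
    have hj : j = 0 := int_zero_of_abs_lt (by rw [abs_lt]; constructor <;> linarith)
    subst hj
    simpa using e2.symm
  · push_cast at e2
    have hj0 : (0 : ℝ) ≤ j := by linarith
    have hj1 : (j : ℝ) ≤ 1 := by linarith
    have hj0' : 0 ≤ j := by exact_mod_cast hj0
    have hj1' : j ≤ 1 := by exact_mod_cast hj1
    have : j = 0 ∨ j = 1 := by omega
    rcases this with rfl | rfl
    · push_cast at e2; linarith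
    · push_cast at e2; linarith

theorem eq_of_arg {z w : ℂ} (h : ‖z‖ = ‖w‖) {l : ℤ}
    (harg : Complex.arg w = Complex.arg z + 2 * Real.pi * l) : z = w := by
  rw [← norm_mul_ex z, ← norm_mul_ex w, h]
  congr 1
  rw [ex, ex, harg, Complex.exp_eq_exp_iff_exists_int]
  refine ⟨-l, ?_⟩
  push_cast; ring

theorem wf_injOn {r r' : ℝ} (h0 : 0 ≤ r) (h1 : r ≤ 1) (h0' : 0 ≤ r') (h1' : r' ≤ 1)
    (h : wf r = wf r') : r = r' := by
  rcases lt_trichotomy r r' with h2 | h2 | h2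
  · exact absurd h (wf_mono h0 h1' h2).ne
  · exact h2
  · exact absurd h (wf_mono h0' h1 h2).ne'

theorem mid_inj (m : ℕ) {u v : ℂ × ℂ} (hu1 : 3 / 16 < ‖u.1‖ ^ 2) (hu2 : 3 / 16 < ‖u.2‖ ^ 2)
    (hu : ‖u.1‖ ^ 2 + ‖u.2‖ ^ 2 = 1) (hv1 : 3 / 16 < ‖v.1‖ ^ 2) (hv2 : 3 / 16 < ‖v.2‖ ^ 2)
    (hv : ‖v.1‖ ^ 2 + ‖v.2‖ ^ 2 = 1) (h : rel (midP m u) (midP m v)) : u = v := by
  have i0 : 0 < (midP m u).1.im := by rw [midP_im]; exact wf_pos (by linarith) (by linarith)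
  have i1 : (midP m u).1.im < 1 := by rw [midP_im]; exact wf_lt_one (by linarith) (by linarith)
  have j0 : 0 < (midP m v).1.im := by rw [midP_im]; exact wf_pos (by linarith) (by linarith)
  have j1 : (midP m v).1.im < 1 := by rw [midP_im]; exact wf_lt_one (by linarith) (by linarith)
  have hh := height_eq h i0.le i1.le j0.le j1.le
  have hr : ‖u.1‖ ^ 2 = ‖v.1‖ ^ 2 := by
    rw [midP_im, midP_im] at hh
    exact wf_injOn (by linarith) (by linarith) (by linarith) (by linarith) hh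
  have hr1 : ‖u.1‖ = ‖v.1‖ :=
    (pow_left_inj₀ (norm_nonneg _) (norm_nonneg _) two_ne_zero).1 hr
  have hr2 : ‖u.2‖ = ‖v.2‖ :=
    (pow_left_inj₀ (norm_nonneg _) (norm_nonneg _) two_ne_zero).1 (by linarith)
  obtain ⟨ε, n, j, x, y, k, l, hε, e1, e2, e3, e4, e5, e6⟩ := h
  have hpi := Real.pi_ne_zero
  rcases hε with rfl | rfl
  · push_cast at e1 e2 e6
    have hj : j = 0 := int_zero_of_abs_lt (by rw [abs_lt]; constructor <;> linarith)
    subst hj
    rw [midP_re, midP_re] at e1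
    simp only [midP] at e6
    push_cast at e6
    have a2 : Complex.arg v.2 = Complex.arg u.2 + 2 * Real.pi * (-l : ℤ) := by
      push_cast
      field_simp at e6
      linarith
    have a1 : Complex.arg v.1 = Complex.arg u.1 + 2 * Real.pi * (n + l : ℤ) := by
      push_cast
      field_simp at e1
      rw [a2] at e1
      push_cast at e1
      linarith
    exact Prod.ext (eq_of_arg hr1 a1) (eq_of_arg hr2 a2)
  · exfalso
    push_cast at e2
    have hj0 : (0 : ℝ) < j := by linarith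
    have hj1 : (j : ℝ) < 1 := by linarith
    have hj0' : 0 < j := by exact_mod_cast hj0
    have hj1' : j < 1 := by exact_mod_cast hj1
    omega

theorem wL_wR : wL (3 / 16) < wR (13 / 16) := by
  have h1 := wL_lt (r := 3 / 16) (by norm_num)
  rw [wR_eq]
  have : (1 - 13 / 16 : ℝ) = 3 / 16 := by norm_num
  rw [this]
  linarith

theorem wL_316 : wL (3 / 16) < 1 := by
  have h1 := wL_lt (r := 3 / 16) (by norm_num)
  linarith

theorem wR_1316 : 0 < wR (13 / 16) := by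
  have := wL_nonneg (3 / 16)
  have := wL_wR
  linarith

theorem wR_1316' : wR (13 / 16) ≤ 1 := by
  rw [wR_eq]
  have := wL_nonneg (1 - 13 / 16)
  linarith

theorem sph_inj (m : ℕ) {u v : ℂ × ℂ} (hu : ‖u.1‖ ^ 2 + ‖u.2‖ ^ 2 = 1)
    (hv : ‖v.1‖ ^ 2 + ‖v.2‖ ^ 2 = 1) (h : sph m u = sph m v) : u = v := by
  have b1 := wL_wR
  have b2 := wL_316
  have b3 := wR_1316
  have b4 := wR_1316'
  have b5 := wL_nonneg (3 / 16)
  have key : ∀ {P Q : Pt} {d e : Option ℂ}, mk P d = mk Q e → 0 ≤ P.1.im → P.1.im ≤ 1 →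
      0 ≤ Q.1.im → Q.1.im ≤ 1 → P.1.im = Q.1.im := fun h h0 h1 h0' h1' =>
    height_eq (mk_eq.1 h).1 h0 h1 h0' h1'
  rcases le_or_gt (‖u.1‖ ^ 2) (3 / 16) with h1 | h1
  · rcases le_or_gt (‖v.1‖ ^ 2) (3 / 16) with h2 | h2
    · rw [sph_left m (by linarith) hu, sph_left m (by linarith) hv] at h
      obtain ⟨g1, g2⟩ := capS_inj (Or.inl rfl) (by linarith) (by linarith) hu hv h
      exact Prod.ext g1 g2
    · exfalso
      obtain ⟨P, d, e1, e2, e3, e4⟩ := rep_left m h1 hu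
      rcases le_or_gt (‖v.2‖ ^ 2) (3 / 16) with h3 | h3
      · obtain ⟨Q, e, f1, f2, f3, f4⟩ := rep_right m h3 hv
        rw [e1, f1] at h
        have := key h e3 (by linarith) (by linarith) f4
        linarith
      · obtain ⟨f1, f2, f3, f4⟩ := rep_mid m h2 h3 hv
        rw [e1, f1] at h
        have := key h e3 (by linarith) (by linarith) (by linarith)
        linarith
  · rcases le_or_gt (‖u.2‖ ^ 2) (3 / 16) with h1' | h1'
    · rcases le_or_gt (‖v.2‖ ^ 2) (3 / 16) with h2 | h2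
      · rw [sph_right m (by linarith) hu, sph_right m (by linarith) hv] at h
        obtain ⟨g1, g2⟩ := capS_inj (Or.inr rfl) (by linarith) (by linarith) (by linarith)
          (by linarith) (fr_inj _ h)
        exact Prod.ext g2 g1
      · exfalso
        obtain ⟨P, d, e1, e2, e3, e4⟩ := rep_right m h1' hu
        rcases le_or_gt (‖v.1‖ ^ 2) (3 / 16) with h3 | h3
        · obtain ⟨Q, e, f1, f2, f3, f4⟩ := rep_left m h3 hv
          rw [e1, f1] at h
          have := key h (by linarith) e4 f3 (by linarith)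
          linarith
        · obtain ⟨f1, f2, f3, f4⟩ := rep_mid m h3 h2 hv
          rw [e1, f1] at h
          have := key h (by linarith) e4 (by linarith) (by linarith)
          linarith
    · obtain ⟨e1, e2, e3, e4⟩ := rep_mid m h1 h1' hu
      rcases le_or_gt (‖v.1‖ ^ 2) (3 / 16) with h2 | h2
      · exfalso
        obtain ⟨Q, e, f1, f2, f3, f4⟩ := rep_left m h2 hv
        rw [e1, f1] at h
        have := key h (by linarith) (by linarith) f3 (by linarith)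
        linarith
      · rcases le_or_gt (‖v.2‖ ^ 2) (3 / 16) with h3 | h3
        · exfalso
          obtain ⟨Q, e, f1, f2, f3, f4⟩ := rep_right m h3 hv
          rw [e1, f1] at h
          have := key h (by linarith) (by linarith) (by linarith) f4
          linarith
        · obtain ⟨f1, f2, f3, f4⟩ := rep_mid m h2 h3 hv
          rw [e1, f1] at h
          exact mid_inj m h1 h1' hu h2 h3 hv (mk_eq.1 h).1

theorem sph_disjoint {m k : ℕ} {u v : ℂ × ℂ} (hu : ‖u.1‖ ^ 2 + ‖u.2‖ ^ 2 = 1)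
    (hv : ‖v.1‖ ^ 2 + ‖v.2‖ ^ 2 = 1) (h : sph m u = sph k v) : m = k := by
  obtain ⟨P, d, e1, e2⟩ := rep m hu
  obtain ⟨Q, e, f1, f2⟩ := rep k hv
  rw [e1, f1] at h
  obtain ⟨ε, n, j, x, y, a, l, hε, -, -, -, -, h5, -⟩ := (mk_eq.1 h).1
  rw [e2, f2, cm, cm] at h5
  by_contra hne
  have hirr : Irrational β := irrational_sqrt_two
  have h6 : ((m : ℝ) - k) * β = 2 * a := by linarith
  have h7 : ((m : ℝ) - k) ≠ 0 := by
    rw [sub_ne_zero]
    exact_mod_cast hne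
  have h8 : β = ((2 * a / ((m : ℤ) - k) : ℚ) : ℝ) := by
    push_cast
    field_simp
    linarith
  exact hirr ⟨_, h8.symm⟩

end Pool.Agent.Lib.P89d91e
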