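import Pool.Agent.Lib.P89d91e.AtlasTop

open Set Filter Topology
open scoped ContDiff Manifold RealInnerProductSpace

namespace Pool.Agent.Lib.P89d91e.SympAtlas

variable {E : Type*} [NormedAddCommGroup E] [NormedSpace ℝ E] {X : Type*}
variable {B : E →L[ℝ] E →L[ℝ] ℝ} (A : SympAtlas B X)

/-- The symplectic form of the manifold defined by the atlas. -/
noncomputable def form (hB : ∀ v, B v v = 0) :
    @TwoForm E _ _ X A.top A.charted :=
  let Ω : E [⋀^Fin 2]→L[ℝ] ℝ := altOf B hB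
  fun _ => Ω

theorem form_apply (hB : ∀ v, B v v = 0) (x : X) (v w : E) :
    A.form hB x ![v, w] = B v w := rfl

theorem inChart_eq (hB : ∀ v, B v v = 0) (i : A.ι) {u : E} (hu : u ∈ A.U i) :
    @TwoForm.inChart E _ _ X A.top A.charted (A.form hB) (A.chart i) u = altOf B hB := by
  let _ := A.top
  let _ := A.charted
  obtain ⟨L, hL, hLB⟩ := A.mfderiv_chart_symm i hu
  ext v
  have h1 : mfderiv 𝓘(ℝ, E) 𝓘(ℝ, E) (A.chart i).symm u = L := hL.mfderiv
  rw [TwoForm.inChart, h1]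
  exact hLB (v 0) (v 1)

theorem isSymplecticForm (hB : ∀ v, B v v = 0) (hBn : ∀ v, (∀ w, B v w = 0) → v = 0) :
    @IsSymplecticForm E _ _ X A.top A.charted (A.form hB) := by
  let _ := A.top
  let _ := A.charted
  refine ⟨?_, ?_, ?_⟩
  · rintro _ ⟨i, rfl⟩
    exact contDiffOn_const.congr fun u hu => A.inChart_eq hB i hu
  · rintro _ ⟨i, rfl⟩ u hu
    have h1 : TwoForm.inChart (A.form hB) (A.chart i) =ᶠ[𝓝 u] fun _ => altOf B hB := by
      filter_upwards [(A.isOpen_U i).mem_nhds hu] with v hv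
      exact A.inChart_eq hB i hv
    rw [h1.extDeriv_eq]
    ext v
    simp [extDeriv, ContinuousAlternatingMap.alternatizeUncurryFin_apply]
  · intro x v h
    exact hBn v h

variable {n : ℕ}

/-- A map from the sphere is Lagrangian, and an immersion, at `p`, when it lifts locally to a
smooth map into the parameter space of the preferred chart with these properties. -/
theorem lagrangian_at (hB : ∀ v, B v v = 0) (hBn : ∀ v, (∀ w, B v w = 0) → v = 0)
    (f : Metric.sphere (0 : EuclideanSpace ℝ (Fin (n + 1))) 1 → X)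
    (p : Metric.sphere (0 : EuclideanSpace ℝ (Fin (n + 1))) 1)
    (G : EuclideanSpace ℝ (Fin (n + 1)) → E) (hG : ContDiffAt ℝ ∞ G p)
    (hGU : G p ∈ A.U (A.idx (f p)))
    (hGf : ∀ᶠ w in 𝓝 (p : EuclideanSpace ℝ (Fin (n + 1))),
      ∀ hw : w ∈ Metric.sphere (0 : EuclideanSpace ℝ (Fin (n + 1))) 1,
        A.κ (A.idx (f p)) (G w) = f ⟨w, hw⟩)
    (hinj : ∀ v : EuclideanSpace ℝ (Fin (n + 1)), ⟪(p : EuclideanSpace ℝ (Fin (n + 1))), v⟫ = 0 →
      fderiv ℝ G p v = 0 → v = 0)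
    (hlag : ∀ v w : EuclideanSpace ℝ (Fin (n + 1)),
      ⟪(p : EuclideanSpace ℝ (Fin (n + 1))), v⟫ = 0 →
      ⟪(p : EuclideanSpace ℝ (Fin (n + 1))), w⟫ = 0 →
      B (fderiv ℝ G p v) (fderiv ℝ G p w) = 0) :
    let _ := A.top
    let _ := A.charted
    ContMDiffAt (𝓡 n) 𝓘(ℝ, E) ∞ f p ∧
    Function.Injective (mfderiv (𝓡 n) 𝓘(ℝ, E) f p) ∧
    (∀ (v w : TangentSpace (𝓡 n) p),
      A.form hB (f p) ![mfderiv (𝓡 n) 𝓘(ℝ, E) f p v, mfderiv (𝓡 n) 𝓘(ℝ, E) f p w] = 0) := by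
  intro t1 t2
  have hman : IsManifold 𝓘(ℝ, E) ∞ X := A.isManifold
  have := Fact.mk (@finrank_euclideanSpace_fin ℝ _ (n + 1))
  set i := A.idx (f p) with hi
  -- the local lift on the sphere
  let H : Metric.sphere (0 : EuclideanSpace ℝ (Fin (n + 1))) 1 → E := fun x => G x
  let D : EuclideanSpace ℝ (Fin (n + 1)) →L[ℝ] E :=
    fderiv ℝ G (p : EuclideanSpace ℝ (Fin (n + 1)))
  let J : TangentSpace (𝓡 n) p →L[ℝ] EuclideanSpace ℝ (Fin (n + 1)) :=
    mfderiv (𝓡 n) 𝓘(ℝ, EuclideanSpace ℝ (Fin (n + 1)))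
      ((↑) : Metric.sphere (0 : EuclideanSpace ℝ (Fin (n + 1))) 1 → EuclideanSpace ℝ (Fin (n + 1)))
      p
  have hH : ContMDiffAt (𝓡 n) 𝓘(ℝ, E) ∞ H p := by
    have h1 : ContMDiffAt 𝓘(ℝ, EuclideanSpace ℝ (Fin (n + 1))) 𝓘(ℝ, E) ∞ G p := hG.contMDiffAt
    exact ContMDiffAt.comp p h1 (contMDiff_coe_sphere p)
  have hfH : f =ᶠ[𝓝 p] A.κ i ∘ H := by
    have h1 := (continuous_subtype_val.tendsto p).eventually hGf
    filter_upwards [h1] with x hx
    exact (hx x.2).symm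
  obtain ⟨L, hL, hLB⟩ := A.mfderiv_chart_symm i hGU
  have hκ : ContMDiffAt 𝓘(ℝ, E) 𝓘(ℝ, E) ∞ (A.κ i) (H p) := by
    have h1 : ContMDiffOn 𝓘(ℝ, E) 𝓘(ℝ, E) ∞ (A.chart i).symm (A.chart i).target :=
      contMDiffOn_symm_of_mem_maximalAtlas
        (IsManifold.subset_maximalAtlas (mem_range_self i))
    exact h1.contMDiffAt ((A.isOpen_U i).mem_nhds hGU)
  have hf : ContMDiffAt (𝓡 n) 𝓘(ℝ, E) ∞ f p :=
    (ContMDiffAt.comp p hκ hH).congr_of_eventuallyEq hfH
  have hval : HasMFDerivAt (𝓡 n) 𝓘(ℝ, EuclideanSpace ℝ (Fin (n + 1)))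
      ((↑) : Metric.sphere (0 : EuclideanSpace ℝ (Fin (n + 1))) 1 → EuclideanSpace ℝ (Fin (n + 1)))
      p J := by
    refine MDifferentiableAt.hasMFDerivAt ?_
    exact (contMDiff_coe_sphere (m := ∞) p).mdifferentiableAt (by simp)
  have hGd : HasFDerivAt G D (p : EuclideanSpace ℝ (Fin (n + 1))) :=
    (hG.differentiableAt (by simp)).hasFDerivAt
  have hGm : HasMFDerivAt 𝓘(ℝ, EuclideanSpace ℝ (Fin (n + 1))) 𝓘(ℝ, E) G
      (p : EuclideanSpace ℝ (Fin (n + 1))) D := hGd.hasMFDerivAt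
  have hHm : HasMFDerivAt (𝓡 n) 𝓘(ℝ, E) H p (D.comp J) := HasMFDerivAt.comp p hGm hval
  have hfm := (HasMFDerivAt.comp (f := H) p hL hHm).congr_of_eventuallyEq hfH
  have hperp : ∀ v : TangentSpace (𝓡 n) p,
      ⟪(p : EuclideanSpace ℝ (Fin (n + 1))), J v⟫ = 0 := by
    intro v
    have h1 := range_mfderiv_coe_sphere (n := n) p
    have h2 : J v ∈ (ℝ ∙ (p : EuclideanSpace ℝ (Fin (n + 1))))ᗮ := by
      rw [← h1]
      exact ⟨v, rfl⟩
    exact Submodule.mem_orthogonal_singleton_iff_inner_right.1 h2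
  refine ⟨hf, ?_, ?_⟩
  · rw [hfm.mfderiv]
    have hLinj : ∀ a b : E, L a = L b → a = b := by
      intro a b hab
      have h1 : a - b = 0 := by
        apply hBn
        intro c
        rw [← hLB (a - b) c, map_sub, hab, sub_self]
        simp
      exact sub_eq_zero.1 h1
    intro v w hvw
    have h1 : D (J v) = D (J w) := hLinj _ _ hvw
    have h2 : J v - J w = 0 := by
      apply hinj
      · rw [inner_sub_right, hperp v, hperp w, sub_self]
      · show D (J v - J w) = 0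
        rw [map_sub, h1, sub_self]
    have h3 : Function.Injective J := mfderiv_coe_sphere_injective p
    exact h3 (sub_eq_zero.1 h2)
  · intro v w
    rw [hfm.mfderiv]
    have h1 := hlag _ _ (hperp v) (hperp w)
    have h2 := hLB (D (J v)) (D (J w))
    rw [h1] at h2
    exact h2

end Pool.Agent.Lib.P89d91e.SympAtlas
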