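import Pool.Agent.Lib.P89d91e.AtlasX
import Pool.Agent.Lib.P89d91e.AtlasTop

open Set Filter Topology
open scoped ContDiff Manifold

namespace Pool.Agent.Lib.P89d91e

noncomputable instance instTopX : TopologicalSpace X := atl.top

noncomputable instance instChartedX : ChartedSpace Pt X := atl.charted

theorem Par.continuousAt {κ : Pt → X} {u : Pt} (h : Par κ u) : ContinuousAt κ u := by
  obtain ⟨i, v, hv, hx⟩ := Ix.cover (κ u)
  exact atl.continuousAt_of_compat (i := i) hv (h.compat (i.par hv) hx.symm)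

theorem Par.image_mem_nhds {κ : Pt → X} {u : Pt} (h : Par κ u) {W : Set Pt} (hW : W ∈ 𝓝 u) :
    κ '' W ∈ 𝓝 (κ u) := by
  obtain ⟨i, v, hv, hx⟩ := Ix.cover (κ u)
  exact atl.image_mem_nhds_of_compat (i := i) hv ((i.par hv).compat h hx) hW

theorem continuousAt_sq_zero : ContinuousAt sq 0 := by
  have h0 : sq 0 = 0 := sq_eq_zero.2 rfl
  rw [Metric.continuousAt_iff]
  intro r hr
  refine ⟨r ^ 2 / 2, by positivity, ?_⟩
  intro b hb
  rw [h0, dist_zero_right]
  rw [dist_zero_right] at hb
  have := norm_sq_sq b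
  nlinarith [norm_nonneg (sq b)]

theorem continuous_act (g : Frame) : Continuous g.act := by
  unfold Frame.act
  fun_prop

/-- All the classes of points of `V`. -/
def sat (V : Set Pt) : Set X := {z | ∃ P ∈ V, ∃ d, mk P d = z}

theorem sat_mem_nhds {P : Pt} {V : Set Pt} (hV : V ∈ 𝓝 P) (d : Option ℂ) :
    sat V ∈ 𝓝 (mk P d) := by
  by_cases h : F P
  · obtain ⟨g, c, rfl⟩ := exists_frame h
    cases d with
    | some a =>
      have h1 : mk (g.act (0, 0, c, 0)) (some a) = (fr g ∘ κa) (0, a, c, 0) := by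
        simp [κa_zero]
      rw [h1]
      have hp : Par (fr g ∘ κa) (0, a, c, 0) := (Can.A _ _ _ _).par
      have h0 : sq 0 = 0 := sq_eq_zero.2 rfl
      have hc : ContinuousAt (fun u : Pt => g.act (sq u.1, u.2.1 * sq u.1, u.2.2.1, u.2.2.2))
          (0, a, c, 0) := by
        refine (continuous_act g).continuousAt.comp ?_
        have h2 : ContinuousAt (fun u : Pt => sq u.1) (0, a, c, 0) :=
          ContinuousAt.comp (g := sq) (by exact continuousAt_sq_zero) continuousAt_fst
        fun_prop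
      have hW : (fun u : Pt => g.act (sq u.1, u.2.1 * sq u.1, u.2.2.1, u.2.2.2)) ⁻¹' V ∈
          𝓝 ((0, a, c, 0) : Pt) := by
        apply hc
        simpa [h0] using hV
      refine mem_of_superset (hp.image_mem_nhds hW) ?_
      rintro _ ⟨u, hu, rfl⟩
      exact ⟨_, hu, some u.2.1, rfl⟩
    | none =>
      have h1 : mk (g.act (0, 0, c, 0)) none = (fr g ∘ κb) (0, 0, c, 0) := by
        simp [κb_zero]
      rw [h1]
      have hp : Par (fr g ∘ κb) (0, 0, c, 0) := (Can.Bc _ _ _).par
      have h0 : sq 0 = 0 := sq_eq_zero.2 rfl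
      have hc : ContinuousAt (fun u : Pt => g.act (u.1 * sq u.2.1, sq u.2.1, u.2.2.1, u.2.2.2))
          (0, 0, c, 0) := by
        refine (continuous_act g).continuousAt.comp ?_
        have h2 : ContinuousAt (fun u : Pt => sq u.2.1) (0, 0, c, 0) :=
          ContinuousAt.comp (g := sq) (f := fun u : Pt => u.2.1)
            (by exact continuousAt_sq_zero) (by fun_prop)
        fun_prop
      have hW : (fun u : Pt => g.act (u.1 * sq u.2.1, sq u.2.1, u.2.2.1, u.2.2.2)) ⁻¹' V ∈
          𝓝 ((0, 0, c, 0) : Pt) := by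
        apply hc
        simpa [h0] using hV
      refine mem_of_superset (hp.image_mem_nhds hW) ?_
      rintro _ ⟨u, hu, rfl⟩
      exact ⟨_, hu, _, rfl⟩
  · rw [mk_of_not_F h d none]
    refine mem_of_superset ((par_fl h).image_mem_nhds hV) ?_
    rintro _ ⟨u, hu, rfl⟩
    exact ⟨u, hu, none, rfl⟩

theorem disjoint_some_none (g : Frame) (a : ℂ) (c : ℝ) :
    Disjoint (𝓝 (mk (g.act (0, 0, c, 0)) (some a))) (𝓝 (mk (g.act (0, 0, c, 0)) none)) := by
  have e2 : mk (g.act (0, 0, c, 0)) none = (fr g ∘ κb) (0, 0, c, 0) := by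
    simp [κb_zero]
  by_cases ha : a = 0
  · subst ha
    have e1 : mk (g.act (0, 0, c, 0)) (some 0) = (fr g ∘ κa) (0, 0, c, 0) := by
      simp [κa_zero]
    rw [e1, e2]
    have h1 : Par (fr g ∘ κa) (0, 0, c, 0) := (Can.A _ _ _ _).par
    have h2 : Par (fr g ∘ κb) (0, 0, c, 0) := (Can.Bc _ _ _).par
    have hV : Da ∩ {u : Pt | ‖u.2.1‖ < 1 / 2} ∈ 𝓝 ((0, 0, c, 0) : Pt) := by
      refine IsOpen.mem_nhds (isOpen_Da.inter (isOpen_lt (by fun_prop) (by fun_prop))) ?_
      simp [Da]
    have hV' : Db ∩ {u : Pt | ‖u.1‖ < 1 / 2} ∈ 𝓝 ((0, 0, c, 0) : Pt) := by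
      refine IsOpen.mem_nhds (isOpen_Db.inter (isOpen_lt (by fun_prop) (by fun_prop))) ?_
      simp [Db]
    rw [Filter.disjoint_iff]
    refine ⟨_, h1.image_mem_nhds hV, _, h2.image_mem_nhds hV', ?_⟩
    rw [Set.disjoint_left]
    rintro _ ⟨⟨b, a, c, s⟩, ⟨⟨g1, g2⟩, g3⟩, rfl⟩ ⟨⟨a', b', c', s'⟩, ⟨⟨g1', g2'⟩, g3'⟩, h⟩
    simp only [mem_ofPred_eq] at g1 g2 g3 g1' g2' g3'
    have h0 := mk_eq.1 (fr_inj g h.symm)
    obtain ⟨ε, hε, f1, f2, -⟩ := rel_small (norm_sq_lt g1) (norm_mul_sq_lt g2)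
      (norm_mul_sq_lt g2') (norm_sq_lt g1') h0.1
    have hz : sq b = 0 := by
      have h3 : (1 - a * a') * sq b = 0 := by
        rw [f2] at f1
        rcases hε with rfl | rfl
        · linear_combination -f1
        · linear_combination f1
      rcases mul_eq_zero.1 h3 with h4 | h4
      · exfalso
        have h5 : a * a' = 1 := by linear_combination -h4
        have h6 : ‖a‖ * ‖a'‖ = 1 := by rw [← norm_mul, h5, norm_one]
        nlinarith [norm_nonneg a, norm_nonneg a']
      · exact h4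
    have hF : F (sq b, a * sq b, c, s) := by
      rw [hz, mul_zero]; exact F_origin c s
    have h7 := h0.2 hF
    simp only at h7
    split_ifs at h7 with h8
    have h9 : a = a'⁻¹ := Option.some_injective _ h7
    have h10 : a * a' = 1 := by rw [h9, inv_mul_cancel₀ h8]
    have h6 : ‖a‖ * ‖a'‖ = 1 := by rw [← norm_mul, h10, norm_one]
    nlinarith [norm_nonneg a, norm_nonneg a']
  · have e1 : mk (g.act (0, 0, c, 0)) (some a) = (fr g ∘ κb) (a⁻¹, 0, c, 0) := by
      rw [Function.comp_apply, κb_eq (z := 0) (by simp), if_neg (inv_ne_zero ha)]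
      simp
    rw [e1, e2]
    exact atl.disjoint_nhds_chart (i := Ix.Bc g c) (mem_U_B _ g c) (mem_U_B _ g c) (by
      intro h
      have := congrArg Prod.fst h
      exact ha (by simpa using this))

instance instT2X : T2Space X := by
  rw [t2Space_iff_disjoint_nhds]
  intro x y hxy
  obtain ⟨P, d, rfl⟩ := mk_surj x
  obtain ⟨Q, e, rfl⟩ := mk_surj y
  by_cases hr : rel P Q
  · have h1 : mk Q e = mk P e := mk_eq.2 ⟨rel_symm hr, fun _ => rfl⟩
    rw [h1] at hxy ⊢
    by_cases hF : F P
    · obtain ⟨g, c, rfl⟩ := exists_frame hF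
      cases d with
      | none =>
        cases e with
        | none => exact absurd rfl hxy
        | some a => exact (disjoint_some_none g a c).symm
      | some a =>
        cases e with
        | none => exact disjoint_some_none g a c
        | some b =>
          have e1 : ∀ a, mk (g.act (0, 0, c, 0)) (some a) = (fr g ∘ κa) (0, a, c, 0) := by
            simp [κa_zero]
          have hab : a ≠ b := by rintro rfl; exact hxy rfl
          rw [e1, e1]
          exact atl.disjoint_nhds_chart (i := Ix.A g c) (mem_U_A _ g c) (mem_U_A _ g c) (by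
            intro h
            have := congrArg (fun u : Pt => u.2.1) h
            exact hab this)
    · exact absurd (mk_of_not_F hF _ _) hxy
  · have h1 : {R : Pt × Pt | rel R.1 R.2}ᶜ ∈ 𝓝 (P, Q) :=
      isClosed_rel.isOpen_compl.mem_nhds hr
    rw [nhds_prod_eq] at h1
    obtain ⟨V, hV, V', hV', hVV⟩ := Filter.mem_prod_iff.1 h1
    rw [Filter.disjoint_iff]
    refine ⟨sat V, sat_mem_nhds hV d, sat V', sat_mem_nhds hV' e, ?_⟩
    rw [Set.disjoint_left]
    rintro _ ⟨P', hP', d', rfl⟩ ⟨Q', hQ', e', h⟩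
    exact hVV (Set.mk_mem_prod hP' hQ') (rel_symm (mk_eq.1 h).1)

end Pool.Agent.Lib.P89d91e
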